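import Mathlib

/-!
# The theorem of Amir and Lindenstrauss

A weakly compact subset of a Banach space is separated by a family of continuous functions which
is `c₀` at every point.  Elementary proof with separately continuous pairings of compact spaces.
-/

set_option autoImplicit false
set_option linter.unusedSectionVars false

open Set Topology Cardinal

namespace Pool.Agent.EB

/-! ### Hulls of sets under a finitary operation with countable values -/

section hull


variable {Z : Type}

/-- The least set containing `S` and closed under `W`. -/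
inductive Hull (W : Finset Z → Set Z) (S : Set Z) : Z → Prop
  | base (z : Z) : z ∈ S → Hull W S z
  | step (F : Finset Z) (z : Z) : (∀ y ∈ F, Hull W S y) → z ∈ W F → Hull W S z

variable {W : Finset Z → Set Z}

lemma Hull.mono {S T : Set Z} (h : S ⊆ T) {z : Z} (hz : Hull W S z) : Hull W T z := by
  induction hz with
  | base z hz => exact .base z (h hz)
  | step F z _ hz ih => exact .step F z ih hz

lemma Hull.exists_finset {S : Set Z} {z : Z} (hz : Hull W S z) :
    ∃ F : Finset Z, (↑F : Set Z) ⊆ S ∧ Hull W (↑F : Set Z) z := by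
  classical
  induction hz with
  | base z hz => exact ⟨{z}, by simpa using hz, .base z (by simp)⟩
  | step F z _ hz ih =>
    choose! G hG hG' using ih
    refine ⟨F.biUnion G, ?_, .step F z (fun y hy => (hG' y hy).mono ?_) hz⟩
    · intro x hx
      simp only [Finset.coe_biUnion, mem_iUnion] at hx
      obtain ⟨y, hy, hxy⟩ := hx
      exact hG y hy hxy
    · intro x hx
      simp only [Finset.coe_biUnion, mem_iUnion]
      exact ⟨y, hy, hx⟩

lemma Hull.least {S T : Set Z} (h : S ⊆ T) (hT : ∀ F : Finset Z, (↑F : Set Z) ⊆ T → W F ⊆ T)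
    {z : Z} (hz : Hull W S z) : z ∈ T := by
  induction hz with
  | base z hz => exact h hz
  | step F z _ hz ih => exact hT F (fun y hy => ih y hy) hz

/-- one step -/
def nxt (W : Finset Z → Set Z) (S : Set Z) : Set Z :=
  S ∪ ⋃ F ∈ {F : Finset Z | (↑F : Set Z) ⊆ S}, W F

lemma countable_finsets {S : Set Z} (hS : S.Countable) :
    {F : Finset Z | (↑F : Set Z) ⊆ S}.Countable := by
  have h := Set.countable_ofPred_finite_subset hS
  refine (h.preimage_of_injOn (f := fun F : Finset Z => (↑F : Set Z)) ?_).mono ?_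
  · exact Finset.coe_injective.injOn
  · intro F hF
    exact ⟨F.finite_toSet, hF⟩

lemma countable_hull (hW : ∀ F, (W F).Countable) {S : Set Z} (hS : S.Countable) :
    {z | Hull W S z}.Countable := by
  have h1 : ∀ n : ℕ, ((nxt W)^[n] S).Countable := by
    intro n
    induction n with
    | zero => exact hS
    | succ n ih =>
      rw [Function.iterate_succ_apply']
      exact ih.union ((countable_finsets ih).biUnion fun F _ => hW F)
  have h2 : ∀ n : ℕ, (nxt W)^[n] S ⊆ (nxt W)^[n + 1] S := by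
    intro n
    rw [Function.iterate_succ_apply']
    exact subset_union_left
  have h3 : Monotone fun n : ℕ => (nxt W)^[n] S := monotone_nat_of_le_succ h2
  refine (countable_iUnion h1).mono ?_
  intro z hz
  refine hz.least (S := S) (T := ⋃ n, (nxt W)^[n] S) (fun x hx => mem_iUnion.2 ⟨0, hx⟩) ?_
  intro F hF x hx
  have h4 : ∃ n, (↑F : Set Z) ⊆ (nxt W)^[n] S := by
    classical
    have : ∀ y ∈ F, ∃ n, y ∈ (nxt W)^[n] S := fun y hy => mem_iUnion.1 (hF hy)
    choose! n hn using this
    refine ⟨F.sup n, fun y hy => h3 (Finset.le_sup (f := n) hy) (hn y hy)⟩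
  obtain ⟨n, hn⟩ := h4
  refine mem_iUnion.2 ⟨n + 1, ?_⟩
  rw [Function.iterate_succ_apply']
  exact Or.inr (mem_biUnion (show F ∈ {F : Finset Z | (↑F : Set Z) ⊆ (nxt W)^[n] S} from hn) hx)


end hull

/-! ### Separately continuous pairings of compact spaces, good pairs, retractions -/

section good


/-- Compactness: approximate solutions in `A` give a solution in the closure of `A`. -/
lemma exists_agree {K I : Type} [TopologicalSpace K] [CompactSpace K] (g : I → K → ℝ)
    (hg : ∀ i, Continuous (g i)) (c : I → ℝ) (A : Set K) (I0 : Set I)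
    (h : ∀ F : Finset I, (↑F : Set I) ⊆ I0 → ∀ ε > 0, ∃ a ∈ A, ∀ i ∈ F, |g i a - c i| < ε) :
    ∃ x ∈ closure A, ∀ i ∈ I0, g i x = c i := by
  classical
  have hs : IsCompact (closure A) := isClosed_closure.isCompact
  have key := hs.inter_iInter_nonempty
    (fun j : I0 × ℕ => {x : K | |g j.1.1 x - c j.1.1| ≤ 1 / ((j.2 : ℝ) + 1)}) ?_ ?_
  · obtain ⟨x, hx, hx'⟩ := key
    refine ⟨x, hx, fun i hi => ?_⟩
    rw [mem_iInter] at hx'
    have h1 : ∀ n : ℕ, |g i x - c i| ≤ 1 / ((n : ℝ) + 1) := fun n => hx' (⟨i, hi⟩, n)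
    have h2 : |g i x - c i| ≤ 0 :=
      ge_of_tendsto' tendsto_one_div_add_atTop_nhds_zero_nat h1
    have h3 : g i x - c i = 0 := abs_nonpos_iff.1 h2
    linarith
  · intro j
    exact isClosed_le (((hg _).sub continuous_const).abs) continuous_const
  · intro u
    obtain ⟨a, ha, ha'⟩ := h (u.image fun j => j.1.1) (by
      intro i hi
      simp only [Finset.coe_image, Set.mem_image] at hi
      obtain ⟨j, -, rfl⟩ := hi
      exact j.1.2) (1 / (((u.sup fun j => j.2 : ℕ) : ℝ) + 1)) (by positivity)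
    refine ⟨a, subset_closure ha, ?_⟩
    simp only [mem_iInter]
    intro j hj
    have h1 := ha' j.1.1 (Finset.mem_image.2 ⟨j, hj, rfl⟩)
    refine h1.le.trans ?_
    have h2 : j.2 ≤ u.sup fun j => j.2 := Finset.le_sup (f := fun j : I0 × ℕ => j.2) hj
    apply one_div_le_one_div_of_le (by positivity)
    have : ((j.2 : ℕ) : ℝ) ≤ ((u.sup fun j => j.2 : ℕ) : ℝ) := by exact_mod_cast h2
    linarith

variable {K L : Type} [TopologicalSpace K] [CompactSpace K] [TopologicalSpace L]
  [CompactSpace L] [T2Space L]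

/-- `e` is a separately continuous pairing and `K` separates the points of `L`. -/
structure IsPairing (e : K → L → ℝ) : Prop where
  left : ∀ l, Continuous (fun k => e k l)
  right : ∀ k, Continuous (e k)
  sep : ∀ y z, (∀ k, e k y = e k z) → y = z

/-- Good pairs. -/
structure Good (e : K → L → ℝ) (A : Set K) (B : Set L) : Prop where
  dA : ∀ (x : K) (F : Finset L), (↑F : Set L) ⊆ B → ∀ ε > 0, ∃ a ∈ A, ∀ b ∈ F, |e a b - e x b| < ε
  dB : ∀ (y : L) (F : Finset K), (↑F : Set K) ⊆ A → ∀ ε > 0, ∃ b ∈ B, ∀ a ∈ F, |e a b - e a y| < ε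

variable {e : K → L → ℝ} {A : Set K} {B : Set L}

lemma Good.sep (he : IsPairing e) (hg : Good e A B) {y z : L} (hy : y ∈ closure B)
    (hz : z ∈ closure B) (h : ∀ a ∈ A, e a y = e a z) : y = z := by
  refine he.sep y z fun x => ?_
  obtain ⟨x', hx', hxb⟩ := exists_agree (fun (l : L) (k : K) => e k l) he.left (fun l => e x l)
    A B (fun F hF ε hε => hg.dA x F hF ε hε)
  have h1 : ∀ w ∈ closure B, e x' w = e x w := by
    intro w hw
    have hc : IsClosed {w | e x' w = e x w} := isClosed_eq (he.right _) (he.right _)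
    exact closure_minimal (fun b hb => hxb b hb) hc hw
  have h2 : e x' y = e x' z := by
    have hc : IsClosed {k | e k y = e k z} := isClosed_eq (he.left _) (he.left _)
    exact closure_minimal (fun a ha => h a ha) hc hx'
  rw [← h1 y hy, ← h1 z hz, h2]

/-- The retraction of a good pair. -/
lemma Good.exists_retr (he : IsPairing e) (hg : Good e A B) :
    ∃ r : L → L, Continuous r ∧ (∀ l, r l ∈ closure B) ∧ ∀ a ∈ A, ∀ l, e a (r l) = e a l := by
  have h1 : ∀ l : L, ∃ y ∈ closure B, ∀ a ∈ A, e a y = e a l := by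
    intro l
    exact exists_agree (fun (k : K) (y : L) => e k y) he.right (fun k => e k l) B A
      (fun F hF ε hε => hg.dB l F hF ε hε)
  choose r hr hr' using h1
  refine ⟨r, ?_, hr, fun a ha l => hr' l a ha⟩
  have : CompactSpace (closure B) := isCompact_iff_compactSpace.1 isClosed_closure.isCompact
  let q : L → (A → ℝ) := fun l a => e a.1 l
  have hq : Continuous q := continuous_pi fun a => he.right _
  let q' : closure B → (A → ℝ) := fun l => q l.1
  have hq' : Continuous q' := hq.comp continuous_subtype_val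
  have hinj : Function.Injective q' := by
    intro y z hyz
    exact Subtype.ext (hg.sep he y.2 z.2 fun a ha => congrFun hyz ⟨a, ha⟩)
  have hemb : IsClosedEmbedding q' := hq'.isClosedEmbedding hinj
  let r' : L → closure B := fun l => ⟨r l, hr l⟩
  have hcr : Continuous r' := by
    rw [hemb.isInducing.continuous_iff]
    have : q' ∘ r' = q := by
      funext l a
      exact hr' l a.1 a.2
    rw [this]
    exact hq
  exact continuous_subtype_val.comp hcr


end good

/-! ### Hulls give good pairs; norm convergence along increasing unions -/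

section pairs


/-- Countable sets of witnesses. -/
lemma exists_wit {K I : Type} (g : I → K → ℝ) (F : Finset I) :
    ∃ W : Set K, W.Countable ∧ ∀ x : K, ∀ ε > 0, ∃ a ∈ W, ∀ i ∈ F, |g i a - g i x| < ε := by
  classical
  let u : K → (F → ℝ) := fun k i => g i.1 k
  have hsep : TopologicalSpace.IsSeparable (range u) :=
    (TopologicalSpace.isSeparable_univ_iff.2 inferInstance).mono (subset_univ _)
  obtain ⟨t, ht, htc, htd⟩ := hsep.exists_countable_dense_subset
  have h1 : ∀ y ∈ t, ∃ k, u k = y := fun y hy => ht hy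
  rcases isEmpty_or_nonempty K with hK | hK
  · exact ⟨∅, countable_empty, fun x => (hK.false x).elim⟩
  choose! v hv using h1
  refine ⟨v '' t, htc.image v, fun x ε hε => ?_⟩
  obtain ⟨y, hy, hxy⟩ := Metric.mem_closure_iff.1 (htd (mem_range_self x)) ε hε
  refine ⟨v y, mem_image_of_mem v hy, fun i hi => ?_⟩
  have h2 : dist (u x ⟨i, hi⟩) (y ⟨i, hi⟩) < ε := (dist_le_pi_dist (u x) y ⟨i, hi⟩).trans_lt hxy
  rw [← hv y hy, dist_comm, Real.dist_eq] at h2
  exact h2

variable {K L : Type} [TopologicalSpace K] [CompactSpace K] [TopologicalSpace L]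
  [CompactSpace L] [T2Space L]

/-- A witness operation for the pairing. -/
structure IsWit (e : K → L → ℝ) (W : Finset (K ⊕ L) → Set (K ⊕ L)) : Prop where
  countable : ∀ F, (W F).Countable
  left : ∀ (F : Finset L) (x : K), ∀ ε > 0, ∃ a, Sum.inl a ∈ W (F.map Function.Embedding.inr) ∧
    ∀ b ∈ F, |e a b - e x b| < ε
  right : ∀ (F : Finset K) (y : L), ∀ ε > 0, ∃ b, Sum.inr b ∈ W (F.map Function.Embedding.inl) ∧
    ∀ a ∈ F, |e a b - e a y| < ε

lemma exists_isWit (e : K → L → ℝ) : ∃ W, IsWit e W := by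
  classical
  choose W1 hc1 h1 using fun F : Finset L => exists_wit (fun (l : L) (k : K) => e k l) F
  choose W2 hc2 h2 using fun F : Finset K => exists_wit (fun (k : K) (l : L) => e k l) F
  refine ⟨fun F => Sum.inl '' W1 F.toRight ∪ Sum.inr '' W2 F.toLeft, ?_, ?_, ?_⟩
  · intro F
    exact ((hc1 _).image _).union ((hc2 _).image _)
  · intro F x ε hε
    obtain ⟨a, ha, ha'⟩ := h1 F x ε hε
    refine ⟨a, Or.inl ⟨a, ?_, rfl⟩, ha'⟩
    have : (F.map Function.Embedding.inr : Finset (K ⊕ L)).toRight = F := by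
      ext; simp
    rw [this]
    exact ha
  · intro F y ε hε
    obtain ⟨b, hb, hb'⟩ := h2 F y ε hε
    refine ⟨b, Or.inr ⟨b, ?_, rfl⟩, hb'⟩
    have : (F.map Function.Embedding.inl : Finset (K ⊕ L)).toLeft = F := by
      ext; simp
    rw [this]
    exact hb

/-- `A`-part of the hull -/
def HA (W : Finset (K ⊕ L) → Set (K ⊕ L)) (S : Set (K ⊕ L)) : Set K := {k | Hull W S (Sum.inl k)}

/-- `B`-part of the hull -/
def HB (W : Finset (K ⊕ L) → Set (K ⊕ L)) (S : Set (K ⊕ L)) : Set L := {l | Hull W S (Sum.inr l)}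

variable {e : K → L → ℝ} {W : Finset (K ⊕ L) → Set (K ⊕ L)}

lemma IsWit.good (hW : IsWit e W) (S : Set (K ⊕ L)) : Good e (HA W S) (HB W S) where
  dA := by
    intro x F hF ε hε
    obtain ⟨a, ha, ha'⟩ := hW.left F x ε hε
    refine ⟨a, Hull.step _ _ ?_ ha, ha'⟩
    intro y hy
    obtain ⟨b, hb, rfl⟩ := Finset.mem_map.1 hy
    exact hF hb
  dB := by
    intro y F hF ε hε
    obtain ⟨b, hb, hb'⟩ := hW.right F y ε hε
    refine ⟨b, Hull.step _ _ ?_ hb, hb'⟩
    intro z hz
    obtain ⟨a, ha, rfl⟩ := Finset.mem_map.1 hz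
    exact hF ha

lemma HB_mono {S T : Set (K ⊕ L)} (h : S ⊆ T) : HB W S ⊆ HB W T := fun _ hl => hl.mono h

lemma HA_mono {S T : Set (K ⊕ L)} (h : S ⊆ T) : HA W S ⊆ HA W T := fun _ hl => hl.mono h

lemma hull_iUnion {S : ℕ → Set (K ⊕ L)} (hS : Monotone S) {z : K ⊕ L}
    (hz : Hull W (⋃ n, S n) z) : ∃ n, Hull W (S n) z := by
  classical
  obtain ⟨F, hF, hz⟩ := hz.exists_finset
  have : ∀ y ∈ F, ∃ n, y ∈ S n := fun y hy => mem_iUnion.1 (hF hy)
  choose! n hn using this
  exact ⟨F.sup n, hz.mono fun y hy => hS (Finset.le_sup (f := n) hy) (hn y hy)⟩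

/-- Norm convergence along an increasing union. -/
lemma jump (he : IsPairing e) (hW : IsWit e W) {S : ℕ → Set (K ⊕ L)} (hS : Monotone S)
    (r : ℕ → L → L) (hr : ∀ n l, r n l ∈ closure (HB W (S n)))
    (hr' : ∀ n, ∀ a ∈ HA W (S n), ∀ l, e a (r n l) = e a l) (f : C(L, ℝ)) {δ : ℝ} (hδ : 0 < δ) :
    ∃ m, ∀ n ≥ m, ∀ l ∈ closure (HB W (⋃ n, S n)), |f l - f (r n l)| ≤ δ := by
  classical
  set C : Set L := closure (HB W (⋃ n, S n)) with hC
  have : CompactSpace C := isCompact_iff_compactSpace.1 isClosed_closure.isCompact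
  let 𝒜 : Subalgebra ℝ C(L, ℝ) :=
    { carrier := {g | ∃ m, ∀ n ≥ m, ∀ l, g (r n l) = g l}
      mul_mem' := by
        rintro g g' ⟨m, hm⟩ ⟨m', hm'⟩
        refine ⟨max m m', fun n hn l => ?_⟩
        simp only [ContinuousMap.mul_apply]
        rw [hm n (le_trans (le_max_left _ _) hn) l, hm' n (le_trans (le_max_right _ _) hn) l]
      add_mem' := by
        rintro g g' ⟨m, hm⟩ ⟨m', hm'⟩
        refine ⟨max m m', fun n hn l => ?_⟩
        simp only [ContinuousMap.add_apply]
        rw [hm n (le_trans (le_max_left _ _) hn) l, hm' n (le_trans (le_max_right _ _) hn) l]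
      algebraMap_mem' := by
        intro c
        exact ⟨0, fun n _ l => rfl⟩ }
  let ι : C(C, L) := ⟨Subtype.val, continuous_subtype_val⟩
  let R : C(L, ℝ) →ₐ[ℝ] C(C, ℝ) := ContinuousMap.compRightAlgHom ℝ ℝ ι
  have hsep : (𝒜.map R).SeparatesPoints := by
    intro y z hyz
    have h1 : ∃ a ∈ HA W (⋃ n, S n), e a y.1 ≠ e a z.1 := by
      by_contra hcon
      push Not at hcon
      exact hyz (Subtype.ext ((hW.good _).sep he y.2 z.2 hcon))
    obtain ⟨a, ha, hne⟩ := h1
    obtain ⟨m, hm⟩ := hull_iUnion hS ha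
    refine ⟨_, ⟨R ⟨e a, he.right a⟩, ⟨⟨e a, he.right a⟩, ?_, rfl⟩, rfl⟩, hne⟩
    refine ⟨m, fun n hn l => ?_⟩
    exact hr' n a (hm.mono (hS hn)) l
  obtain ⟨⟨g', g, ⟨m, hm⟩, rfl⟩, hg'⟩ :=
    ContinuousMap.exists_mem_subalgebra_near_continuousMap_of_separatesPoints (𝒜.map R) hsep (R f)
      (δ / 2) (by linarith)
  have hg : ∀ l ∈ C, |g l - f l| < δ / 2 := by
    intro l hl
    have h2 := (ContinuousMap.norm_coe_le_norm (R g - R f) ⟨l, hl⟩).trans_lt hg'
    simpa [R, ι] using h2
  refine ⟨m, fun n hn l hl => ?_⟩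
  have h3 := hg l hl
  have h4 : r n l ∈ C := closure_mono (HB_mono (subset_iUnion S n)) (hr n l)
  have h5 := hg _ h4
  rw [hm n hn l] at h5
  have h6 : f l - f (r n l) = (g l - f (r n l)) - (g l - f l) := by ring
  rw [h6]
  refine (abs_sub _ _).trans ?_
  linarith


end pairs

/-! ### The transfinite induction -/

section ind


variable {K L : Type} [TopologicalSpace K] [CompactSpace K] [TopologicalSpace L]
  [CompactSpace L] [T2Space L]

/-- Evaluation of a finite combination of point masses. -/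
noncomputable def ev {L : Type} (φ : L →₀ ℝ) (f : L → ℝ) : ℝ := φ.sum fun l c => c * f l

lemma ev_sub (φ : L →₀ ℝ) (f g : L → ℝ) : ev φ (fun l => f l - g l) = ev φ f - ev φ g := by
  unfold ev Finsupp.sum
  rw [← Finset.sum_sub_distrib]
  exact Finset.sum_congr rfl fun l _ => by ring

lemma ev_mapDomain (φ : L →₀ ℝ) (r : L → L) (f : L → ℝ) :
    ev (φ.mapDomain r) f = ev φ (fun l => f (r l)) := by
  unfold ev
  rw [Finsupp.sum_mapDomain_index]
  · intro l; simp
  · intro l a b; ring

lemma ev_sub_left (φ ψ : L →₀ ℝ) (f : L → ℝ) : ev (φ - ψ) f = ev φ f - ev ψ f := by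
  unfold ev
  rw [Finsupp.sum_sub_index]
  intro l a b; ring

lemma ev_smul_left (c : ℝ) (φ : L →₀ ℝ) (f : L → ℝ) : ev (c • φ) f = c * ev φ f := by
  unfold ev
  rw [Finsupp.sum_smul_index]
  · unfold Finsupp.sum
    rw [Finset.mul_sum]
    exact Finset.sum_congr rfl fun l _ => by ring
  · intro l; simp

/-- A system of finite combinations of point masses which is bounded, `c₀` and total on the
closure of `B`. -/
structure IsSys {L : Type} [TopologicalSpace L] (B : Set L) {G : Type} (φ : G → (L →₀ ℝ)) :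
    Prop where
  bd : ∀ (f : C(L, ℝ)) (c : ℝ), 0 ≤ c → (∀ l ∈ closure B, |f l| ≤ c) → ∀ g, |ev (φ g) f| ≤ c
  c0 : ∀ (f : C(L, ℝ)) (ε : ℝ), 0 < ε → {g | ε ≤ |ev (φ g) f|}.Finite
  inj : ∀ f : C(L, ℝ), (∀ g, ev (φ g) f = 0) → ∀ l ∈ closure B, f l = 0

lemma isSys_countable {B : Set L} (hB : B.Countable) :
    ∃ (G : Type) (φ : G → (L →₀ ℝ)), IsSys B φ := by
  have := hB.to_subtype
  obtain ⟨enc, henc⟩ := exists_injective_nat B
  have hev : ∀ (b : B) (f : L → ℝ), ev (Finsupp.single b.1 (1 / ((enc b : ℝ) + 1))) f =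
      f b.1 / ((enc b : ℝ) + 1) := by
    intro b f
    unfold ev
    rw [Finsupp.sum_single_index (by simp)]
    ring
  refine ⟨B, fun b => Finsupp.single b.1 (1 / ((enc b : ℝ) + 1)), ⟨?_, ?_, ?_⟩⟩
  · intro f c hc hf b
    rw [hev, abs_div]
    have h1 : (1 : ℝ) ≤ |(enc b : ℝ) + 1| := by
      rw [abs_of_nonneg (by positivity)]
      have : (0 : ℝ) ≤ enc b := by positivity
      linarith
    calc |f b.1| / |(enc b : ℝ) + 1| ≤ |f b.1| := div_le_self (abs_nonneg _) h1
      _ ≤ c := hf _ (subset_closure b.2)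
  · intro f ε hε
    have hM : ∀ l, |f l| ≤ ‖f‖ := fun l => f.norm_coe_le_norm l
    refine ((Set.finite_le_nat ⌊‖f‖ / ε⌋₊).preimage henc.injOn).subset ?_
    intro b hb
    simp only [mem_ofPred_eq] at hb
    rw [hev, abs_div, abs_of_nonneg (show (0 : ℝ) ≤ (enc b : ℝ) + 1 by positivity)] at hb
    simp only [mem_preimage, mem_ofPred_eq]
    apply Nat.le_floor
    rw [le_div_iff₀ hε]
    rw [le_div_iff₀ (by positivity)] at hb
    nlinarith [hM b.1, (show (0 : ℝ) ≤ enc b by positivity)]
  · intro f hf l hl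
    have hc : IsClosed {l | f l = 0} := isClosed_eq f.continuous continuous_const
    refine closure_minimal (fun b hb => ?_) hc hl
    have h := hf ⟨b, hb⟩
    rw [hev, div_eq_zero_iff] at h
    rcases h with h | h
    · exact h
    · exact absurd h (by positivity)

variable {e : K → L → ℝ} {W : Finset (K ⊕ L) → Set (K ⊕ L)}

/-- The jumps along an increasing transfinite sequence are finite in number. -/
lemma finite_jumps (he : IsPairing e) (hW : IsWit e W) {I : Type} [LinearOrder I]
    [WellFoundedLT I] (D : I → Set (K ⊕ L)) (D' : I → Set (K ⊕ L)) (hD : Monotone D)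
    (hDD' : ∀ i j, i < j → D' i ⊆ D j) (r : I → L → L)
    (hr : ∀ i l, r i l ∈ closure (HB W (D i)))
    (hr' : ∀ i, ∀ a ∈ HA W (D i), ∀ l, e a (r i l) = e a l) (f : C(L, ℝ)) {ε : ℝ} (hε : 0 < ε) :
    {i | ¬ ∀ l ∈ closure (HB W (D' i)), |f l - f (r i l)| ≤ ε}.Finite := by
  classical
  by_contra hinf
  have hinf' : {i | ¬ ∀ l ∈ closure (HB W (D' i)), |f l - f (r i l)| ≤ ε}.Infinite := hinf
  let u := hinf'.natEmbedding
  obtain ⟨g, hg⟩ := exists_increasing_or_nonincreasing_subseq (· < ·) (fun n => (u n).1)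
  have hlt : ∀ m n, m < n → (u (g m)).1 < (u (g n)).1 := by
    rcases hg with hg | hg
    · exact hg
    · exfalso
      have h1 : ∀ m n, m < n → (u (g n)).1 < (u (g m)).1 := by
        intro m n hmn
        refine lt_of_le_of_ne (not_lt.1 (hg m n hmn)) fun heq => ?_
        have h2 : u (g n) = u (g m) := Subtype.ext heq
        have h3 := g.injective (u.injective h2)
        omega
      obtain ⟨m, ⟨n, rfl⟩, hm⟩ := WellFounded.has_min (wellFounded_lt (α := I))
        (range fun n => (u (g n)).1) ⟨_, mem_range_self 0⟩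
      exact hm _ (mem_range_self (n + 1)) (h1 n (n + 1) (Nat.lt_succ_self n))
  have hmono : Monotone fun n => D (u (g n)).1 :=
    monotone_nat_of_le_succ fun n => hD (hlt n (n + 1) (Nat.lt_succ_self n)).le
  obtain ⟨m, hm⟩ := jump he hW hmono (fun n => r (u (g n)).1) (fun n l => hr _ l)
    (fun n a ha l => hr' _ a ha l) f hε
  refine (u (g m)).2 fun l hl => hm m le_rfl l ?_
  have h1 : HB W (D' (u (g m)).1) ⊆ HB W (⋃ n, D (u (g n)).1) := by
    refine HB_mono ((hDD' _ _ (hlt m (m + 1) (Nat.lt_succ_self m))).trans ?_)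
    exact subset_iUnion (fun n => D (u (g n)).1) (m + 1)
  exact closure_mono h1 hl

lemma isSys_step (he : IsPairing e) (hW : IsWit e W) {I : Type} [LinearOrder I]
    [WellFoundedLT I] (s : I → K ⊕ L) (ih : ∀ i, ∃ (G : Type) (φ : G → (L →₀ ℝ)),
      IsSys (HB W (s '' Iic i)) φ) (ih0 : ∃ (G : Type) (φ : G → (L →₀ ℝ)), IsSys (HB W ∅) φ)
    (hI : ∀ F : Finset I, F.Nonempty → ∃ i ∈ F, ∀ j ∈ F, j ≤ i) :
    ∃ (G : Type) (φ : G → (L →₀ ℝ)), IsSys (HB W (range s)) φ := by
  classical
  choose G φ hφ using ih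
  obtain ⟨G0, φ0, hφ0⟩ := ih0
  choose r hrc hr hr' using fun i : I => (hW.good (s '' Iio i)).exists_retr he
  have hfin : ∀ (T : Set I) (l : L), l ∈ HB W (s '' T) → l ∈ HB W ∅ ∨ ∃ i ∈ T,
      l ∈ HB W (s '' Iic i) := by
    intro T l hl
    obtain ⟨F, hF, hl'⟩ := Hull.exists_finset hl
    have h1 : ∀ y ∈ F, ∃ i ∈ T, s i = y := fun y hy => hF hy
    rcases F.eq_empty_or_nonempty with rfl | hne
    · left
      simpa [HB] using hl'
    · right
      have hne' : Nonempty I := ⟨(h1 _ hne.choose_spec).choose⟩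
      choose! v hvT hv using h1
      obtain ⟨i, hi, hmax⟩ := hI (F.image v) (hne.image v)
      obtain ⟨y, hy, rfl⟩ := Finset.mem_image.1 hi
      refine ⟨v y, hvT y hy, hl'.mono fun z hz => ?_⟩
      exact ⟨v z, hmax _ (Finset.mem_image_of_mem v hz), hv z hz⟩
  let fr : I → C(L, ℝ) → C(L, ℝ) := fun i f =>
    ⟨fun l => f l - f (r i l), f.continuous.sub (f.continuous.comp (hrc i))⟩
  let ψ : G0 ⊕ (Σ i, G i) → (L →₀ ℝ) := Sum.elim φ0
    (fun z => (1 / 2 : ℝ) • (φ z.1 z.2 - (φ z.1 z.2).mapDomain (r z.1)))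
  have hψ : ∀ (i : I) (g : G i) (f : C(L, ℝ)), ev (ψ (Sum.inr ⟨i, g⟩)) f =
      (1 / 2) * ev (φ i g) (fr i f) := by
    intro i g f
    show ev ((1 / 2 : ℝ) • (φ i g - (φ i g).mapDomain (r i))) f = _
    rw [ev_smul_left, ev_sub_left, ev_mapDomain, ← ev_sub]
    rfl
  have hsub : ∀ i, s '' Iic i ⊆ range s := fun i => image_subset_range s _
  refine ⟨G0 ⊕ (Σ i, G i), ψ, ⟨?_, ?_, ?_⟩⟩
  · rintro f c hc hf (g | ⟨i, g⟩)
    · exact hφ0.bd f c hc (fun l hl => hf l (closure_mono (HB_mono (empty_subset _)) hl)) g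
    · rw [hψ, abs_mul, abs_of_pos (by norm_num : (0 : ℝ) < 1 / 2)]
      have h1 := (hφ i).bd (fr i f) (2 * c) (by positivity) (fun l hl => ?_) g
      · linarith
      · have h2 := hf l (closure_mono (HB_mono (hsub i)) hl)
        have h3 : r i l ∈ closure (HB W (range s)) :=
          closure_mono (HB_mono (image_subset_range s _)) (hr i l)
        have h4 := hf _ h3
        show |f l - f (r i l)| ≤ 2 * c
        refine (abs_sub _ _).trans ?_
        linarith
  · intro f ε hε
    have hJ := finite_jumps he hW (fun i => s '' Iio i) (fun i => s '' Iic i)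
      (fun i j hij => image_mono (Iio_subset_Iio hij))
      (fun i j hij => image_mono fun k hk => (le_trans hk le_rfl).trans_lt hij) r hr hr' f hε
    set J := {i | ¬ ∀ l ∈ closure (HB W (s '' Iic i)), |f l - f (r i l)| ≤ ε} with hJdef
    have hsubs : {g | ε ≤ |ev (ψ g) f|} ⊆ Sum.inl '' {g | ε ≤ |ev (φ0 g) f|} ∪
        ⋃ i ∈ J, (fun g : G i => (Sum.inr ⟨i, g⟩ : G0 ⊕ (Σ i, G i))) ''
          {g | 2 * ε ≤ |ev (φ i g) (fr i f)|} := by
      rintro (g | ⟨i, g⟩) hg
      · exact Or.inl ⟨g, hg, rfl⟩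
      · right
        simp only [mem_ofPred_eq] at hg
        rw [hψ, abs_mul, abs_of_pos (by norm_num : (0 : ℝ) < 1 / 2)] at hg
        have h2 : 2 * ε ≤ |ev (φ i g) (fr i f)| := by linarith
        have hi : i ∈ J := by
          intro hcon
          have h3 := (hφ i).bd (fr i f) ε hε.le hcon g
          linarith
        exact mem_biUnion hi ⟨g, h2, rfl⟩
    refine Set.Finite.subset ?_ hsubs
    refine ((hφ0.c0 f ε hε).image _).union (hJ.biUnion fun i _ => ?_)
    exact ((hφ i).c0 (fr i f) (2 * ε) (by positivity)).image _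
  · intro f hf
    have h0 : ∀ l ∈ closure (HB W (∅ : Set (K ⊕ L))), f l = 0 :=
      hφ0.inj f fun g => hf (Sum.inl g)
    have hcl : IsClosed {l | f l = 0} := isClosed_eq f.continuous continuous_const
    have h1 : ∀ i, ∀ l ∈ closure (HB W (s '' Iic i)), f l = f (r i l) := by
      intro i l hl
      have h2 := (hφ i).inj (fr i f) (fun g => ?_) l hl
      · have h3 : f l - f (r i l) = 0 := h2
        linarith
      · have h4 := hf (Sum.inr ⟨i, g⟩)
        rw [hψ] at h4
        linarith
    have h2 : ∀ i, ∀ l ∈ closure (HB W (s '' Iic i)), f l = 0 := by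
      intro i
      induction i using WellFoundedLT.induction with
      | ind i IH =>
        intro l hl
        rw [h1 i l hl]
        refine closure_minimal (fun b hb => ?_) hcl (hr i l)
        rcases hfin _ b hb with h | ⟨j, hj, h⟩
        · exact h0 b (subset_closure h)
        · exact IH j hj b (subset_closure h)
    intro l hl
    refine closure_minimal (fun b hb => ?_) hcl hl
    rw [← image_univ] at hb
    rcases hfin _ b hb with h | ⟨j, _, h⟩
    · exact h0 b (subset_closure h)
    · exact h2 j b (subset_closure h)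

theorem isSys_all (he : IsPairing e) (hW : IsWit e W) (S : Set (K ⊕ L)) :
    ∃ (G : Type) (φ : G → (L →₀ ℝ)), IsSys (HB W S) φ := by
  have key : ∀ (c : Cardinal.{0}) (S : Set (K ⊕ L)), #S = c →
      ∃ (G : Type) (φ : G → (L →₀ ℝ)), IsSys (HB W S) φ := by
    intro c
    induction c using WellFoundedLT.induction with
    | ind c IH =>
      intro S hS
      rcases le_or_gt c ℵ₀ with hc | hc
      · have h1 : S.Countable := by
          rw [← Cardinal.le_aleph0_iff_set_countable, hS]
          exact hc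
        have h2 := countable_hull hW.countable h1
        exact isSys_countable (h2.preimage Sum.inr_injective)
      · have hcard : #(#S).ord.ToType = #S := Cardinal.mk_ord_toType _
        obtain ⟨eq⟩ := Cardinal.eq.1 hcard
        have hIio : ∀ i : (#S).ord.ToType, #(Iio i) < c := by
          intro i
          rw [← hS]
          exact Cardinal.mk_Iio_toType_ord_lt i
        have hIic : ∀ i : (#S).ord.ToType, #(Iic i) < c := by
          intro i
          have h1 : Iic i = insert i (Iio i) := by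
            ext j
            simp [le_iff_eq_or_lt]
          rw [h1]
          refine (Cardinal.mk_insert_le).trans_lt ?_
          exact Cardinal.add_lt_of_lt hc.le (hIio i) (Cardinal.one_lt_aleph0.trans hc)
        have hr : range (fun i => (eq i).1) = S := by
          ext z
          constructor
          · rintro ⟨i, rfl⟩
            exact (eq i).2
          · intro hz
            exact ⟨eq.symm ⟨z, hz⟩, by simp⟩
        rw [← hr]
        refine isSys_step he hW (fun i => (eq i).1) (fun i => ?_) ?_ ?_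
        · exact IH _ (Cardinal.mk_image_le.trans_lt (hIic i)) _ rfl
        · refine IH _ ?_ ∅ rfl
          rw [Cardinal.mk_emptyCollection]
          exact Cardinal.aleph0_pos.trans hc
        · intro F hF
          exact ⟨F.max' hF, F.max'_mem hF, fun j hj => F.le_max' j hj⟩
  exact key _ S rfl


end ind

/-! ### The theorem -/

/-- Amir-Lindenstrauss: the points of a compact space `K` which is mapped injectively and
continuously into a normed space with its weak topology are separated by a family `h` of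
continuous functions such that `h g k` is `c₀` in `g` for every `k`. -/
theorem AL {K : Type} [TopologicalSpace K] [CompactSpace K] {X : Type} [NormedAddCommGroup X]
    [NormedSpace ℝ X] (e : K → WeakSpace ℝ X) (he : Continuous e)
    (hinj : Function.Injective e) :
    ∃ (G : Type) (h : G → C(K, ℝ)), (∀ k k', (∀ g, h g k = h g k') → k = k') ∧
      ∀ k, ∀ ε > 0, {g | ε ≤ |h g k|}.Finite := by
  classical
  let u : K → X := fun k => (toWeakSpace ℝ X).symm (e k)
  have hu : ∀ φ : X →L[ℝ] ℝ, Continuous fun k => φ (u k) := fun φ =>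
    (WeakBilin.eval_continuous (topDualPairing ℝ X).flip φ).comp he
  have huinj : Function.Injective u := fun k k' h => hinj ((toWeakSpace ℝ X).symm.injective h)
  let S : Set (WeakDual ℝ X) := WeakDual.toStrongDual ⁻¹' Metric.closedBall 0 1
  have hS : IsCompact S := WeakDual.isCompact_closedBall 0 1
  let Ψ : WeakDual ℝ X → (K → ℝ) := fun φ k => φ (u k)
  have hΨ : Continuous Ψ := continuous_pi fun k => WeakDual.eval_continuous (u k)
  let L := Ψ '' S
  have hL : CompactSpace L := isCompact_iff_compactSpace.1 (hS.image hΨ)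
  let e' : K → L → ℝ := fun k l => l.1 k
  have he' : IsPairing e' := by
    refine ⟨?_, ?_, ?_⟩
    · rintro ⟨-, φ, -, rfl⟩
      exact hu (WeakDual.toStrongDual φ)
    · intro k
      exact (continuous_apply k).comp continuous_subtype_val
    · intro y z h
      exact Subtype.ext (funext h)
  obtain ⟨W, hW⟩ := exists_isWit e'
  obtain ⟨G, φ, hφ⟩ := isSys_all he' hW Set.univ
  have huniv : closure (HB W (Set.univ : Set (K ⊕ L))) = Set.univ := by
    refine Set.eq_univ_of_univ_subset (subset_closure.trans' fun l _ => ?_)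
    exact Hull.base _ (Set.mem_univ _)
  refine ⟨G, fun g => ⟨fun k => ev (φ g) (e' k), ?_⟩, ?_, ?_⟩
  · unfold ev Finsupp.sum
    exact continuous_finsetSum _ fun l _ => continuous_const.mul (he'.left l)
  · intro k k' h
    let f : C(L, ℝ) := ⟨fun l => e' k l - e' k' l, (he'.right k).sub (he'.right k')⟩
    have h1 : ∀ l, f l = 0 := by
      intro l
      refine hφ.inj f (fun g => ?_) l (by rw [huniv]; exact Set.mem_univ l)
      show ev (φ g) (fun l => e' k l - e' k' l) = 0
      rw [ev_sub]
      have h2 := h g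
      exact sub_eq_zero.2 h2
    by_contra hne
    have h3 : u k - u k' ≠ 0 := sub_ne_zero.2 fun h => hne (huinj h)
    obtain ⟨ψ, hψ1, hψ2⟩ := exists_dual_vector ℝ (u k - u k') (norm_ne_zero_iff.2 h3)
    have h4 := h1 ⟨Ψ (StrongDual.toWeakDual ψ), _, ?_, rfl⟩
    · have h5 : ψ (u k) - ψ (u k') = 0 := h4
      rw [← map_sub, hψ2] at h5
      exact h3 (norm_eq_zero.1 (by exact_mod_cast h5))
    · show WeakDual.toStrongDual (StrongDual.toWeakDual ψ) ∈ Metric.closedBall 0 1
      rw [mem_closedBall_zero_iff]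
      exact hψ1.le
  · intro k ε hε
    exact hφ.c0 ⟨e' k, he'.right k⟩ ε hε

end Pool.Agent.EB
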