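import Pool.Agent.Lib.EB.Defs
import Pool.Agent.Lib.MP_ad72f3_pc.Pat

/-!
# MP_9f8c44_an: the interface between the ZFC part, the V-side and the N-side

* `MCFT` the combinatorial principle (for types);
* `MCFV V` the principle in the transitive set `V`;
* `VSide P` the property of the forcing notion `P` which is proved on the V-side and used on the
  N-side.
-/

set_option autoImplicit false

open Set

namespace Pool.Agent.EB

open Pool.PC

/-- The sequences which agree with `s` up to `m`. -/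
def cyl (s : ℕ → Bool) (m : ℕ) : Set (ℕ → Bool) := {z | ∀ i < m, z i = s i}

/-- The coin tossing measure of `W` is at least `1 / 2`. -/
def Big (W : Set (ℕ → Bool)) : Prop := (1 / 2 : ENNReal) ≤ coin W

/-- The principle: for every set `F` of finite subsets of `G`, either `G` is the union of sets
`R 0`, `R 1`, ... such that every `A ∈ F` has at most `n` elements in `R n`, or there are a subset
`X` of `G` and an injection `t` of `X` into `2^ℕ` such that for every `m : X → ℕ` there is `A ∈ F`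
contained in `X` such that the cylinders of `t x | m x`, `x ∈ A`, have a union of measure at least
`1/2`. -/
def MCFT : Prop := ∀ (G : Type) (F : Set (Finset G)),
  (∃ R : ℕ → Set G, (∀ x, ∃ n, x ∈ R n) ∧ ∀ n, ∀ A ∈ F, {x | x ∈ A ∧ x ∈ R n}.ncard ≤ n) ∨
    ∃ (X : Set G) (t : G → ℕ → Bool), Set.InjOn t X ∧
      ∀ m : G → ℕ, ∃ A ∈ F, (A : Set G) ⊆ X ∧ Big {z | ∃ x ∈ A, z ∈ cyl (t x) (m x)}

open Classical in
/-- The real `{n | (n, x) ∈ t}`. -/
noncomputable def bits (t x : ZFSet.{0}) : ℕ → Bool := fun n => decide (ZFSet.pair (num n) x ∈ t)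

/-- The principle in the transitive set `V`. The set `R` is a countable cover of `G`
(`(n, x) ∈ R`); `t` is a map of `X` into the reals (`t(x) = {n | (n, x) ∈ t}`). -/
def MCFV (V : Set ZFSet.{0}) : Prop :=
  ∀ G ∈ V, ∀ F ∈ V, (∀ A ∈ F, A ⊆ G ∧ {x | x ∈ A}.Finite) →
    (∃ R ∈ V, (∀ x ∈ G, ∃ n, ZFSet.pair (num n) x ∈ R) ∧
        ∀ n, ∀ A ∈ F, {x | x ∈ A ∧ ZFSet.pair (num n) x ∈ R}.ncard ≤ n) ∨
      ∃ X ∈ V, ∃ t ∈ V, X ⊆ G ∧ (∀ x ∈ X, ∀ y ∈ X, bits t x = bits t y → x = y) ∧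
        ∀ m ∈ V, FunOn m X → (∀ x ∈ X, ∃ n, ZFSet.pair x (num n) ∈ m) →
          ∃ A ∈ F, A ⊆ X ∧ Big {z | ∃ x ∈ A, ∃ n, ZFSet.pair x (num n) ∈ m ∧ z ∈ cyl (bits t x) n}

section
variable {P : Type 1} [Preorder P]

/-- `s` decides the truth value of the lower set `B` as `b`. -/
def Dec (B : LowerSet P) (s : P) (b : Bool) : Prop :=
  (b = true ∧ s ∈ B) ∨ (b = false ∧ ∀ s' ≤ s, s' ∉ B)

/-- Below `q` the names `B x` (`s ∈ B x n` means that `s` forces `n ∈ t(x)`), `x ∈ X`, are a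
witness for the second alternative for the family with truth values `Φ`. -/
structure IsPhi {S : Type} (Φ : Finset S → LowerSet P) (q : P) (X : Set S)
    (B : S → ℕ → LowerSet P) : Prop where
  inj : ∀ x ∈ X, ∀ y ∈ X, x ≠ y → ∀ r ≤ q, ∃ s ≤ r, ∃ n b, Dec (B x n) s b ∧ Dec (B y n) s (!b)
  big : ∀ r ≤ q, ∀ M : S → ℕ → LowerSet P, (∀ x ∈ X, ∀ r' ≤ r, ∃ s ≤ r', ∃ n, s ∈ M x n) →
    ∃ s ≤ r, ∃ A : Finset S, (A : Set S) ⊆ X ∧ s ∈ Φ A ∧
      ∃ (m : S → ℕ) (σ : S → ℕ → Bool), (∀ x ∈ A, s ∈ M x (m x) ∧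
        ∀ n < m x, Dec (B x n) s (σ x n)) ∧ Big {z | ∃ x ∈ A, z ∈ cyl (σ x) (m x)}

/-- Below `q` the names `D x` (`s ∈ D x n` means that `s` forces `x ∈ R n`) are a witness for the
first alternative. -/
structure IsSig {S : Type} (Φ : Finset S → LowerSet P) (q : P)
    (D : S → ℕ → LowerSet P) : Prop where
  cov : ∀ x, ∀ r ≤ q, ∃ s ≤ r, ∃ n, s ∈ D x n
  bdd : ∀ s ≤ q, ∀ A, s ∈ Φ A → ∀ A' ⊆ A, ∀ n, (∀ x ∈ A', s ∈ D x n) → A'.card ≤ n

variable (P) in
/-- The V-side theorem. -/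
def VSide : Prop := ∀ (S : Type) (Φ : Finset S → LowerSet P) (p : P),
  (∃ q ≤ p, ∃ X B, IsPhi Φ q X B) ∨ ∃ q ≤ p, ∃ D, IsSig Φ q D

end

end Pool.Agent.EB
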