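import Pool.Agent.Lib.EB.VSupp
import Pool.Agent.Lib.EB.Iface

/-!
# `Big` and `Covers`
-/

set_option autoImplicit false

open MeasureTheory Set

namespace Pool.Agent.EB

open Classical in
/-- The set of strings of length `N`. -/
noncomputable def strs {G : Type*} (A : Finset G) (t : G → ℕ → Bool) (m : G → ℕ) (N : ℕ) :
    Finset (Fin N → Bool) :=
  Finset.univ.filter fun s => ∃ x ∈ A, ∀ i : Fin N, (i : ℕ) < m x → (s i = true ↔ t x i = true)

lemma card_strs {G : Type*} (A : Finset G) (t : G → ℕ → Bool) (m : G → ℕ) (N : ℕ) :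
    Nat.card {s : Fin N → Bool // ∃ x ∈ A, ∀ i : Fin N, (i : ℕ) < m x →
      (s i = true ↔ t x i = true)} = (strs A t m N).card := by
  classical
  rw [Nat.card_eq_fintype_card, Fintype.card_subtype]
  unfold strs
  congr 1

lemma preimage_strs {G : Type*} (A : Finset G) (t : G → ℕ → Bool) (m : G → ℕ) (N : ℕ)
    (hN : ∀ x ∈ A, m x ≤ N) :
    {z | ∃ x ∈ A, z ∈ cyl (t x) (m x)} = {z | res N z ∈ strs A t m N} := by
  classical
  ext z
  simp only [strs, cyl, res, Set.mem_ofPred_eq, Finset.mem_filter, Finset.mem_univ, true_and]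
  refine exists_congr fun x => and_congr_right fun hx => ?_
  constructor
  · intro h i hi
    rw [h i hi]
  · intro h i hi
    have h1 := h ⟨i, hi.trans_le (hN x hx)⟩ hi
    simp only at h1
    cases h2 : z i <;> cases h3 : t x i <;> simp_all

lemma big_iff {G : Type*} (A : Finset G) (t : G → ℕ → Bool) (m : G → ℕ) (N : ℕ)
    (hN : ∀ x ∈ A, m x ≤ N) :
    Big {z | ∃ x ∈ A, z ∈ cyl (t x) (m x)} ↔ 2 ^ N ≤ 2 * (strs A t m N).card := by
  unfold Big
  rw [preimage_strs A t m N hN, coin_res]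
  have h2 : (2 : ENNReal) ^ N ≠ 0 := by positivity
  have h2' : (2 : ENNReal) ^ N ≠ ⊤ := by finiteness
  rw [ENNReal.le_div_iff_mul_le (Or.inl h2) (Or.inl h2')]
  rw [one_div, ← ENNReal.div_eq_inv_mul, ENNReal.div_le_iff_le_mul (by norm_num) (by norm_num)]
  rw [mul_comm]
  exact_mod_cast Iff.rfl

theorem covers_iff_big {G : Type*} (A : Finset G) (t : G → ℕ → Bool) (m : G → ℕ) :
    Covers A (fun x n => t x n = true) m ↔ Big {z | ∃ x ∈ A, z ∈ cyl (t x) (m x)} := by
  constructor
  · rintro ⟨N, hN, h⟩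
    rw [big_iff A t m N hN, ← card_strs]
    exact h
  · intro h
    have hN : ∀ x ∈ A, m x ≤ A.sup m := fun x hx => Finset.le_sup hx
    refine ⟨A.sup m, hN, ?_⟩
    rw [big_iff A t m _ hN, ← card_strs] at h
    exact h

end Pool.Agent.EB
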