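import Mathlib

/-!
# MP_9f8c44: definitions

`IsOmegaOneStronglyCompact` is the large cardinal hypothesis, `Om J` the product of `J` copies of
the Cantor space with the coin tossing measure `mu J`.
-/

set_option autoImplicit false

open MeasureTheory Cardinal Set

namespace Pool.Agent.EB

/-- The binary strings which are the initial segments of length `d x` of `r x`, `x ∈ A`, have total
measure at least `1/2`: for some `L`, at least half of the strings of length `L` extend one of
them. -/
def Covers {G : Type*} (A : Finset G) (r : G → ℕ → Prop) (d : G → ℕ) : Prop :=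
  ∃ L : ℕ, (∀ x ∈ A, d x ≤ L) ∧
    2 ^ L ≤ 2 * Nat.card {s : Fin L → Bool //
      ∃ x ∈ A, ∀ i : Fin L, (i : ℕ) < d x → (s i = true ↔ r x i)}

/-- `κ` is uncountable and `ω₁`-strongly compact: for every set `L` there is a countably complete
fine ultrafilter on `P_κ(L)`. -/
def IsOmegaOneStronglyCompact (κ : Cardinal.{0}) : Prop :=
  ℵ₀ < κ ∧ ∀ L : Type, ∃ U : Ultrafilter {X : Set L // #X < κ},
    (∀ s : ℕ → Set {X : Set L // #X < κ}, (∀ n, s n ∈ U) → ⋂ n, s n ∈ U) ∧
      ∀ x : L, {X : {X : Set L // #X < κ} | x ∈ X.1} ∈ U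

/-- The product of `J` copies of the Cantor space. -/
abbrev Om (J : Type) : Type := J → ℕ → Bool

/-- A fair coin. -/
noncomputable def fair : Measure Bool := (PMF.uniformOfFintype Bool).toMeasure

instance : IsProbabilityMeasure fair := by unfold fair; infer_instance

/-- The coin tossing measure on the Cantor space. -/
noncomputable def coin : Measure (ℕ → Bool) := Measure.infinitePi fun _ => fair

instance : IsProbabilityMeasure coin := by unfold coin; infer_instance

/-- The coin tossing measure. -/
noncomputable def mu (J : Type) : Measure (Om J) := Measure.infinitePi fun _ => coin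

instance (J : Type) : IsProbabilityMeasure (mu J) := by unfold mu; infer_instance

/-- The condition `q` forces that the family named by `Fh` is sigma-bounded. -/
def SigV {J L : Type} (q : Set (Om J)) (Fh : Finset L → Set (Om J)) : Prop :=
  ∃ e : L → Om J → ℕ, (∀ l, Measurable (e l)) ∧
    ∀ (A : Finset L) (n : ℕ), ∀ᵐ ω ∂(mu J), ω ∈ q → ω ∈ Fh A → (A.filter fun l => e l ω = n).card ≤ n

/-- The condition `q` forces that the coordinates `i x`, `x ∈ X`, witness the second half of the
dichotomy for the family named by `Fh`. -/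
def PhiV {J L : Type} (q : Set (Om J)) (Fh : Finset L → Set (Om J)) : Prop :=
  ∃ (X : Set L) (i : L → J), InjOn i X ∧
    ∀ q' : Set (Om J), MeasurableSet q' → mu J q' ≠ 0 → q' ⊆ q →
      ∀ d : L → Om J → ℕ, (∀ l, Measurable (d l)) →
        ∃ (A : Finset L) (q'' : Set (Om J)), ↑A ⊆ X ∧ MeasurableSet q'' ∧ mu J q'' ≠ 0 ∧ q'' ⊆ q' ∧
          ∀ ω ∈ q'', ω ∈ Fh A ∧ Covers A (fun l n => ω (i l) n = true) (fun l => d l ω)

end Pool.Agent.EB
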