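import Pool.Agent.Lib.EB.Defs
import Pool.Agent.Lib.MP_9f8c44_an.Forward

/-!
# Row H3: the function built from the second half of the dichotomy is not McShane integrable.
-/

set_option autoImplicit false

open MeasureTheory Set

namespace Pool.Agent.EB

open Pool.Agent.Lib.MP_9f8c44_an

open Classical in
/-- The binary digits given by a predicate. -/
noncomputable def HMc_dgt (x : ℕ → Prop) : ℕ → Fin 2 := fun i => if x i then 1 else 0

/-- The real number with the given binary digits. -/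
noncomputable def HMc_beta (x : ℕ → Prop) : ℝ := Real.ofDigits (HMc_dgt x)

lemma HMc_dgt_congr {x y : ℕ → Prop} {i : ℕ} (h : x i ↔ y i) : HMc_dgt x i = HMc_dgt y i := by
  unfold HMc_dgt
  by_cases hx : x i
  · simp [hx, h.1 hx]
  · simp [hx, mt h.2 hx]

lemma HMc_beta_nonneg (x : ℕ → Prop) : 0 ≤ HMc_beta x := Real.ofDigits_nonneg _

lemma HMc_beta_le_one (x : ℕ → Prop) : HMc_beta x ≤ 1 := Real.ofDigits_le_one _

lemma HMc_split (x : ℕ → Prop) (n : ℕ) :
    HMc_beta x = (∑ i ∈ Finset.range n, Real.ofDigitsTerm (HMc_dgt x) i) +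
      ((2 : ℝ) ^ (n + 1))⁻¹ * (((HMc_dgt x n : Fin 2) : ℕ) + HMc_beta fun i => x (i + (n + 1))) := by
  unfold HMc_beta
  rw [Real.ofDigits_eq_sum_add_ofDigits _ (n + 1), Finset.sum_range_succ, Real.ofDigitsTerm]
  have : (fun i => HMc_dgt x (i + (n + 1))) = HMc_dgt fun i => x (i + (n + 1)) := rfl
  rw [this]
  push_cast
  ring

lemma HMc_cmp (x y : ℕ → Prop) (n : ℕ) (h : ∀ i < n, x i ↔ y i) (hx : x n) (hy : ¬ y n) :
    HMc_beta x - HMc_beta y = ((2 : ℝ) ^ (n + 1))⁻¹ *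
      (1 + (HMc_beta fun i => x (i + (n + 1))) - HMc_beta fun i => y (i + (n + 1))) := by
  rw [HMc_split x n, HMc_split y n]
  have h1 : ∑ i ∈ Finset.range n, Real.ofDigitsTerm (HMc_dgt x) i =
      ∑ i ∈ Finset.range n, Real.ofDigitsTerm (HMc_dgt y) i := by
    refine Finset.sum_congr rfl fun i hi => ?_
    have : HMc_dgt x i = HMc_dgt y i := HMc_dgt_congr (h i (Finset.mem_range.1 hi))
    rw [Real.ofDigitsTerm, Real.ofDigitsTerm, this]
  have h2 : ((HMc_dgt x n : Fin 2) : ℕ) = 1 := by simp [HMc_dgt, hx]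
  have h3 : ((HMc_dgt y n : Fin 2) : ℕ) = 0 := by simp [HMc_dgt, hy]
  rw [h1, h2, h3]
  push_cast
  ring

lemma HMc_pos (x : ℕ → Prop) (n : ℕ) (hx : x n) : 0 < HMc_beta x := by
  rw [HMc_split x n]
  have h2 : ((HMc_dgt x n : Fin 2) : ℕ) = 1 := by simp [HMc_dgt, hx]
  rw [h2]
  have h3 : 0 ≤ ∑ i ∈ Finset.range n, Real.ofDigitsTerm (HMc_dgt x) i :=
    Finset.sum_nonneg fun i _ => Real.ofDigitsTerm_nonneg
  have h4 := HMc_beta_nonneg fun i => x (i + (n + 1))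
  have : 0 < ((2 : ℝ) ^ (n + 1))⁻¹ * (((1 : ℕ) : ℝ) + HMc_beta fun i => x (i + (n + 1))) := by
    push_cast
    positivity
  linarith

lemma HMc_lt_one (x : ℕ → Prop) (n : ℕ) (hx : ¬ x n) : HMc_beta x < 1 := by
  have h := HMc_cmp (fun i => i < n ∧ x i ∨ n ≤ i) x n
    (fun i hi => by simp [hi, not_le.2 hi]) (Or.inr le_rfl) hx
  have h1 := HMc_beta_le_one (fun i => i < n ∧ x i ∨ n ≤ i)
  have h2 := HMc_beta_le_one fun i => x (i + (n + 1))
  have h3 : 0 < HMc_beta fun i => (i + (n + 1) < n ∧ x (i + (n + 1)) ∨ n ≤ i + (n + 1)) :=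
    HMc_pos _ 0 (Or.inr (by omega))
  have h4 : 0 < ((2 : ℝ) ^ (n + 1))⁻¹ := by positivity
  have h5 : 0 < ((2 : ℝ) ^ (n + 1))⁻¹ *
      (1 + (HMc_beta fun i => (i + (n + 1) < n ∧ x (i + (n + 1)) ∨ n ≤ i + (n + 1))) -
        HMc_beta fun i => x (i + (n + 1))) := mul_pos h4 (by linarith)
  linarith

lemma HMc_fibre_aux (x y : ℕ → Prop) (n : ℕ) (h : ∀ i < n, x i ↔ y i) (hx : x n) (hy : ¬ y n)
    (he : HMc_beta x = HMc_beta y) :
    (¬ ∃ m, ∀ i, m ≤ i → x i) ∧ ∃ m, ∀ i, m ≤ i → y i := by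
  have h1 := HMc_cmp x y n h hx hy
  rw [he, sub_self] at h1
  have h2 : (0 : ℝ) < ((2 : ℝ) ^ (n + 1))⁻¹ := by positivity
  have h3 : (1 + (HMc_beta fun i => x (i + (n + 1))) - HMc_beta fun i => y (i + (n + 1))) = 0 := by
    rcases mul_eq_zero.1 h1.symm with h4 | h4
    · exact absurd h4 h2.ne'
    · exact h4
  have h4 := HMc_beta_le_one fun i => y (i + (n + 1))
  have h5 := HMc_beta_nonneg fun i => x (i + (n + 1))
  constructor
  · rintro ⟨m, hm⟩
    have h6 : 0 < HMc_beta fun i => x (i + (n + 1)) := HMc_pos _ m (hm _ (by omega))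
    linarith
  · refine ⟨n + 1, fun i hi => ?_⟩
    by_contra hcon
    have h6 : HMc_beta (fun i => y (i + (n + 1))) < 1 :=
      HMc_lt_one _ (i - (n + 1)) (by rwa [Nat.sub_add_cancel hi])
    linarith

lemma HMc_fibre (x y : ℕ → Prop) (he : HMc_beta x = HMc_beta y)
    (hT : (∃ m, ∀ i, m ≤ i → x i) ↔ ∃ m, ∀ i, m ≤ i → y i) : x = y := by
  classical
  by_contra hne
  have h1 : ∃ n, ¬ (x n ↔ y n) := by
    by_contra hcon
    push Not at hcon
    exact hne (funext fun i => propext (hcon i))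
  have h2 : ∀ i < Nat.find h1, x i ↔ y i := fun i hi => not_not.1 (Nat.find_min h1 hi)
  have h3 := Nat.find_spec h1
  by_cases hx : x (Nat.find h1)
  · have hy : ¬ y (Nat.find h1) := fun hy => h3 ⟨fun _ => hy, fun _ => hx⟩
    obtain ⟨h4, h5⟩ := HMc_fibre_aux x y _ h2 hx hy he
    exact h4 (hT.2 h5)
  · have hy : y (Nat.find h1) := by
      by_contra hy
      exact h3 ⟨fun h => absurd h hx, fun h => absurd h hy⟩
    obtain ⟨h4, h5⟩ := HMc_fibre_aux y x _ (fun i hi => (h2 i hi).symm) hy hx he.symm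
    exact h4 (hT.1 h5)

lemma HMc_finite {G : Type} (X : Set G) (r : G → ℕ → Prop) (hr : InjOn r X) (t : ℝ) :
    {g | g ∈ X ∧ HMc_beta (r g) = t}.Finite := by
  classical
  refine Set.Finite.of_injOn (f := fun g => (decide (∃ m, ∀ i, m ≤ i → r g i) : Bool))
    (t := Set.univ) (fun _ _ => Set.mem_univ _) ?_ Set.finite_univ
  intro g hg g' hg' he
  refine hr hg.1 hg'.1 (HMc_fibre _ _ (hg.2.trans hg'.2.symm) ?_)
  exact decide_eq_decide.1 he

/-- The extension of a string by zeros. -/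
def HMc_ext0 {L : ℕ} (s : Fin L → Bool) : ℕ → Prop := fun i => ∃ h : i < L, s ⟨i, h⟩ = true

/-- The extension of a string by ones. -/
def HMc_ext1 {L : ℕ} (s : Fin L → Bool) : ℕ → Prop := fun i => ∀ h : i < L, s ⟨i, h⟩ = true

lemma HMc_ext0_lt {L : ℕ} (s : Fin L → Bool) {i : ℕ} (h : i < L) :
    HMc_ext0 s i ↔ s ⟨i, h⟩ = true := ⟨fun ⟨_, h'⟩ => h', fun h' => ⟨h, h'⟩⟩

lemma HMc_ext1_lt {L : ℕ} (s : Fin L → Bool) {i : ℕ} (h : i < L) :
    HMc_ext1 s i ↔ s ⟨i, h⟩ = true := ⟨fun h' => h' h, fun h' _ => h'⟩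

lemma HMc_abs (x y : ℕ → Prop) (n : ℕ) (h : ∀ i < n, x i ↔ y i) :
    |HMc_beta x - HMc_beta y| ≤ ((2 : ℝ) ^ n)⁻¹ := by
  have := Real.abs_ofDigits_sub_ofDigits_le (x := HMc_dgt x) (y := HMc_dgt y) (n := n)
    (fun i hi => HMc_dgt_congr (h i hi))
  exact_mod_cast this

lemma HMc_ext1_eq {L : ℕ} (s : Fin L → Bool) :
    HMc_beta (HMc_ext1 s) = HMc_beta (HMc_ext0 s) + ((2 : ℝ) ^ L)⁻¹ := by
  unfold HMc_beta
  rw [Real.ofDigits_eq_sum_add_ofDigits _ L, Real.ofDigits_eq_sum_add_ofDigits (HMc_dgt (HMc_ext0 s)) L]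
  have h1 : ∑ i ∈ Finset.range L, Real.ofDigitsTerm (HMc_dgt (HMc_ext1 s)) i =
      ∑ i ∈ Finset.range L, Real.ofDigitsTerm (HMc_dgt (HMc_ext0 s)) i := by
    refine Finset.sum_congr rfl fun i hi => ?_
    have : HMc_dgt (HMc_ext1 s) i = HMc_dgt (HMc_ext0 s) i := HMc_dgt_congr (by
      rw [HMc_ext1_lt s (Finset.mem_range.1 hi), HMc_ext0_lt s (Finset.mem_range.1 hi)])
    rw [Real.ofDigitsTerm, Real.ofDigitsTerm, this]
  have h2 : Real.ofDigits (fun i => HMc_dgt (HMc_ext1 s) (i + L)) = 1 := by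
    have : (fun i => HMc_dgt (HMc_ext1 s) (i + L)) =
        fun _ => (⟨2 - 1, Nat.sub_one_lt_of_lt one_lt_two⟩ : Fin 2) := by
      funext i
      have : HMc_ext1 s (i + L) := fun h => by omega
      simp [HMc_dgt, this]
    rw [this]
    exact Real.ofDigits_const_last_eq_one' one_lt_two
  have h3 : Real.ofDigits (fun i => HMc_dgt (HMc_ext0 s) (i + L)) = 0 := by
    have : (fun i => HMc_dgt (HMc_ext0 s) (i + L)) = fun _ => (0 : Fin 2) := by
      funext i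
      have : ¬ HMc_ext0 s (i + L) := fun ⟨h, _⟩ => by omega
      simp [HMc_dgt, this]
    rw [this]
    simp [Real.ofDigits, Real.ofDigitsTerm]
  rw [h1, h2, h3]
  push_cast
  ring

lemma HMc_sep {L : ℕ} (s s' : Fin L → Bool) (hne : s ≠ s') :
    HMc_beta (HMc_ext1 s) ≤ HMc_beta (HMc_ext0 s') ∨
      HMc_beta (HMc_ext1 s') ≤ HMc_beta (HMc_ext0 s) := by
  classical
  have h1 : ∃ n, ∃ h : n < L, s ⟨n, h⟩ ≠ s' ⟨n, h⟩ := by
    by_contra hcon
    push Not at hcon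
    exact hne (funext fun i => hcon i.1 i.2)
  obtain ⟨hL, hn⟩ := Nat.find_spec h1
  set n := Nat.find h1 with hndef
  have h2 : ∀ i < n, ∀ h : i < L, s ⟨i, h⟩ = s' ⟨i, h⟩ := by
    intro i hi h
    by_contra hcon
    exact Nat.find_min h1 hi ⟨h, hcon⟩
  have key : ∀ u v : Fin L → Bool, (∀ i < n, ∀ h : i < L, u ⟨i, h⟩ = v ⟨i, h⟩) →
      u ⟨n, hL⟩ = true → v ⟨n, hL⟩ = false →
      HMc_beta (HMc_ext1 v) ≤ HMc_beta (HMc_ext0 u) := by
    intro u v huv hu hv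
    have h3 := HMc_cmp (HMc_ext0 u) (HMc_ext1 v) n
      (fun i hi => by
        rw [HMc_ext0_lt u (hi.trans hL), HMc_ext1_lt v (hi.trans hL), huv i hi (hi.trans hL)])
      ((HMc_ext0_lt u hL).2 hu) (by rw [HMc_ext1_lt v hL, hv]; simp)
    have h4 := HMc_beta_le_one fun i => HMc_ext1 v (i + (n + 1))
    have h5 := HMc_beta_nonneg fun i => HMc_ext0 u (i + (n + 1))
    have h6 : 0 ≤ ((2 : ℝ) ^ (n + 1))⁻¹ * (1 + (HMc_beta fun i => HMc_ext0 u (i + (n + 1))) -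
        HMc_beta fun i => HMc_ext1 v (i + (n + 1))) := mul_nonneg (by positivity) (by linarith)
    linarith
  cases hs : s ⟨n, hL⟩ <;> cases hs' : s' ⟨n, hL⟩
  · exact absurd (hs.trans hs'.symm) hn
  · exact Or.inl (key s' s (fun i hi h => (h2 i hi h).symm) hs' hs)
  · exact Or.inr (key s s' h2 hs hs')
  · exact absurd (hs.trans hs'.symm) hn

set_option linter.unusedVariables false in
/-- Row H3. -/
theorem not_mcshane {K G : Type} [TopologicalSpace K] [CompactSpace K] (h : G → C(K, ℝ))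
    (h0 : ∀ g k, 0 ≤ h g k) (h1 : ∀ g k, h g k ≤ 1)
    (hcount : ∀ Λ : C(K, ℝ) →L[ℝ] ℝ, {g | Λ (h g) ≠ 0}.Countable)
    (X : Set G) (r : G → ℕ → Prop) (hr : InjOn r X) {q : ℝ} (hq : 0 < q)
    (H : ∀ d : G → ℕ, ∃ A : Finset G, (∃ k, ∀ g ∈ A, q ≤ h g k) ∧ ↑A ⊆ X ∧ Covers A r d) :
    ¬ PettisEqMcShane K := by
  classical
  have hfin := HMc_finite X r hr
  let f : ℝ → C(K, ℝ) := fun t => ∑ g ∈ (hfin t).toFinset, h g
  have hfle : ∀ g ∈ X, ∀ k, h g k ≤ f (HMc_beta (r g)) k := by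
    intro g hg k
    change h g k ≤ (∑ g' ∈ (hfin (HMc_beta (r g))).toFinset, h g') k
    rw [ContinuousMap.sum_apply]
    exact Finset.single_le_sum (f := fun g' => h g' k) (fun g' _ => h0 g' k)
      ((hfin _).mem_toFinset.2 ⟨hg, rfl⟩)
  have hfnn : ∀ t k, 0 ≤ f t k := by
    intro t k
    change 0 ≤ (∑ g' ∈ (hfin t).toFinset, h g') k
    rw [ContinuousMap.sum_apply]
    exact Finset.sum_nonneg fun g' _ => h0 g' k
  have hf0 : ∀ Λ : C(K, ℝ) →L[ℝ] ℝ, ∀ᵐ t, Λ (f t) = 0 := by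
    intro Λ
    rw [ae_iff]
    have hc : ((fun g => HMc_beta (r g)) '' {g | Λ (h g) ≠ 0}).Countable :=
      (hcount Λ).image _
    refine measure_mono_null ?_ (hc.measure_zero volume)
    intro t ht
    have ht' : Λ (∑ g' ∈ (hfin t).toFinset, h g') ≠ 0 := ht
    rw [map_sum] at ht'
    obtain ⟨g, hg, hg'⟩ := Finset.exists_ne_zero_of_sum_ne_zero ht'
    exact ⟨g, hg', ((hfin t).mem_toFinset.1 hg).2⟩
  have hP : PettisIntegrable f := by
    refine ⟨fun Λ => ?_, fun A _ _ => ⟨0, fun Λ => ?_⟩⟩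
    · exact (integrable_zero ℝ ℝ (volume.restrict (Icc (0 : ℝ) 1))).congr
        ((ae_restrict_of_ae (hf0 Λ)).mono fun t ht => ht.symm)
    · rw [map_zero]
      symm
      exact MeasureTheory.integral_eq_zero_of_ae (ae_restrict_of_ae (hf0 Λ))
  intro hall
  have hM : McShaneIntegrable f := hall f hP
  unfold McShaneIntegrable at hM
  set B : BoxIntegral.Box (Fin 1) :=
    ⟨fun _ => (0 : ℝ), fun _ => (1 : ℝ), fun _ => (zero_lt_one : (0 : ℝ) < 1)⟩ with hB
  set F : (Fin 1 → ℝ) → C(K, ℝ) := fun x => f (x 0) with hF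
  have hF0 : ∀ x : K, (fun t => F t x) =ᵐ[volume] 0 := by
    intro x
    have h1 : ∀ᵐ t, f t x = 0 := hf0 (ContinuousMap.evalCLM ℝ x)
    exact (volume_preserving_funUnique (Fin 1) ℝ).quasiMeasurePreserving.ae h1
  have hint : ∀ J : BoxIntegral.Box (Fin 1), J ≤ B →
      BoxIntegral.integral J BoxIntegral.IntegrationParams.McShane F
        BoxIntegral.BoxAdditiveMap.volume = 0 := by
    intro J hJ
    exact integral_eq_zero_of_ae rfl (hM.to_subbox hJ) fun x => ae_restrict_of_ae (hF0 x)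
  set ρ := hM.convergenceR (q / 4) 0 with hρ
  -- the depths
  have hd : ∀ g, ∃ m : ℕ, ((2 : ℝ) ^ m)⁻¹ < (ρ (fun _ => HMc_beta (r g)) : ℝ) := by
    intro g
    have hpos : (0 : ℝ) < (ρ (fun _ => HMc_beta (r g)) : ℝ) := (ρ _).2
    obtain ⟨m, hm⟩ := exists_pow_lt_of_lt_one hpos (by norm_num : (2 : ℝ)⁻¹ < 1)
    exact ⟨m, by rwa [inv_pow] at hm⟩
  choose d hd using hd
  obtain ⟨A, ⟨k, hk⟩, hAX, L, hdL, hcard⟩ := H d
  let P : (Fin L → Bool) → Prop := fun s =>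
    ∃ x ∈ A, ∀ i : Fin L, (i : ℕ) < d x → (s i = true ↔ r x i)
  have hch : ∀ s : {s : Fin L → Bool // P s}, ∃ x ∈ A,
      ∀ i : Fin L, (i : ℕ) < d x → (s.1 i = true ↔ r x i) := fun s => s.2
  choose γ hγA hγ using hch
  let κ := {s : Fin L → Bool // P s}
  have hlt : ∀ l : κ, HMc_beta (HMc_ext0 l.1) < HMc_beta (HMc_ext1 l.1) := by
    intro l
    rw [HMc_ext1_eq]
    have : (0 : ℝ) < ((2 : ℝ) ^ L)⁻¹ := by positivity
    linarith
  let bx : κ → BoxIntegral.Box (Fin 1) := fun l =>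
    ⟨fun _ => HMc_beta (HMc_ext0 l.1), fun _ => HMc_beta (HMc_ext1 l.1), fun _ => hlt l⟩
  have hble : ∀ l, bx l ≤ B := by
    intro l
    rw [BoxIntegral.Box.le_iff_bounds]
    exact ⟨fun _ => HMc_beta_nonneg _, fun _ => HMc_beta_le_one _⟩
  have hbd : ∀ l l', l ≠ l' → Disjoint (bx l : Set (Fin 1 → ℝ)) (bx l') := by
    have aux : ∀ l l' : κ, HMc_beta (HMc_ext1 l.1) ≤ HMc_beta (HMc_ext0 l'.1) →
        Disjoint (bx l : Set (Fin 1 → ℝ)) (bx l') := by
      intro l l' hll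
      rw [Set.disjoint_left]
      intro x hx hx'
      have h1 : x 0 ≤ HMc_beta (HMc_ext1 l.1) := (hx 0).2
      have h2 : HMc_beta (HMc_ext0 l'.1) < x 0 := (hx' 0).1
      linarith
    intro l l' hne
    rcases HMc_sep l.1 l'.1 (fun h => hne (Subtype.ext h)) with h' | h'
    · exact aux l l' h'
    · exact (aux l' l h').symm
  have htI : ∀ l : κ, (fun _ => HMc_beta (r (γ l)) : Fin 1 → ℝ) ∈ BoxIntegral.Box.Icc B :=
    fun l => ⟨fun _ => HMc_beta_nonneg _, fun _ => HMc_beta_le_one _⟩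
  let π := tp B bx hble hbd (fun l _ => HMc_beta (r (γ l))) htI
  have hmem : BoxIntegral.IntegrationParams.McShane.MemBaseSet B 0 ρ π := by
    refine ⟨?_, fun h => absurd h (by simp [BoxIntegral.IntegrationParams.McShane]),
      fun h => absurd h (by simp [BoxIntegral.IntegrationParams.McShane]),
      fun h => absurd h (by simp [BoxIntegral.IntegrationParams.McShane])⟩
    intro J hJ
    obtain ⟨l, rfl⟩ := (mem_tp B bx hble hbd (fun l _ => HMc_beta (r (γ l))) htI J).1 hJ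
    have htag : π.tag (bx l) = fun _ => HMc_beta (r (γ l)) :=
      tag_tp B bx hble hbd (fun l _ => HMc_beta (r (γ l))) htI (injective_of_disjoint bx hbd) l
    rw [htag]
    intro x hx
    rw [Metric.mem_closedBall, dist_pi_le_iff (le_of_lt (ρ _).2)]
    intro i
    have hi : i = 0 := Subsingleton.elim _ _
    subst hi
    have h2 : HMc_beta (HMc_ext0 l.1) ≤ x 0 := hx.1 0
    have h3 : x 0 ≤ HMc_beta (HMc_ext1 l.1) := hx.2 0
    have hdl : d (γ l) ≤ L := hdL _ (hγA l)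
    have h4 : |HMc_beta (HMc_ext0 l.1) - HMc_beta (r (γ l))| ≤ ((2 : ℝ) ^ d (γ l))⁻¹ :=
      HMc_abs _ _ _ fun i hi => by
        rw [HMc_ext0_lt l.1 (hi.trans_le hdl)]
        exact hγ l ⟨i, hi.trans_le hdl⟩ hi
    have h5 : |HMc_beta (HMc_ext1 l.1) - HMc_beta (r (γ l))| ≤ ((2 : ℝ) ^ d (γ l))⁻¹ :=
      HMc_abs _ _ _ fun i hi => by
        rw [HMc_ext1_lt l.1 (hi.trans_le hdl)]
        exact hγ l ⟨i, hi.trans_le hdl⟩ hi
    have h6 := hd (γ l)
    rw [abs_le] at h4 h5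
    rw [Real.dist_eq, abs_le]
    constructor <;> linarith [h4.1, h4.2, h5.1, h5.2]
  have hhen := hM.dist_integralSum_sum_integral_le_of_memBaseSet (by positivity : 0 < q / 4) hmem
  have hz : ∑ J ∈ π.boxes,
      BoxIntegral.integral J BoxIntegral.IntegrationParams.McShane F
        BoxIntegral.BoxAdditiveMap.volume = 0 :=
    Finset.sum_eq_zero fun J hJ => hint J (π.le_of_mem' J hJ)
  rw [hz, dist_zero_right] at hhen
  have hval : q / 2 ≤ (BoxIntegral.integralSum F BoxIntegral.BoxAdditiveMap.volume π) k := by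
    rw [integralSum_tp, ContinuousMap.sum_apply]
    have hterm : ∀ l : κ, ((2 : ℝ) ^ L)⁻¹ * q ≤
        ((∏ j, ((bx l).upper j - (bx l).lower j)) • F (fun _ => HMc_beta (r (γ l)))) k := by
      intro l
      change ((2 : ℝ) ^ L)⁻¹ * q ≤ (∏ j, ((bx l).upper j - (bx l).lower j)) *
        (f (HMc_beta (r (γ l))) k)
      simp only [Finset.univ_unique, Fin.default_eq_zero, Fin.isValue, Finset.prod_singleton]
      change ((2 : ℝ) ^ L)⁻¹ * q ≤ (HMc_beta (HMc_ext1 l.1) - HMc_beta (HMc_ext0 l.1)) *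
        (f (HMc_beta (r (γ l))) k)
      rw [HMc_ext1_eq, add_sub_cancel_left]
      refine mul_le_mul_of_nonneg_left ?_ (by positivity)
      exact (hk _ (hγA l)).trans (hfle _ (hAX (hγA l)) k)
    have hsum := Finset.sum_le_sum fun (l : κ) (_ : l ∈ Finset.univ) => hterm l
    refine le_trans ?_ hsum
    rw [Finset.sum_const, Finset.card_univ, nsmul_eq_mul]
    have hc2 : (2 : ℝ) ^ L ≤ 2 * (Fintype.card κ : ℝ) := by
      rw [← Nat.card_eq_fintype_card]
      exact_mod_cast hcard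
    have hpos : (0 : ℝ) < (2 : ℝ) ^ L := by positivity
    have : (Fintype.card κ : ℝ) * (((2 : ℝ) ^ L)⁻¹ * q) = (Fintype.card κ : ℝ) * q / 2 ^ L := by
      field_simp
    rw [this, div_le_div_iff₀ (by norm_num) hpos]
    nlinarith
  have hfinal : q / 2 ≤ q / 4 := by
    calc q / 2 ≤ (BoxIntegral.integralSum F BoxIntegral.BoxAdditiveMap.volume π) k := hval
      _ ≤ ‖(BoxIntegral.integralSum F BoxIntegral.BoxAdditiveMap.volume π) k‖ := le_abs_self _
      _ ≤ ‖BoxIntegral.integralSum F BoxIntegral.BoxAdditiveMap.volume π‖ :=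
        ContinuousMap.norm_coe_le_norm _ _
      _ ≤ q / 4 := hhen
  linarith

end Pool.Agent.EB
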