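import Pool.Agent.Lib.EB.Defs
import Pool.Agent.Lib.MP_9f8c44_an.Defs

/-!
# Row H2: sigma-boundedness gives a uniform Eberlein space
-/

set_option autoImplicit false

open MeasureTheory Set

namespace Pool.Agent.EB

open Pool.Agent.Lib.MP_9f8c44_an

private theorem h2_half_sum (s : Finset ℕ) : ∑ n ∈ s, (1 / 2 : ℝ) ^ n ≤ 2 := by
  have h1 := Summable.sum_le_tsum s (fun i _ => by positivity) (summable_geometric_two)
  rw [tsum_geometric_two] at h1
  exact h1

private theorem h2_quarter {G : Type} (A : Finset G) (c : G → ℕ)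
    (hA : ∀ n, (A.filter fun g => c g = n).card ≤ n) : ∑ g ∈ A, (1 / 4 : ℝ) ^ c g ≤ 2 := by
  classical
  rw [← Finset.sum_fiberwise_of_maps_to (t := A.image c) (g := c)
    (fun g hg => Finset.mem_image_of_mem c hg)]
  refine le_trans (Finset.sum_le_sum ?_) (h2_half_sum (A.image c))
  intro n _
  have h1 : ∑ g ∈ A.filter (fun g => c g = n), (1 / 4 : ℝ) ^ c g
      = (A.filter fun g => c g = n).card * (1 / 4 : ℝ) ^ n := by
    rw [Finset.sum_congr rfl (g := fun _ => (1 / 4 : ℝ) ^ n)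
      (fun g hg => by rw [(Finset.mem_filter.1 hg).2])]
    simp
  rw [h1]
  have h2 : ((A.filter fun g => c g = n).card : ℝ) ≤ (2 : ℝ) ^ n := by
    have h3 : (A.filter fun g => c g = n).card ≤ 2 ^ n := (hA n).trans Nat.lt_two_pow_self.le
    exact_mod_cast h3
  calc ((A.filter fun g => c g = n).card : ℝ) * (1 / 4 : ℝ) ^ n
      ≤ (2 : ℝ) ^ n * (1 / 4 : ℝ) ^ n := mul_le_mul_of_nonneg_right h2 (by positivity)
    _ = (1 / 2 : ℝ) ^ n := by rw [← mul_pow]; norm_num

/-- The coordinates of the embedding. -/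
private noncomputable def h2F {K G : Type} [TopologicalSpace K] (h : G → C(K, ℝ))
    (c : ℕ → G → ℕ) (k : K) (i : ℕ × G) : ℝ :=
  (1 / 2) ^ (i.1 + c i.1 i.2) * max (h i.2 k - 1 / ((i.1 : ℝ) + 1)) 0

private theorem h2F_cont {K G : Type} [TopologicalSpace K] (h : G → C(K, ℝ))
    (c : ℕ → G → ℕ) (i : ℕ × G) : Continuous fun k => h2F h c k i := by
  unfold h2F
  exact continuous_const.mul ((((h i.2).continuous).sub continuous_const).max continuous_const)

private theorem h2F_sum {K G : Type} [TopologicalSpace K] (h : G → C(K, ℝ))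
    (h1 : ∀ g k, h g k ≤ 1) (c : ℕ → G → ℕ)
    (hs : ∀ q : ℕ, ∀ A : Finset G, (∃ k, ∀ g ∈ A, 1 / ((q : ℝ) + 1) ≤ h g k) →
      ∀ n, (A.filter fun g => c q g = n).card ≤ n) (k : K) (s : Finset (ℕ × G)) :
    ∑ i ∈ s, (h2F h c k i) ^ 2 ≤ 4 := by
  classical
  have hsub : s ⊆ s.image Prod.fst ×ˢ s.image Prod.snd := by
    intro i hi
    exact Finset.mem_product.2 ⟨Finset.mem_image_of_mem _ hi, Finset.mem_image_of_mem _ hi⟩
  refine (Finset.sum_le_sum_of_subset_of_nonneg hsub fun i _ _ => by positivity).trans ?_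
  rw [Finset.sum_product]
  have key : ∀ q ∈ s.image Prod.fst, ∑ g ∈ s.image Prod.snd, (h2F h c k (q, g)) ^ 2
      ≤ (1 / 2 : ℝ) ^ q * 2 := by
    intro q _
    set A := (s.image Prod.snd).filter fun g => 1 / ((q : ℝ) + 1) ≤ h g k with hA
    have hz : ∀ g ∈ s.image Prod.snd, g ∉ A → (h2F h c k (q, g)) ^ 2 = 0 := by
      intro g hg hgA
      have : ¬ 1 / ((q : ℝ) + 1) ≤ h g k := fun h' => hgA (Finset.mem_filter.2 ⟨hg, h'⟩)
      unfold h2F
      rw [max_eq_right (by linarith)]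
      simp
    rw [← Finset.sum_subset (Finset.filter_subset _ _) hz]
    have hle : ∀ g ∈ A, (h2F h c k (q, g)) ^ 2 ≤ (1 / 2 : ℝ) ^ q * (1 / 4 : ℝ) ^ c q g := by
      intro g hg
      have hq : (0 : ℝ) ≤ 1 / ((q : ℝ) + 1) := by positivity
      have hm0 : (0 : ℝ) ≤ max (h g k - 1 / ((q : ℝ) + 1)) 0 := le_max_right _ _
      have hm1 : max (h g k - 1 / ((q : ℝ) + 1)) 0 ≤ 1 :=
        max_le (by have := h1 g k; linarith) zero_le_one
      have hm2 : (max (h g k - 1 / ((q : ℝ) + 1)) 0) ^ 2 ≤ 1 := by nlinarith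
      have e1 : (h2F h c k (q, g)) ^ 2
          = (1 / 4 : ℝ) ^ q * (1 / 4 : ℝ) ^ c q g * (max (h g k - 1 / ((q : ℝ) + 1)) 0) ^ 2 := by
        unfold h2F
        simp only
        rw [mul_pow, ← pow_mul, mul_comm (q + c q g) 2, pow_mul, pow_add]
        norm_num
      rw [e1]
      have e2 : (1 / 4 : ℝ) ^ q ≤ (1 / 2 : ℝ) ^ q :=
        pow_le_pow_left₀ (by norm_num) (by norm_num) q
      calc (1 / 4 : ℝ) ^ q * (1 / 4 : ℝ) ^ c q g * (max (h g k - 1 / ((q : ℝ) + 1)) 0) ^ 2
          ≤ (1 / 4 : ℝ) ^ q * (1 / 4 : ℝ) ^ c q g * 1 :=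
            mul_le_mul_of_nonneg_left hm2 (by positivity)
        _ = (1 / 4 : ℝ) ^ q * (1 / 4 : ℝ) ^ c q g := mul_one _
        _ ≤ (1 / 2 : ℝ) ^ q * (1 / 4 : ℝ) ^ c q g :=
            mul_le_mul_of_nonneg_right e2 (by positivity)
    refine (Finset.sum_le_sum hle).trans ?_
    rw [← Finset.mul_sum]
    refine mul_le_mul_of_nonneg_left ?_ (by positivity)
    exact h2_quarter A (c q) (hs q A ⟨k, fun g hg => (Finset.mem_filter.1 hg).2⟩)
  refine (Finset.sum_le_sum key).trans ?_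
  rw [← Finset.sum_mul]
  have := h2_half_sum (s.image Prod.fst)
  linarith

/-- Row H2. -/
theorem uniform_of_sig {K G : Type} [TopologicalSpace K] [CompactSpace K] (h : G → C(K, ℝ))
    (h0 : ∀ g k, 0 ≤ h g k) (h1 : ∀ g k, h g k ≤ 1)
    (hsep : ∀ k k', (∀ g, h g k = h g k') → k = k')
    (hs : ∀ q : ℕ, ∃ c : G → ℕ, ∀ A : Finset G, (∃ k, ∀ g ∈ A, 1 / ((q : ℝ) + 1) ≤ h g k) →
      ∀ n, (A.filter fun g => c g = n).card ≤ n) : IsUniformEberlein K := by
  classical
  choose c hc using hs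
  have hsum := h2F_sum h h1 c hc
  have hp : 0 < (2 : ENNReal).toReal := by norm_num
  have hsum' : ∀ (k : K) (s : Finset (ℕ × G)),
      ∑ i ∈ s, ‖h2F h c k i‖ ^ (2 : ENNReal).toReal ≤ (2 : ℝ) ^ (2 : ENNReal).toReal := by
    intro k s
    have e : ∀ i ∈ s, ‖h2F h c k i‖ ^ (2 : ENNReal).toReal = (h2F h c k i) ^ 2 := by
      intro i _
      simp only [ENNReal.toReal_ofNat, Real.rpow_two, Real.norm_eq_abs, sq_abs]
    rw [Finset.sum_congr rfl e]
    have := hsum k s
    simp only [ENNReal.toReal_ofNat, Real.rpow_two]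
    linarith
  let F : K → lp (fun _ : ℕ × G => ℝ) 2 := fun k => ⟨h2F h c k, memℓp_gen' (hsum' k)⟩
  have hF : ∀ k i, F k i = h2F h c k i := fun k i => rfl
  have hnorm : ∀ k, ‖F k‖ ≤ 2 := fun k =>
    lp.norm_le_of_forall_sum_le hp (by norm_num) (hsum' k)
  refine ⟨lp (fun _ : ℕ × G => ℝ) 2, inferInstance, inferInstance, inferInstance,
    fun k => toWeakSpace ℝ _ (F k), ?_⟩
  have hcont : Continuous fun k : K => toWeakSpace ℝ (lp (fun _ : ℕ × G => ℝ) 2) (F k) := by
    refine WeakBilin.continuous_of_continuous_eval _ fun φ => ?_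
    change Continuous fun k => φ (F k)
    obtain ⟨y, hy⟩ := (InnerProductSpace.toDual ℝ (lp (fun _ : ℕ × G => ℝ) 2)).surjective φ
    have hφ : ∀ x, φ x = inner ℝ y x := by
      intro x
      rw [← hy, InnerProductSpace.toDual_apply_apply]
    simp only [hφ]
    refine continuous_of_uniform_approx_of_continuous fun u hu => ?_
    obtain ⟨ε, hε, hεu⟩ := Metric.mem_uniformity_dist.1 hu
    have hs := lp.hasSum_single (by norm_num : (2 : ENNReal) ≠ ⊤) y
    obtain ⟨s, hs'⟩ := (Metric.tendsto_atTop.1 hs) (ε / 4) (by positivity)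
    refine ⟨fun k => inner ℝ (∑ i ∈ s, lp.single 2 i (y i)) (F k), ?_, ?_⟩
    · have : (fun k => inner ℝ (∑ i ∈ s, lp.single 2 i (y i)) (F k))
          = fun k => ∑ i ∈ s, inner ℝ (y i) (h2F h c k i) := by
        funext k
        rw [sum_inner]
        refine Finset.sum_congr rfl fun i _ => ?_
        rw [lp.inner_single_left]
      rw [this]
      refine continuous_finsetSum _ fun i _ => ?_
      exact continuous_const.inner (h2F_cont h c i)
    · intro k
      apply hεu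
      rw [dist_eq_norm, ← inner_sub_left]
      have h2 := hs' s le_rfl
      rw [dist_eq_norm, norm_sub_rev] at h2
      calc ‖inner ℝ (y - ∑ i ∈ s, lp.single 2 i (y i)) (F k)‖
          ≤ ‖y - ∑ i ∈ s, lp.single 2 i (y i)‖ * ‖F k‖ := norm_inner_le_norm _ _
        _ ≤ (ε / 4) * 2 :=
            mul_le_mul h2.le (hnorm k) (norm_nonneg _) (by positivity)
        _ < ε := by linarith
  have hinj : Function.Injective
      fun k : K => toWeakSpace ℝ (lp (fun _ : ℕ × G => ℝ) 2) (F k) := by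
    intro k k' hkk
    have hFF : F k = F k' := (toWeakSpace ℝ (lp (fun _ : ℕ × G => ℝ) 2)).injective hkk
    have hcoord : ∀ i, h2F h c k i = h2F h c k' i := by
      intro i
      rw [← hF, ← hF, hFF]
    apply hsep
    have hmax : ∀ (q : ℕ) (g : G), max (h g k - 1 / ((q : ℝ) + 1)) 0
        = max (h g k' - 1 / ((q : ℝ) + 1)) 0 := by
      intro q g
      have h3 := hcoord (q, g)
      unfold h2F at h3
      exact mul_left_cancel₀ (by positivity) h3
    have hno : ∀ (a b : K) (g : G), (∀ q : ℕ, max (h g a - 1 / ((q : ℝ) + 1)) 0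
        = max (h g b - 1 / ((q : ℝ) + 1)) 0) → ¬ h g a < h g b := by
      intro a b g hab hlt
      have hpos : 0 < h g b := lt_of_le_of_lt (h0 g a) hlt
      obtain ⟨q, hq⟩ := exists_nat_one_div_lt hpos
      have h4 := hab q
      rw [max_eq_left (b := (0 : ℝ)) (a := h g b - 1 / ((q : ℝ) + 1)) (by linarith)] at h4
      have h5 : max (h g a - 1 / ((q : ℝ) + 1)) 0 < h g b - 1 / ((q : ℝ) + 1) :=
        max_lt (by linarith) (by linarith)
      linarith
    intro g
    rcases lt_trichotomy (h g k) (h g k') with hlt | heq | hgt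
    · exact absurd hlt (hno k k' g fun q => hmax q g)
    · exact heq
    · exact absurd hgt (hno k' k g fun q => (hmax q g).symm)
  exact (hcont.isClosedEmbedding hinj).isEmbedding

end Pool.Agent.EB
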