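import Pool.Agent.Lib.EB.Defs

/-!
# Row WN: a bounded family of continuous functions which is pointwise `c₀` is weakly `c₀`

The proof uses the inequality of Simons: for a bounded sequence of nonnegative continuous functions
on a compact space which converges to `0` pointwise, there are convex combinations of arbitrarily
small norm.
-/

set_option autoImplicit false

open MeasureTheory Set Filter Topology

namespace Pool.Agent.EB

/-- The convex hull of the tail of a sequence. -/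
def WNtail {K : Type} [TopologicalSpace K] [CompactSpace K] (f : ℕ → C(K, ℝ)) (n : ℕ) :
    Set C(K, ℝ) := convexHull ℝ (f '' {m | n ≤ m})

lemma WN_le {K : Type} [TopologicalSpace K] [CompactSpace K] {f : ℕ → C(K, ℝ)} {n : ℕ}
    {g : C(K, ℝ)} (hg : g ∈ WNtail f n) {k : K} {c : ℝ} (h : ∀ m, n ≤ m → f m k ≤ c) :
    g k ≤ c := by
  have h1 : WNtail f n ⊆ {g : C(K, ℝ) | g k ≤ c} := by
    refine convexHull_min ?_ ?_
    · rintro _ ⟨m, hm, rfl⟩
      exact h m hm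
    · intro x hx y hy a b ha hb hab
      simp only [mem_ofPred_eq] at hx hy ⊢
      show a * x k + b * y k ≤ c
      have h2 : a * x k + b * y k ≤ a * c + b * c :=
        add_le_add (mul_le_mul_of_nonneg_left hx ha) (mul_le_mul_of_nonneg_left hy hb)
      rw [← add_mul, hab, one_mul] at h2
      exact h2
  exact h1 hg

lemma WN_ge {K : Type} [TopologicalSpace K] [CompactSpace K] {f : ℕ → C(K, ℝ)} {n : ℕ}
    {g : C(K, ℝ)} (hg : g ∈ WNtail f n) {k : K} {c : ℝ} (h : ∀ m, n ≤ m → c ≤ f m k) :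
    c ≤ g k := by
  have h1 : WNtail f n ⊆ {g : C(K, ℝ) | c ≤ g k} := by
    refine convexHull_min ?_ ?_
    · rintro _ ⟨m, hm, rfl⟩
      exact h m hm
    · intro x hx y hy a b ha hb hab
      simp only [mem_ofPred_eq] at hx hy ⊢
      show c ≤ a * x k + b * y k
      have h2 : a * c + b * c ≤ a * x k + b * y k :=
        add_le_add (mul_le_mul_of_nonneg_left hx ha) (mul_le_mul_of_nonneg_left hy hb)
      rw [← add_mul, hab, one_mul] at h2
      exact h2
  exact h1 hg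

lemma WN_sel {K : Type} [TopologicalSpace K] [CompactSpace K] (f : ℕ → C(K, ℝ)) (n : ℕ)
    (H : C(K, ℝ)) {ε : ℝ} (hε : 0 < ε) (t : ℝ) :
    ∃ g ∈ WNtail f n, ∀ g' ∈ WNtail f n, ‖H + t • g‖ ≤ ‖H + t • g'‖ + ε := by
  have hne : ((fun g => ‖H + t • g‖) '' WNtail f n).Nonempty := by
    refine Set.Nonempty.image _ ?_
    exact ⟨f n, subset_convexHull ℝ _ ⟨n, le_refl n, rfl⟩⟩
  have hbd : BddBelow ((fun g => ‖H + t • g‖) '' WNtail f n) :=
    ⟨0, by rintro _ ⟨g, -, rfl⟩; exact norm_nonneg _⟩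
  obtain ⟨_, ⟨g, hg, rfl⟩, hlt⟩ := exists_lt_of_csInf_lt hne
    (show sInf ((fun g => ‖H + t • g‖) '' WNtail f n)
      < sInf ((fun g => ‖H + t • g‖) '' WNtail f n) + ε by linarith)
  refine ⟨g, hg, fun g' hg' => ?_⟩
  have h1 := csInf_le hbd ⟨g', hg', rfl⟩
  simp only at hlt h1
  linarith

/-- The inequality of Simons. -/
lemma WN_simons {K : Type} [TopologicalSpace K] [CompactSpace K] [Nonempty K]
    (f : ℕ → C(K, ℝ)) (h0 : ∀ n k, 0 ≤ f n k) (h1 : ∀ n k, f n k ≤ 1)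
    (hlim : ∀ k, ∀ c : ℝ, 0 < c → ∃ n, ∀ m, n ≤ m → f m k ≤ c) {M : ℝ} (hM : 0 < M)
    (hconv : ∀ g ∈ WNtail f 0, M ≤ ‖g‖) : False := by
  classical
  obtain ⟨δ, hδ⟩ : ∃ δ, δ = M / 12 := ⟨_, rfl⟩
  have hδ0 : 0 < δ := by rw [hδ]; positivity
  have hsel : ∀ (n : ℕ) (H : C(K, ℝ)), ∃ g ∈ WNtail f n, ∀ g' ∈ WNtail f n,
      ‖H + (1 / 2 : ℝ) ^ n • g‖ ≤ ‖H + (1 / 2 : ℝ) ^ n • g'‖ + δ * (1 / 4 : ℝ) ^ n :=
    fun n H => WN_sel f n H (by positivity) _
  choose sel hsel1 hsel2 using hsel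
  let H : ℕ → C(K, ℝ) := fun n =>
    Nat.rec (0 : C(K, ℝ)) (fun n H => H + (1 / 2 : ℝ) ^ (n + 1) • sel n H) n
  have hH0 : H 0 = 0 := rfl
  have hHs : ∀ n, H (n + 1) = H n + (1 / 2 : ℝ) ^ (n + 1) • sel n (H n) := fun n => rfl
  obtain ⟨G, hG⟩ : ∃ G : ℕ → C(K, ℝ), G = fun n => sel n (H n) := ⟨_, rfl⟩
  have hHs' : ∀ n, H (n + 1) = H n + (1 / 2 : ℝ) ^ (n + 1) • G n := fun n => by rw [hHs, hG]
  have hGm : ∀ n, G n ∈ WNtail f n := fun n => by rw [hG]; exact hsel1 n _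
  have hG2 : ∀ n, ∀ g' ∈ WNtail f n,
      ‖H n + (1 / 2 : ℝ) ^ n • G n‖ ≤ ‖H n + (1 / 2 : ℝ) ^ n • g'‖ + δ * (1 / 4 : ℝ) ^ n :=
    fun n => by rw [hG]; exact hsel2 n _
  have hG0 : ∀ n k, 0 ≤ G n k := fun n k => WN_ge (hGm n) fun m _ => h0 m k
  have hG1 : ∀ n k, G n k ≤ 1 := fun n k => WN_le (hGm n) fun m _ => h1 m k
  have hGn : ∀ n, ‖G n‖ ≤ 1 := fun n => by
    rw [ContinuousMap.norm_le _ zero_le_one]
    intro k
    rw [Real.norm_eq_abs, abs_of_nonneg (hG0 n k)]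
    exact hG1 n k
  -- the limit
  have hdist : ∀ n, dist (H n) (H (n + 1)) ≤ 1 / 2 / 2 ^ n := by
    intro n
    rw [hHs', dist_eq_norm, sub_add_cancel_left, norm_neg, norm_smul, Real.norm_eq_abs,
      abs_of_nonneg (by positivity)]
    calc (1 / 2 : ℝ) ^ (n + 1) * ‖G n‖ ≤ (1 / 2 : ℝ) ^ (n + 1) * 1 :=
          mul_le_mul_of_nonneg_left (hGn n) (by positivity)
      _ = 1 / 2 / 2 ^ n := by rw [mul_one, pow_succ, one_div_pow]; ring
  obtain ⟨L, hL⟩ := cauchySeq_tendsto_of_complete (cauchySeq_of_le_geometric_two hdist)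
  obtain ⟨A, hA⟩ : ∃ A : ℕ → ℝ, A = fun n => ‖H n + (1 / 2 : ℝ) ^ n • G n‖ := ⟨_, rfl⟩
  have hAn : ∀ n, A n = ‖H n + (1 / 2 : ℝ) ^ n • G n‖ := fun n => by rw [hA]
  have hAstep : ∀ n, A n ≤ A (n + 1) + δ * (1 / 4 : ℝ) ^ n := by
    intro n
    have hmem : (1 / 2 : ℝ) • G n + (1 / 2 : ℝ) • G (n + 1) ∈ WNtail f n := by
      have h2 : G (n + 1) ∈ WNtail f n :=
        convexHull_mono (image_mono fun m (hm : n + 1 ≤ m) => (Nat.le_succ n).trans hm) (hGm (n + 1))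
      exact convex_convexHull ℝ _ (hGm n) h2 (by norm_num) (by norm_num) (by norm_num)
    have h3 := hG2 n _ hmem
    rw [hAn, hAn, hHs']
    have h4 : H n + (1 / 2 : ℝ) ^ n • ((1 / 2 : ℝ) • G n + (1 / 2 : ℝ) • G (n + 1))
        = H n + (1 / 2 : ℝ) ^ (n + 1) • G n + (1 / 2 : ℝ) ^ (n + 1) • G (n + 1) := by
      rw [smul_add, smul_smul, smul_smul, ← pow_succ, add_assoc]
    rw [h4] at h3
    exact h3
  have hAlim : Tendsto A atTop (𝓝 ‖L‖) := by
    have h2 : Tendsto (fun n => (1 / 2 : ℝ) ^ n • G n) atTop (𝓝 (0 : C(K, ℝ))) := by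
      rw [tendsto_zero_iff_norm_tendsto_zero]
      refine squeeze_zero (fun n => norm_nonneg _) (fun n => ?_)
        (tendsto_pow_atTop_nhds_zero_of_lt_one (r := (1 / 2 : ℝ)) (by norm_num) (by norm_num))
      rw [norm_smul, Real.norm_eq_abs, abs_of_nonneg (by positivity)]
      calc (1 / 2 : ℝ) ^ n * ‖G n‖ ≤ (1 / 2 : ℝ) ^ n * 1 :=
            mul_le_mul_of_nonneg_left (hGn n) (by positivity)
        _ = (1 / 2 : ℝ) ^ n := mul_one _
    have h3 := (hL.add h2).norm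
    rw [add_zero] at h3
    rw [hA]
    exact h3
  have hmono : Monotone fun n => A n - 2 * δ * (1 / 4 : ℝ) ^ n := by
    refine monotone_nat_of_le_succ fun n => ?_
    have h2 := hAstep n
    have h3 : (0 : ℝ) < (1 / 4 : ℝ) ^ n := by positivity
    rw [pow_succ]
    nlinarith
  have hAle : ∀ n, A n ≤ ‖L‖ + 2 * δ * (1 / 4 : ℝ) ^ n := by
    intro n
    have h2 : Tendsto (fun n => A n - 2 * δ * (1 / 4 : ℝ) ^ n) atTop (𝓝 ‖L‖) := by
      have h3 := hAlim.sub ((tendsto_pow_atTop_nhds_zero_of_lt_one (r := (1 / 4 : ℝ))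
        (by norm_num) (by norm_num)).const_mul (2 * δ))
      rw [mul_zero, sub_zero] at h3
      exact h3
    have h4 : A n - 2 * δ * (1 / 4 : ℝ) ^ n ≤ ‖L‖ := hmono.ge_of_tendsto h2 n
    linarith
  have hD : ∀ n, (1 / 2 : ℝ) ^ n * (M - 6 * δ) + 4 * δ * (1 / 4 : ℝ) ^ n ≤ ‖L‖ - ‖H n‖ := by
    intro n
    induction n with
    | zero =>
      have h2 : M ≤ A 0 := by
        rw [hAn, hH0, zero_add, pow_zero, one_smul]
        exact hconv _ (hGm 0)
      have h3 := hAle 0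
      rw [hH0, norm_zero]
      simp only [pow_zero] at h3 ⊢
      linarith
    | succ n ih =>
      have h2 : ‖H (n + 1)‖ ≤ (1 / 2 : ℝ) * ‖H n‖ + (1 / 2 : ℝ) * A n := by
        have h3 : H (n + 1) = (1 / 2 : ℝ) • H n + (1 / 2 : ℝ) • (H n + (1 / 2 : ℝ) ^ n • G n) := by
          rw [hHs', smul_add, smul_smul, ← add_assoc, ← add_smul, ← pow_succ']
          norm_num
        rw [h3, hAn]
        refine (norm_add_le _ _).trans (le_of_eq ?_)
        rw [norm_smul, norm_smul, Real.norm_eq_abs, abs_of_nonneg (by norm_num : (0 : ℝ) ≤ 1 / 2)]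
      have h3 := hAle n
      have h4 : (1 / 4 : ℝ) ^ (n + 1) = (1 / 4 : ℝ) ^ n * (1 / 4) := pow_succ _ _
      have h5 : (1 / 2 : ℝ) ^ (n + 1) = (1 / 2 : ℝ) ^ n * (1 / 2) := pow_succ _ _
      rw [h4, h5]
      nlinarith
  -- the point where the limit attains its maximum
  have hHnn : ∀ n k, 0 ≤ H n k := by
    intro n k
    induction n with
    | zero => rw [hH0]; exact le_rfl
    | succ n ih =>
      rw [hHs']
      show 0 ≤ H n k + (1 / 2 : ℝ) ^ (n + 1) * G n k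
      have := hG0 n k
      positivity
  have hLk : ∀ k, Tendsto (fun n => H n k) atTop (𝓝 (L k)) := fun k =>
    ((continuous_eval_const (F := C(K, ℝ)) k).tendsto L).comp hL
  have hLnn : ∀ k, 0 ≤ L k := fun k => ge_of_tendsto' (hLk k) fun n => hHnn n k
  obtain ⟨b, -, hb⟩ := isCompact_univ.exists_isMaxOn (univ_nonempty (α := K))
    L.continuous.continuousOn
  have hbn : ‖L‖ ≤ L b := by
    rw [ContinuousMap.norm_le _ (hLnn b)]
    intro k
    rw [Real.norm_eq_abs, abs_of_nonneg (hLnn k)]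
    exact hb (mem_univ k)
  obtain ⟨c, hc⟩ : ∃ c, c = (M - 6 * δ) / 2 := ⟨_, rfl⟩
  have hc0 : 0 < c := by rw [hc, hδ]; linarith
  obtain ⟨n, hn⟩ := hlim b c hc0
  have hGb : ∀ m, n ≤ m → G m b ≤ c := fun m hm => WN_le (hGm m) fun m' hm' => hn m' (hm.trans hm')
  have hHb : ∀ m, H (n + m) b ≤ H n b + ((1 / 2 : ℝ) ^ n - (1 / 2 : ℝ) ^ (n + m)) * c := by
    intro m
    induction m with
    | zero => simp
    | succ m ih =>
      rw [← add_assoc, hHs']
      show H (n + m) b + (1 / 2 : ℝ) ^ (n + m + 1) * G (n + m) b ≤ _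
      have h2 := hGb (n + m) (Nat.le_add_right _ _)
      have h3 : (0 : ℝ) < (1 / 2 : ℝ) ^ (n + m) := by positivity
      have h4 : (1 / 2 : ℝ) ^ (n + m + 1) = (1 / 2 : ℝ) ^ (n + m) * (1 / 2) := pow_succ _ _
      rw [h4]
      nlinarith
  have hLb : L b ≤ H n b + (1 / 2 : ℝ) ^ n * c := by
    refine le_of_tendsto' ((tendsto_add_atTop_iff_nat n).2 (hLk b)) fun m => ?_
    rw [add_comm m n]
    refine (hHb m).trans ?_
    have h3 : (0 : ℝ) < (1 / 2 : ℝ) ^ (n + m) := by positivity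
    nlinarith
  have hHn : H n b ≤ ‖H n‖ := (le_abs_self _).trans (ContinuousMap.norm_coe_le_norm (H n) b)
  have h2 := hD n
  have h3 : (0 : ℝ) < (1 / 2 : ℝ) ^ n := by positivity
  have h4 : (0 : ℝ) < (1 / 4 : ℝ) ^ n := by positivity
  have h5 : M - 6 * δ = 2 * c := by rw [hc]; ring
  rw [h5] at h2
  nlinarith [mul_pos h3 hc0, mul_pos hδ0 h4]

lemma WN_finite {K G : Type} [TopologicalSpace K] [CompactSpace K] (h : G → C(K, ℝ))
    (h0 : ∀ g k, 0 ≤ h g k) (h1 : ∀ g k, h g k ≤ 1) (hc : ∀ k, ∀ ε > 0, {g | ε ≤ h g k}.Finite)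
    (Λ : C(K, ℝ) →L[ℝ] ℝ) {η : ℝ} (hη : 0 < η) : {g | η ≤ Λ (h g)}.Finite := by
  by_contra hinf
  have hinf' : {g | η ≤ Λ (h g)}.Infinite := hinf
  have hK : Nonempty K := by
    by_contra hK
    rw [not_nonempty_iff] at hK
    obtain ⟨g, hg⟩ := hinf'.nonempty
    have h2 : h g = 0 := by
      ext k
      exact (hK.false k).elim
    have h3 : η ≤ Λ (h g) := hg
    rw [h2, map_zero] at h3
    linarith
  let s : ℕ ↪ {g | η ≤ Λ (h g)} := hinf'.natEmbedding
  refine WN_simons (fun n => h (s n)) (fun n k => h0 _ k) (fun n k => h1 _ k) ?_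
    (M := η / (‖Λ‖ + 1)) (by positivity) ?_
  · intro k c hc0
    have h2 : {n : ℕ | c ≤ h (s n) k}.Finite := by
      refine (hc k c hc0).preimage (f := fun n : ℕ => (s n : G)) ?_
      intro a _ b _ hab
      exact s.injective (Subtype.ext hab)
    obtain ⟨n, hn⟩ := h2.bddAbove
    refine ⟨n + 1, fun m hm => ?_⟩
    by_contra hlt
    have h3 : m ≤ n := hn (show c ≤ h (s m) k from (not_le.1 hlt).le)
    omega
  · intro g hg
    have h2 : WNtail (fun n => h (s n)) 0 ⊆ {g | η ≤ Λ g} := by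
      refine convexHull_min ?_ ?_
      · rintro _ ⟨m, -, rfl⟩
        exact (s m).2
      · intro x hx y hy a b ha hb hab
        simp only [mem_ofPred_eq] at hx hy ⊢
        rw [map_add, map_smul, map_smul, smul_eq_mul, smul_eq_mul]
        have h3 : a * η + b * η ≤ a * Λ x + b * Λ y :=
          add_le_add (mul_le_mul_of_nonneg_left hx ha) (mul_le_mul_of_nonneg_left hy hb)
        rw [← add_mul, hab, one_mul] at h3
        exact h3
    have h3 : η ≤ Λ g := h2 hg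
    have h4 : Λ g ≤ ‖Λ‖ * ‖g‖ := (le_abs_self _).trans (Λ.le_opNorm g)
    rw [div_le_iff₀ (by positivity)]
    nlinarith [norm_nonneg g]

/-- Row WN. A bounded family of continuous functions which is pointwise `c₀`: every functional
vanishes on all but countably many members. -/
theorem countable_ne_zero {K G : Type} [TopologicalSpace K] [CompactSpace K] (h : G → C(K, ℝ))
    (h0 : ∀ g k, 0 ≤ h g k) (h1 : ∀ g k, h g k ≤ 1) (hc : ∀ k, ∀ ε > 0, {g | ε ≤ h g k}.Finite)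
    (Λ : C(K, ℝ) →L[ℝ] ℝ) : {g | Λ (h g) ≠ 0}.Countable := by
  have h2 : {g | Λ (h g) ≠ 0} ⊆ ⋃ n : ℕ, ({g | 1 / ((n : ℝ) + 1) ≤ Λ (h g)} ∪
      {g | 1 / ((n : ℝ) + 1) ≤ (-Λ) (h g)}) := by
    intro γ hγ
    obtain ⟨n, hn⟩ := exists_nat_one_div_lt (abs_pos.2 hγ)
    refine mem_iUnion.2 ⟨n, ?_⟩
    rcases le_or_gt 0 (Λ (h γ)) with h3 | h3
    · left; rw [abs_of_nonneg h3] at hn; exact hn.le
    · right; rw [abs_of_neg h3] at hn; exact hn.le
  refine (countable_iUnion fun n => ?_).mono h2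
  exact (WN_finite h h0 h1 hc Λ (by positivity)).countable.union
    (WN_finite h h0 h1 hc (-Λ) (by positivity)).countable

end Pool.Agent.EB
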