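import Pool.Agent.Lib.EB.AL
import Pool.Agent.Lib.EB.HUnif
import Pool.Agent.Lib.EB.HWN
import Pool.Agent.Lib.EB.HMc
import Pool.Agent.Lib.EB.Big

/-!
# Part H: the principle implies the negative answer
-/

set_option autoImplicit false

open MeasureTheory Set

namespace Pool.Agent.EB

open Pool.Agent.Lib.MP_9f8c44_an

/-- The normalised positive (`b = true`) or negative part. -/
noncomputable def nrm {K : Type} [TopologicalSpace K] [CompactSpace K] (h : C(K, ℝ)) (b : Bool) :
    C(K, ℝ) where
  toFun := fun k => max (if b then h k else -h k) 0 / (1 + ‖h‖)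
  continuous_toFun := by
    cases b
    · simp only [Bool.false_eq_true, if_false]
      fun_prop
    · simp only [if_true]
      fun_prop

lemma nrm_apply {K : Type} [TopologicalSpace K] [CompactSpace K] (h : C(K, ℝ)) (b : Bool)
    (k : K) : nrm h b k = max (if b then h k else -h k) 0 / (1 + ‖h‖) := rfl

lemma nrm_nonneg {K : Type} [TopologicalSpace K] [CompactSpace K] (h : C(K, ℝ)) (b : Bool)
    (k : K) : 0 ≤ nrm h b k := by
  rw [nrm_apply]
  positivity

lemma nrm_le_one {K : Type} [TopologicalSpace K] [CompactSpace K] (h : C(K, ℝ)) (b : Bool)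
    (k : K) : nrm h b k ≤ 1 := by
  have h0 : 0 < 1 + ‖h‖ := by positivity
  rw [nrm_apply, div_le_one h0]
  have h1 : |h k| ≤ ‖h‖ := h.norm_coe_le_norm k
  have h2 := abs_le.1 h1
  refine max_le ?_ h0.le
  cases b
  · simp only [Bool.false_eq_true, if_false]
    linarith
  · simp only [if_true]
    linarith

lemma nrm_le_abs {K : Type} [TopologicalSpace K] [CompactSpace K] (h : C(K, ℝ)) (b : Bool)
    (k : K) : nrm h b k ≤ |h k| := by
  have h0 : 1 ≤ 1 + ‖h‖ := by
    have := norm_nonneg h
    linarith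
  rw [nrm_apply]
  refine (div_le_self (le_max_right _ _) h0).trans (max_le ?_ (abs_nonneg _))
  cases b
  · simp only [Bool.false_eq_true, if_false]
    exact neg_le_abs _
  · simp only [if_true]
    exact le_abs_self _

lemma eq_of_nrm {K : Type} [TopologicalSpace K] [CompactSpace K] (h : C(K, ℝ)) {k k' : K}
    (hk : ∀ b, nrm h b k = nrm h b k') : h k = h k' := by
  have h0 : (1 + ‖h‖) ≠ 0 := by positivity
  have h1 := hk true
  have h2 := hk false
  rw [nrm_apply, nrm_apply, div_left_inj' h0] at h1 h2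
  simp only [if_true, Bool.false_eq_true, if_false] at h1 h2
  rcases le_total 0 (h k) with h3 | h3 <;> rcases le_total 0 (h k') with h4 | h4
  · rwa [max_eq_left h3, max_eq_left h4] at h1
  · rw [max_eq_left h3, max_eq_right h4] at h1
    rw [max_eq_right (by linarith), max_eq_left (by linarith)] at h2
    linarith
  · rw [max_eq_right h3, max_eq_left h4] at h1
    rw [max_eq_left (by linarith), max_eq_right (by linarith)] at h2
    linarith
  · rw [max_eq_left (by linarith), max_eq_left (by linarith)] at h2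
    linarith

/-- The principle implies: every Eberlein compact space which is not uniform Eberlein has a Pettis
integrable function which is not McShane integrable. -/
theorem no_of_MCFT (hno : MCFT) (K : Type) [TopologicalSpace K] [CompactSpace K]
    (h : IsEberlein K) (h' : ¬ IsUniformEberlein K) : ¬ PettisEqMcShane K := by
  classical
  obtain ⟨X, i1, i2, i3, e, he⟩ := h
  obtain ⟨G₀, g₀, hsep₀, hc₀⟩ := AL e he.continuous he.injective
  let h : G₀ × Bool → C(K, ℝ) := fun g => nrm (g₀ g.1) g.2
  have h0 : ∀ g k, 0 ≤ h g k := fun g k => nrm_nonneg _ _ _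
  have h1 : ∀ g k, h g k ≤ 1 := fun g k => nrm_le_one _ _ _
  have hsep : ∀ k k', (∀ g, h g k = h g k') → k = k' := fun k k' hk =>
    hsep₀ k k' fun g => eq_of_nrm (g₀ g) fun b => hk (g, b)
  have hc : ∀ k, ∀ ε > 0, {g | ε ≤ h g k}.Finite := by
    intro k ε hε
    refine ((hc₀ k ε hε).prod (Set.finite_univ (α := Bool))).subset ?_
    rintro ⟨g, b⟩ hg
    exact ⟨le_trans hg (nrm_le_abs _ _ _), mem_univ _⟩
  by_contra hcon
  apply h'
  refine uniform_of_sig h h0 h1 hsep fun q => ?_
  rcases hno (G₀ × Bool) {A | ∃ k, ∀ g ∈ A, 1 / ((q : ℝ) + 1) ≤ h g k} with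
    ⟨R, hR, hb⟩ | ⟨Y, t, ht, hbig⟩
  · choose c hcR using hR
    refine ⟨c, fun A hA n => ?_⟩
    refine le_trans ?_ (hb n A hA)
    rw [← Set.ncard_coe_finset]
    refine Set.ncard_le_ncard ?_ ?_
    · intro x hx
      have hx' := Finset.mem_filter.1 (Finset.mem_coe.1 hx)
      exact ⟨hx'.1, hx'.2 ▸ hcR x⟩
    · exact A.finite_toSet.subset fun x hx => hx.1
  · exfalso
    refine not_mcshane h h0 h1 (countable_ne_zero h h0 h1 hc) Y (fun x n => t x n = true)
      (fun x hx y hy hxy => ht hx hy ?_) (q := 1 / ((q : ℝ) + 1)) (by positivity) (fun d => ?_) hcon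
    · funext n
      exact Bool.eq_iff_iff.2 (iff_of_eq (congrFun hxy n))
    · obtain ⟨A, hA, hAY, hB⟩ := hbig d
      exact ⟨A, hA, hAY, (covers_iff_big A t d).2 hB⟩

end Pool.Agent.EB
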