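import Pool.Agent.Lib.EB.NA

/-!
# MP_9f8c44_an, N-side: the hull model satisfies the principle
-/

set_option autoImplicit false
set_option linter.unusedSectionVars false

open Set

namespace Pool.Agent.EB

open Pool.MP_3ade05_lc Pool.PC

variable {P : Type 1} [Preorder P]

lemma filt_fin {H : Set P} (hH : IsFilt H) {S : Type} (K : Finset S) (Q : S → P → Prop)
    (hQ : ∀ k s q, Q k s → q ≤ s → Q k q) (h : ∀ k ∈ K, ∃ s ∈ H, Q k s) {q : P} (hq : q ∈ H) :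
    ∃ s ∈ H, s ≤ q ∧ ∀ k ∈ K, Q k s := by
  classical
  induction K using Finset.induction_on with
  | empty => exact ⟨q, hq, le_rfl, by simp⟩
  | insert a K _ ih =>
    obtain ⟨s, hs, h1, h2⟩ := ih fun k hk => h k (Finset.mem_insert_of_mem hk)
    obtain ⟨s', hs', h3⟩ := h a (Finset.mem_insert_self _ _)
    obtain ⟨r, hr, h4, h5⟩ := hH.dir s hs s' hs'
    refine ⟨r, hr, h4.trans h1, fun k hk => ?_⟩
    rcases Finset.mem_insert.1 hk with rfl | hk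
    · exact hQ _ _ _ h3 h5
    · exact hQ _ _ _ (h2 k hk) h4

/-- The first alternative. -/
theorem Ev.sig : Ev (P := P) (fun U H => ∀ γ ∈ U, ∀ τ ∈ U,
    (∀ A ∈ Name.val U H τ, A ⊆ Name.val U H γ ∧ {x | x ∈ A}.Finite) →
    ∀ (D : γ.ι → ℕ → LowerSet P), RN γ D ∈ U →
      (∃ q ∈ H, IsSig (Ph γ τ) q D) →
      (∀ x ∈ Name.val U H γ, ∃ n, ZFSet.pair (num n) x ∈ Name.val U H (RN γ D)) ∧
        ∀ n, ∀ A ∈ Name.val U H τ,
          {x | x ∈ A ∧ ZFSet.pair (num n) x ∈ Name.val U H (RN γ D)}.ncard ≤ n) := by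
  classical
  have h3 := Ev.gen' (P := P) (n := 3) (fun v s => ∃ D : (v 0).ι → ℕ → LowerSet P,
    v 1 = RN (v 0) D ∧ ∃ k n, v 2 = (v 0).A k ∧ Lst (v 0) k s ∧ s ∈ D k n)
  refine ((Ev.nb (P := P)).and h3).mono ?_
  rintro U H ⟨hB, g⟩ γ hγ τ hτ hF D hD ⟨q, hq, hS⟩
  constructor
  · intro x hx
    obtain ⟨k, hk, ⟨s₀, hs₀, hL⟩, rfl⟩ := hB.rep γ hγ x hx
    have hv : ∀ i, (![γ, RN γ D, γ.A k] : Fin 3 → Name P) i ∈ U := by
      intro i; fin_cases i; exacts [hγ, hD, hk]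
    rcases g _ hv with ⟨s, hs, D', hD', k', n, he, hL', hn⟩ | ⟨p, hp, hn⟩
    · have hD'' : RN γ D = RN γ D' := hD'
      have he' : γ.A k = γ.A k' := he
      have h4 := RN_injective hD''.symm hL' hn
      refine ⟨n, ?_⟩
      rw [he']
      exact (pair_mem_RN hB (he' ▸ hk) hs hL' n).2 ⟨s, hs, h4⟩
    · exfalso
      obtain ⟨r, _, h4, h5, h6⟩ := hB.filt.dir3 hp hq hs₀
      obtain ⟨s, hs, n, hn'⟩ := hS.cov k r h5
      exact hn s (hs.trans h4) ⟨D, rfl, k, n, rfl, hL.mono (hs.trans h6), hn'⟩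
  · intro n A hA
    obtain ⟨hA1, hA2⟩ := hF A hA
    have hc : ∀ x : {x // x ∈ A}, ∃ k, γ.A k ∈ U ∧ (∃ s ∈ H, Lst γ k s) ∧
        (x : ZFSet) = Name.val U H (γ.A k) := fun x => hB.rep γ hγ x (hA1 x.2)
    choose κ hκ1 hκ2 hκ3 using hc
    have hfin : Finite {x // x ∈ A} := hA2
    haveI : Fintype {x // x ∈ A} := Fintype.ofFinite _
    let K : Finset γ.ι := Finset.univ.image κ
    have hK : ∀ k ∈ K, ∃ x : {x // x ∈ A}, κ x = k := by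
      intro k hk
      simpa [K] using hk
    have hKU : ∀ k ∈ K, γ.A k ∈ U := by
      intro k hk
      obtain ⟨x, rfl⟩ := hK k hk
      exact hκ1 x
    have hKL : ∀ k ∈ K, ∃ s ∈ H, Lst γ k s := by
      intro k hk
      obtain ⟨x, rfl⟩ := hK k hk
      exact hκ2 x
    have hnm : nm γ K ∈ U := hB.nmc γ K hKU
    have hval : Name.val U H (nm γ K) = A := by
      ext x
      rw [mem_val_nm hB hKU]
      constructor
      · rintro ⟨k, hk, rfl⟩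
        obtain ⟨y, rfl⟩ := hK k hk
        rw [← hκ3 y]
        exact y.2
      · intro hx
        exact ⟨κ ⟨x, hx⟩, Finset.mem_image_of_mem _ (Finset.mem_univ _), hκ3 ⟨x, hx⟩⟩
    rw [← hval] at hA
    obtain ⟨p, hp, hf⟩ := (Name.val_mem_iff hB.full.at' hnm hτ).1 hA
    let K' : Finset γ.ι := K.filter
      (fun k => ZFSet.pair (num n) (Name.val U H (γ.A k)) ∈ Name.val U H (RN γ D))
    obtain ⟨s₁, hs₁, h1, h2⟩ := filt_fin hB.filt K (fun k s => Lst γ k s)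
      (fun k s q h hq => h.mono hq) hKL hq
    obtain ⟨s₂, hs₂, h3, h4⟩ := filt_fin hB.filt K' (fun k s => s ∈ D k n)
      (fun k s q h hq => (D k n).lower hq h) (fun k hk => by
        obtain ⟨hk1, hk2⟩ := Finset.mem_filter.1 hk
        obtain ⟨s, hs, hL⟩ := hKL k hk1
        exact (pair_mem_RN hB (hKU k hk1) hs hL n).1 hk2) hs₁
    obtain ⟨s, hs, h5, h6⟩ := hB.filt.dir s₂ hs₂ p hp
    have h7 := hS.bdd s ((h5.trans h3).trans h1) K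
      ⟨fun k hk => (h2 k hk).mono (h5.trans h3), Name.fmem_mono hf h6⟩ K'
      (Finset.filter_subset _ _) n (fun k hk => (D k n).lower h5 (h4 k hk))
    refine le_trans ?_ h7
    have h8 : {x | x ∈ A ∧ ZFSet.pair (num n) x ∈ Name.val U H (RN γ D)} ⊆
        (fun k => Name.val U H (γ.A k)) '' (K' : Set γ.ι) := by
      rintro x ⟨hx, hx'⟩
      refine ⟨κ ⟨x, hx⟩, ?_, (hκ3 ⟨x, hx⟩).symm⟩
      rw [Finset.mem_coe, Finset.mem_filter, ← hκ3 ⟨x, hx⟩]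
      exact ⟨Finset.mem_image_of_mem _ (Finset.mem_univ _), hx'⟩
    refine (Set.ncard_le_ncard h8 ((Finset.finite_toSet K').image _)).trans ?_
    refine (Set.ncard_image_le (Finset.finite_toSet K')).trans ?_
    rw [Set.ncard_coe_finset]

lemma bits_eq {U : Set (Name P)} {H : Set P} (hB : NB U H) {γ : Name P}
    {B : γ.ι → ℕ → LowerSet P} {k : γ.ι} (hk : γ.A k ∈ U) {s : P} (hs : s ∈ H)
    (hL : Lst γ k s) {n : ℕ} {b : Bool} (hd : Dec (B k n) s b) :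
    bits (Name.val U H (RN γ B)) (Name.val U H (γ.A k)) n = b := by
  classical
  have h1 := pair_mem_RN hB (D := B) hk hs hL n
  unfold bits
  rcases hd with ⟨rfl, h⟩ | ⟨rfl, h⟩
  · exact decide_eq_true (h1.2 ⟨s, hs, h⟩)
  · refine decide_eq_false fun h2 => ?_
    obtain ⟨p, hp, hpB⟩ := h1.1 h2
    obtain ⟨r, _, h3, h4⟩ := hB.filt.dir s hs p hp
    exact h r h3 ((B k n).lower h4 hpB)

/-- The second alternative: the map is injective. -/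
theorem Ev.phi_inj : Ev (P := P) (fun U H => ∀ γ ∈ U, ∀ τ ∈ U,
    ∀ (X : Set γ.ι) (B : γ.ι → ℕ → LowerSet P), XN γ X ∈ U → RN γ B ∈ U →
      (∃ q ∈ H, IsPhi (Ph γ τ) q X B) →
      ∀ x ∈ Name.val U H (XN γ X), ∀ y ∈ Name.val U H (XN γ X),
        bits (Name.val U H (RN γ B)) x = bits (Name.val U H (RN γ B)) y → x = y) := by
  have h3 := Ev.gen' (P := P) (n := 4) (fun v s => ∃ B : (v 0).ι → ℕ → LowerSet P,
    v 1 = RN (v 0) B ∧ ∃ k k' n b, v 2 = (v 0).A k ∧ v 3 = (v 0).A k' ∧ Lst (v 0) k s ∧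
      Lst (v 0) k' s ∧ Dec (B k n) s b ∧ Dec (B k' n) s (!b))
  refine ((Ev.nb (P := P)).and h3).mono ?_
  rintro U H ⟨hB, g⟩ γ hγ τ hτ X B hX hBU ⟨q, hq, hS⟩ x hx y hy hxy
  obtain ⟨k, hkX, hk, ⟨s₀, hs₀, hL⟩, rfl⟩ := (mem_val_XN hB).1 hx
  obtain ⟨k', hkX', hk', ⟨s₁, hs₁, hL'⟩, rfl⟩ := (mem_val_XN hB).1 hy
  by_contra hne
  have hkk : k ≠ k' := by
    rintro rfl
    exact hne rfl
  have hv : ∀ i, (![γ, RN γ B, γ.A k, γ.A k'] : Fin 4 → Name P) i ∈ U := by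
    intro i; fin_cases i; exacts [hγ, hBU, hk, hk']
  rcases g _ hv with ⟨s, hs, B', hB', k₁, k₂, n, b, he, he', h1, h2, h4, h5⟩ | ⟨p, hp, hn⟩
  · have hB'' : RN γ B = RN γ B' := hB'
    have he1 : γ.A k = γ.A k₁ := he
    have he2 : γ.A k' = γ.A k₂ := he'
    rw [hB'', he1, he2] at hxy
    have h6 := congrFun hxy n
    have h7 : bits (Name.val U H (RN γ B')) (Name.val U H (γ.A k₁)) n = b :=
      bits_eq hB (he1 ▸ hk) hs h1 h4
    have h8 : bits (Name.val U H (RN γ B')) (Name.val U H (γ.A k₂)) n = !b :=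
      bits_eq hB (he2 ▸ hk') hs h2 h5
    rw [h7, h8] at h6
    cases b <;> simp at h6
  · obtain ⟨r, hr, h4, h5, h6⟩ := hB.filt.dir3 hp hq hs₀
    obtain ⟨r', _, h7, h8⟩ := hB.filt.dir r hr s₁ hs₁
    obtain ⟨s, hs, n, b, h9, h10⟩ := hS.inj k hkX k' hkX' hkk r' (h7.trans h5)
    exact hn s (hs.trans (h7.trans h4)) ⟨B, rfl, k, k', n, b, rfl, rfl,
      hL.mono (hs.trans (h7.trans h6)), hL'.mono (hs.trans h8), h9, h10⟩

/-- Totality of a name for a function is forced. -/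
lemma Ev.total : Ev (P := P) (fun U H => ∀ (γ : Name P) (X : Set γ.ι), XN γ X ∈ U → ∀ μ ∈ U,
    (∀ x ∈ Name.val U H (XN γ X), ∃ n, ZFSet.pair x (num n) ∈ Name.val U H μ) →
    ∃ r ∈ H, ∀ s ≤ r, ∀ k ∈ X, Lst γ k s → ∃ s' ≤ s, ∃ n : ℕ,
      Name.fmem (oN (γ.A k) (ordN P n)) μ s') := by
  have h3 := Ev.gen (P := P) (n := 2) (fun v s ρ => ∃ j : (v 0).ι, ρ = (v 0).A j ∧
    s ∈ (v 0).c j ∧ ∀ s' ≤ s, ∀ n : ℕ, ¬ Name.fmem (oN ρ (ordN P n)) (v 1) s')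
  refine ((Ev.nb (P := P)).and h3).mono ?_
  rintro U H ⟨hB, g⟩ γ X hX μ hμ ht
  rcases g ![XN γ X, μ] (Name.forall2 hX hμ) with ⟨s, hs, ρ, hρ, j, rfl, hj, hn⟩ | ⟨p, hp, hn⟩
  · exfalso
    have h1 : Name.val U H (γ.A j) ∈ Name.val U H (XN γ X) :=
      Name.mem_val.2 ⟨j, hρ, ⟨s, hs, hj⟩, rfl⟩
    obtain ⟨n, hn'⟩ := ht _ h1
    have hρ' : γ.A j ∈ U := hρ
    rw [← val_ordN_nat hB.toBase n, ← val_oN hB.toBase hρ' (hB.nat n)] at hn'
    obtain ⟨p, hp, hf⟩ := (Name.val_mem_iff hB.full.at'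
      (oN_mem hB.toBase hρ' (hB.nat n)) hμ).1 hn'
    obtain ⟨r, _, h2, h3⟩ := hB.filt.dir s hs p hp
    exact hn r h2 n (Name.fmem_mono hf h3)
  · refine ⟨p, hp, fun s hs k hk hL => ?_⟩
    by_contra hcon
    push Not at hcon
    exact hn s hs _ ⟨k, rfl, ⟨hk, hL⟩, hcon⟩

/-- The second alternative: the main property. -/
theorem Ev.phi_big : Ev (P := P) (fun U H => ∀ γ ∈ U, ∀ τ ∈ U,
    ∀ (X : Set γ.ι) (B : γ.ι → ℕ → LowerSet P), XN γ X ∈ U → RN γ B ∈ U →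
      (∃ q ∈ H, IsPhi (Ph γ τ) q X B) →
      ∀ μ ∈ U, FunOn (Name.val U H μ) (Name.val U H (XN γ X)) →
        (∀ x ∈ Name.val U H (XN γ X), ∃ n, ZFSet.pair x (num n) ∈ Name.val U H μ) →
        ∃ A ∈ Name.val U H τ, A ⊆ Name.val U H (XN γ X) ∧
          Big {z | ∃ x ∈ A, ∃ n, ZFSet.pair x (num n) ∈ Name.val U H μ ∧
            z ∈ cyl (bits (Name.val U H (RN γ B)) x) n}) := by
  have h3 := Ev.gen (P := P) (n := 5) (fun v s ρ => ∃ (X : Set (v 0).ι)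
    (B : (v 0).ι → ℕ → LowerSet P), v 2 = XN (v 0) X ∧ v 3 = RN (v 0) B ∧
    ∃ K : Finset (v 0).ι, ρ = nm (v 0) K ∧ (K : Set (v 0).ι) ⊆ X ∧ s ∈ Ph (v 0) (v 1) K ∧
      ∃ (m : (v 0).ι → ℕ) (σ : (v 0).ι → ℕ → Bool),
        (∀ k ∈ K, Name.fmem (oN ((v 0).A k) (ordN P (m k))) (v 4) s ∧
          ∀ n < m k, Dec (B k n) s (σ k n)) ∧ Big {z | ∃ k ∈ K, z ∈ cyl (σ k) (m k)})
  refine ((Ev.nb (P := P)).and (h3.and Ev.total)).mono ?_
  rintro U H ⟨hB, g, htot⟩ γ hγ τ hτ X B hX hBU ⟨q, hq, hS⟩ μ hμ hfun ht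
  have hv : ∀ i, (![γ, τ, XN γ X, RN γ B, μ] : Fin 5 → Name P) i ∈ U := by
    intro i; fin_cases i; exacts [hγ, hτ, hX, hBU, hμ]
  rcases g _ hv with ⟨s, hs, ρ, hρ, X', B', hX', hB', K, hK, hKX, hPh, m, σ, h1, h2⟩ | ⟨p, hp, hn⟩
  · have hX'' : XN γ X = XN γ X' := hX'
    have hB'' : RN γ B = RN γ B' := hB'
    have hK' : ρ = nm γ K := hK
    subst hK'
    have hKU : ∀ k ∈ K, γ.A k ∈ U := hB.nmd γ K hρ
    have hL : ∀ k ∈ K, Lst γ k s := hPh.1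
    have hfm : Name.fmem (nm γ K) τ s := hPh.2
    have hsub : ∀ k ∈ K, Name.val U H (γ.A k) ∈ Name.val U H (XN γ X) := fun k hk =>
      (mem_val_XN hB).2 ⟨k, XN_injective hX''.symm (hL k hk) (hKX hk), hKU k hk,
        ⟨s, hs, hL k hk⟩, rfl⟩
    have hm : ∀ k ∈ K, ∀ n : ℕ,
        ZFSet.pair (Name.val U H (γ.A k)) (num n) ∈ Name.val U H μ ↔ n = m k := by
      intro k hk n
      have h4 : ZFSet.pair (Name.val U H (γ.A k)) (num (m k)) ∈ Name.val U H μ := by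
        rw [← val_ordN_nat hB.toBase (m k), ← val_oN hB.toBase (hKU k hk) (hB.nat _)]
        exact (Name.val_mem_iff hB.full.at' (oN_mem hB.toBase (hKU k hk) (hB.nat _)) hμ).2
          ⟨s, hs, (h1 k hk).1⟩
      constructor
      · intro h5
        obtain ⟨y, _, hy⟩ := hfun.2 _ (hsub k hk)
        exact num_injective hB.toBase ((hy _ h5).trans (hy _ h4).symm)
      · rintro rfl
        exact h4
    have hcyl : ∀ k ∈ K, cyl (bits (Name.val U H (RN γ B)) (Name.val U H (γ.A k))) (m k) =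
        cyl (σ k) (m k) := by
      intro k hk
      ext z
      rw [hB'']
      refine forall₂_congr fun i hi => ?_
      rw [bits_eq hB (hKU k hk) hs (hL k hk) ((h1 k hk).2 i hi)]
    refine ⟨Name.val U H (nm γ K),
      (Name.val_mem_iff hB.full.at' hρ hτ).2 ⟨s, hs, hfm⟩, ?_, ?_⟩
    · intro x hx
      obtain ⟨k, hk, rfl⟩ := (mem_val_nm hB hKU).1 hx
      exact hsub k hk
    · convert h2 using 1
      ext z
      constructor
      · rintro ⟨x, hx, n, hn, hz⟩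
        obtain ⟨k, hk, rfl⟩ := (mem_val_nm hB hKU).1 hx
        have hn' := (hm k hk n).1 hn
        subst hn'
        have hz' : z ∈ cyl (σ k) (m k) := by
          rw [← hcyl k hk]
          exact hz
        exact ⟨k, hk, hz'⟩
      · rintro ⟨k, hk, hz⟩
        have hz' : z ∈ cyl (bits (Name.val U H (RN γ B)) (Name.val U H (γ.A k))) (m k) := by
          rw [hcyl k hk]
          exact hz
        exact ⟨_, (mem_val_nm hB hKU).2 ⟨k, hk, rfl⟩, m k, (hm k hk _).2 rfl, hz'⟩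
  · exfalso
    obtain ⟨r₀, hr₀, htot'⟩ := htot γ X hX μ hμ ht
    obtain ⟨r, _, h4, h5, h6⟩ := hB.filt.dir3 hp hq hr₀
    let M : γ.ι → ℕ → LowerSet P := fun k n =>
      ⟨{s | Name.fmem (oN (γ.A k) (ordN P n)) μ s ∨ ∀ s' ≤ s, ¬ Lst γ k s'}, fun a b hba h => by
        rcases h with h | h
        · exact Or.inl (Name.fmem_mono h hba)
        · exact Or.inr fun s' hs' => h s' (hs'.trans hba)⟩
    obtain ⟨s, hs, K, hKX, hPh, m, σ, h7, h8⟩ := hS.big r h5 M (by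
      intro k hk r' hr'
      by_cases hex : ∃ s ≤ r', Lst γ k s
      · obtain ⟨s, hs, hL⟩ := hex
        obtain ⟨s', hs', n, hf⟩ := htot' s (hs.trans (hr'.trans h6)) k hk hL
        exact ⟨s', hs'.trans hs, n, Or.inl hf⟩
      · push Not at hex
        exact ⟨r', le_rfl, 0, Or.inr hex⟩)
    refine hn s (hs.trans h4) (nm γ K) ⟨X, B, rfl, rfl, K, rfl, hKX, hPh, m, σ,
      fun k hk => ⟨?_, (h7 k hk).2⟩, h8⟩
    rcases (h7 k hk).1 with h9 | h9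
    · exact h9
    · exact absurd (hPh.1 k hk) (h9 s le_rfl)

/-- The hull model satisfies the principle. -/
theorem Ev.mcf (hV : VSide P) : Ev (P := P) (fun U H => MCFV (MM U H)) := by
  have h1 := Ev.gen (P := P) (n := 2) (fun v q ρ => ∃ (X : Set (v 0).ι)
    (B : (v 0).ι → ℕ → LowerSet P), ρ = oN (XN (v 0) X) (RN (v 0) B) ∧
      IsPhi (Ph (v 0) (v 1)) q X B)
  have h2 := Ev.gen (P := P) (n := 2) (fun v q ρ => ∃ (D : (v 0).ι → ℕ → LowerSet P),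
    ρ = RN (v 0) D ∧ IsSig (Ph (v 0) (v 1)) q D)
  refine (((Ev.nb (P := P)).and (h1.and h2)).and
    (Ev.sig.and (Ev.phi_inj.and Ev.phi_big))).mono ?_
  rintro U H ⟨⟨hB, g1, g2⟩, hs, hi, hb⟩ G hG F hF hFG
  obtain ⟨γ, -, hγ, rfl⟩ := hG
  obtain ⟨τ, -, hτ, rfl⟩ := hF
  rcases g1 ![γ, τ] (Name.forall2 hγ hτ) with ⟨q, hq, ρ, hρ, X, B, hρ', hS⟩ | ⟨p₁, hp₁, hn₁⟩
  · right
    have hρ'' : ρ = oN (XN γ X) (RN γ B) := hρ'
    subst hρ''
    obtain ⟨hX, hBU⟩ := hB.parts _ _ hρ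
    refine ⟨_, ⟨XN γ X, mem_univ _, hX, rfl⟩, _, ⟨RN γ B, mem_univ _, hBU, rfl⟩, ?_,
      hi γ hγ τ hτ X B hX hBU ⟨q, hq, hS⟩, ?_⟩
    · intro x hx
      obtain ⟨k, _, hk, ⟨s, hs, hL⟩, rfl⟩ := (mem_val_XN hB).1 hx
      exact Name.mem_val.2 ⟨k, hk, ⟨s, hs, hL.1⟩, rfl⟩
    · rintro m ⟨μ, -, hμ, rfl⟩ hfun ht
      exact hb γ hγ τ hτ X B hX hBU ⟨q, hq, hS⟩ μ hμ hfun ht
  · left
    rcases g2 ![γ, τ] (Name.forall2 hγ hτ) with ⟨q, hq, ρ, hρ, D, hρ', hS⟩ | ⟨p₂, hp₂, hn₂⟩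
    · have hρ'' : ρ = RN γ D := hρ'
      subst hρ''
      obtain ⟨h3, h4⟩ := hs γ hγ τ hτ hFG D hρ ⟨q, hq, hS⟩
      exact ⟨_, ⟨RN γ D, mem_univ _, hρ, rfl⟩, h3, h4⟩
    · exfalso
      obtain ⟨r, _, h3, h4⟩ := hB.filt.dir p₁ hp₁ p₂ hp₂
      rcases hV γ.ι (Ph γ τ) r with ⟨q, hq, X, B, h⟩ | ⟨q, hq, D, h⟩
      · exact hn₁ q (hq.trans h3) _ ⟨X, B, rfl, h⟩
      · exact hn₂ q (hq.trans h4) _ ⟨D, rfl, h⟩

/-- The N-side theorem. -/
theorem nside (P : Type 1) [Preorder P] [Nonempty P] [Small.{0} P] (hV : VSide P) :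
    ∃ V : Set ZFSet.{0}, V.Countable ∧ (∀ x ∈ V, ∀ y ∈ x, y ∈ V) ∧ ZFCModel V ∧ MCFV V := by
  obtain ⟨U, H, hU, hH, -, ⟨q1, q2⟩, q3⟩ :=
    (((Ev.zf (P := P)).and (Ev.choice (P := P))).and (Ev.mcf hV)).exists_hull
      (Classical.arbitrary P)
  exact ⟨MM U H, MM_countable hU, fun x hx y hy => MM_trans hx hy, ⟨q1, q2⟩, q3⟩

end Pool.Agent.EB
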