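import Pool.Agent.Lib.EB.VFin
import Pool.Agent.Lib.EB.NS
import Pool.Agent.Lib.EB.HMain
import Pool.Agent.Lib.MP_9f8c44_an.Main

/-!
# MP_9f8c44_an: the question is independent of ZFC
-/

set_option autoImplicit false

open Cardinal Set

namespace Pool.Agent.EB

open Pool.Agent.Lib.MP_9f8c44_an

/-- The question: there is an Eberlein compact space `K` which is not uniform Eberlein such that
every Pettis integrable function `[0,1] → C(K)` is McShane integrable. -/
def Question : Prop :=
  ∃ (K : Type) (_ : TopologicalSpace K) (_ : CompactSpace K) (_ : T2Space K),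
    IsEberlein K ∧ ¬ IsUniformEberlein K ∧ PettisEqMcShane K

theorem question_of_add (h : AlephOneNullUnions) : Question := by
  obtain ⟨K, i1, i2, i3, -, h1, h2, h3⟩ := Pool.Agent.Lib.MP_9f8c44_an.main
  exact ⟨K, i1, i2, i3, h1, h2, h3.2 h⟩

theorem not_question_of_MCFT (h : MCFT) : ¬ Question := by
  rintro ⟨K, i1, i2, i3, h1, h2, h3⟩
  exact no_of_MCFT h K h1 h2 h3

instance (J : Type) : Nonempty (PV J) := ⟨⟨univ, MeasurableSet.univ, by simp⟩⟩

theorem exists_ctm (κ : Cardinal.{0}) (hκ : IsOmegaOneStronglyCompact κ) :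
    ∃ V : Set ZFSet.{0}, V.Countable ∧ (∀ x ∈ V, ∀ y ∈ x, y ∈ V) ∧ Pool.PC.ZFCModel V ∧
      MCFV V := by
  have h : IsOmegaOneStronglyCompact #(κ.out) := by rwa [Cardinal.mk_out]
  exact nside _ (vside h)

end Pool.Agent.EB
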