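import Pool.Agent.Lib.EB.Iface
import Pool.Agent.Lib.MP_ad72f3_pc.ZFg
import Pool.Agent.Lib.MP_ad72f3_pc.Nm

/-!
# MP_9f8c44_an, N-side: names for subsets and relations, least indices
-/

set_option autoImplicit false
set_option linter.unusedSectionVars false

open Set

namespace Pool.Agent.EB

open Pool.MP_3ade05_lc Pool.PC

variable {P : Type 1} [Preorder P]

/-- `s` forces that `k` is the least index of its value. -/
def Lst (γ : Name P) (k : γ.ι) (s : P) : Prop :=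
  s ∈ γ.c k ∧ ∀ k', WellOrderingRel k' k → ∀ q ≤ s, q ∈ γ.c k' → ¬ Name.feq (γ.A k) (γ.A k') q

lemma Lst.mono {γ : Name P} {k : γ.ι} {s q : P} (h : Lst γ k s) (hq : q ≤ s) : Lst γ k q :=
  ⟨(γ.c k).lower hq h.1, fun k' hk' r hr => h.2 k' hk' r (hr.trans hq)⟩

lemma Lst_dense {γ : Name P} {k : γ.ι} {s : P} (hs : s ∈ γ.c k) :
    ∃ r ≤ s, ∃ k', Name.feq (γ.A k) (γ.A k') r ∧ Lst γ k' r := by
  have hwf : WellFounded (WellOrderingRel (α := γ.ι)) := IsWellFounded.wf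
  let S : Set γ.ι := {j | ∃ r ≤ s, r ∈ γ.c j ∧ Name.feq (γ.A k) (γ.A j) r}
  have hS : S.Nonempty := ⟨k, s, le_rfl, hs, Name.feq_refl _ _⟩
  obtain ⟨r, hr, hc, hf⟩ := hwf.min_mem S hS
  refine ⟨r, hr, hwf.min S hS, hf, hc, fun k' hk' q hq hqc hqf => ?_⟩
  exact hwf.not_lt_min S (x := k') ⟨q, hq.trans hr, hqc,
    Name.feq_trans (Name.feq_mono hf hq) hqf⟩ hk'

lemma Lst_uniq {γ : Name P} {U : Set (Name P)} {H : Set P} (hU : Name.Atomic U H) {k k' : γ.ι}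
    (hk : γ.A k ∈ U) (hk' : γ.A k' ∈ U) {s s' : P} (hs : s ∈ H) (hs' : s' ∈ H)
    (h : Lst γ k s) (h' : Lst γ k' s') (he : Name.val U H (γ.A k) = Name.val U H (γ.A k')) :
    k = k' := by
  obtain ⟨p, hp, hf⟩ := (Name.val_eq_iff hU hk hk').1 he
  obtain ⟨r, _, h1, h2, h3⟩ := hU.filt.dir3 hs hs' hp
  rcases trichotomous_of (WellOrderingRel (α := γ.ι)) k k' with h4 | h4 | h4
  · exact absurd (Name.feq_symm (Name.feq_mono hf h3))
      (h'.2 k h4 r h2 ((γ.c k).lower h1 h.1))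
  · exact h4
  · exact absurd (Name.feq_mono hf h3) (h.2 k' h4 r h1 ((γ.c k').lower h2 h'.1))

/-- The name of the finite set of the values of the indices in `K`. -/
noncomputable def nm (γ : Name P) (K : Finset γ.ι) : Name P :=
  Name.mk (Fin K.card) (fun i => γ.A (K.equivFin.symm i)) (fun _ => ⊤)

/-- The name of the set of the values of the indices in `X`. -/
def XN (γ : Name P) (X : Set γ.ι) : Name P :=
  Name.mk γ.ι γ.A (fun k => ⟨{s | k ∈ X ∧ Lst γ k s}, fun _ _ hba h => ⟨h.1, h.2.mono hba⟩⟩)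

/-- The name of the relation given by `D`. -/
noncomputable def RN (γ : Name P) (D : γ.ι → ℕ → LowerSet P) : Name P :=
  Name.mk (ℕ × γ.ι) (fun z => oN (ordN P z.1) (γ.A z.2))
    (fun z => ⟨{s | Lst γ z.2 s ∧ s ∈ D z.2 z.1}, fun _ _ hba h =>
      ⟨h.1.mono hba, (D z.2 z.1).lower hba h.2⟩⟩)

/-- The truth value of the statement that the set of the values of the indices in `K` is an
element of `τ`. -/
noncomputable def Ph (γ τ : Name P) (K : Finset γ.ι) : LowerSet P :=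
  ⟨{s | (∀ k ∈ K, Lst γ k s) ∧ Name.fmem (nm γ K) τ s}, fun _ _ hba h =>
    ⟨fun k hk => (h.1 k hk).mono hba, Name.fmem_mono h.2 hba⟩⟩

lemma XN_injective {γ : Name P} {X X' : Set γ.ι} (h : XN γ X = XN γ X') {k : γ.ι} {s : P}
    (hL : Lst γ k s) (hk : k ∈ X) : k ∈ X' := by
  unfold XN at h
  injection h with h1 h2 h3
  have h4 := congrFun h3 k
  have h5 : s ∈ (⟨{s | k ∈ X ∧ Lst γ k s}, fun _ _ hba h => ⟨h.1, h.2.mono hba⟩⟩ : LowerSet P) :=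
    ⟨hk, hL⟩
  rw [h4] at h5
  exact h5.1

lemma RN_injective {γ : Name P} {D D' : γ.ι → ℕ → LowerSet P} (h : RN γ D = RN γ D') {k : γ.ι}
    {n : ℕ} {s : P} (hL : Lst γ k s) (hs : s ∈ D k n) : s ∈ D' k n := by
  unfold RN at h
  injection h with h1 h2 h3
  have h4 := congrFun h3 (n, k)
  have h5 : s ∈ (⟨{s | Lst γ k s ∧ s ∈ D k n}, fun _ _ hba h =>
      ⟨h.1.mono hba, (D k n).lower hba h.2⟩⟩ : LowerSet P) := ⟨hL, hs⟩
  change _ = (⟨{s | Lst γ k s ∧ s ∈ D' k n}, _⟩ : LowerSet P) at h4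
  rw [h4] at h5
  exact h5.2

/-- Basic closure properties of the hull. -/
structure NB (U : Set (Name P)) (H : Set P) : Prop extends Base U H where
  parts : ∀ σ τ : Name P, oN σ τ ∈ U → σ ∈ U ∧ τ ∈ U
  nmc : ∀ (γ : Name P) (K : Finset γ.ι), (∀ k ∈ K, γ.A k ∈ U) → nm γ K ∈ U
  nmd : ∀ (γ : Name P) (K : Finset γ.ι), nm γ K ∈ U → ∀ k ∈ K, γ.A k ∈ U
  rep : ∀ γ ∈ U, ∀ x ∈ Name.val U H γ, ∃ k, γ.A k ∈ U ∧ (∃ s ∈ H, Lst γ k s) ∧
    x = Name.val U H (γ.A k)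

theorem Ev.nb : Ev (P := P) NB := by
  classical
  have h1 : Ev (P := P) (fun U _ => ∀ n : ℕ, ∀ v : Fin n → Name P, (∀ i, v i ∈ U) →
      Name.mk (Fin n) v (fun _ => ⊤) ∈ U) :=
    Ev.all fun n => Ev.op (n := n) (fun v => Name.mk (Fin n) v (fun _ => ⊤))
  have h2 : Ev (P := P) (fun U _ => ∀ n : ℕ, ∀ i : Fin n, ∀ v : Fin 1 → Name P,
      (∀ i, v i ∈ U) → (if h : ∃ w : Fin n → Name P, v 0 = Name.mk (Fin n) w (fun _ => ⊤) then
        h.choose i else v 0) ∈ U) :=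
    Ev.all fun n => Ev.all fun i => Ev.op (n := 1) _
  have h3 := Ev.gen (P := P) (n := 2) (fun v s ρ => ∃ k : (v 0).ι, ρ = (v 0).A k ∧
    Lst (v 0) k s ∧ Name.feq (v 1) ρ s)
  refine (((Ev.base (P := P)).and Ev.parts).and (h1.and (h2.and h3))).mono ?_
  rintro U H ⟨⟨hB, hp⟩, g1, g2, g3⟩
  refine ⟨hB, hp, fun γ K hK => g1 K.card _ fun i => hK _ (K.equivFin.symm i).2,
    fun γ K hK k hk => ?_, fun γ hγ x hx => ?_⟩
  · have g4 := g2 K.card (K.equivFin ⟨k, hk⟩) ![nm γ K] (by intro i; fin_cases i; exact hK)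
    have hex : ∃ w : Fin K.card → Name P, nm γ K = Name.mk (Fin K.card) w (fun _ => ⊤) :=
      ⟨_, rfl⟩
    simp only [Matrix.cons_val_fin_one] at g4
    rw [dif_pos hex] at g4
    have e := hex.choose_spec
    unfold nm at e
    injection e with e1 e2
    have e3 := congrFun e2 (K.equivFin ⟨k, hk⟩)
    have e4 : (K.equivFin.symm (K.equivFin ⟨k, hk⟩) : γ.ι) = k := by
      rw [Equiv.symm_apply_apply]
    rw [e4] at e3
    rw [e3]
    exact g4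
  · obtain ⟨k₀, hk₀, ⟨q₀, hq₀, hc⟩, rfl⟩ := Name.mem_val.1 hx
    rcases g3 ![γ, γ.A k₀] (Name.forall2 hγ hk₀) with
      ⟨s, hs, ρ, hρ, k, rfl, hL, hf⟩ | ⟨p, hp', hn⟩
    · exact ⟨k, hρ, ⟨s, hs, hL⟩, (Name.val_eq_iff hB.full.at' hk₀ hρ).2 ⟨s, hs, hf⟩⟩
    · exfalso
      obtain ⟨r, _, h4, h5⟩ := hB.filt.dir p hp' q₀ hq₀
      obtain ⟨s, hs, k, hf, hL⟩ := Lst_dense ((γ.c k₀).lower h5 hc)
      exact hn s (hs.trans h4) _ ⟨k, rfl, hL, hf⟩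

section
variable {U : Set (Name P)} {H : Set P} (hB : NB U H) {γ : Name P}
include hB

lemma mem_val_nm {K : Finset γ.ι} (hK : ∀ k ∈ K, γ.A k ∈ U) {x : ZFSet.{0}} :
    x ∈ Name.val U H (nm γ K) ↔ ∃ k ∈ K, x = Name.val U H (γ.A k) := by
  obtain ⟨q, hq⟩ := hB.filt.ne
  rw [Name.mem_val]
  constructor
  · rintro ⟨i, _, _, e⟩
    exact ⟨K.equivFin.symm i, (K.equivFin.symm i).2, e⟩
  · rintro ⟨k, hk, e⟩
    refine ⟨K.equivFin ⟨k, hk⟩, ?_, ⟨q, hq, trivial⟩, ?_⟩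
    · show γ.A (K.equivFin.symm (K.equivFin ⟨k, hk⟩)) ∈ U
      rw [Equiv.symm_apply_apply]
      exact hK k hk
    · show x = Name.val U H (γ.A (K.equivFin.symm (K.equivFin ⟨k, hk⟩)))
      rw [Equiv.symm_apply_apply]
      exact e

lemma mem_val_XN {X : Set γ.ι} {x : ZFSet.{0}} :
    x ∈ Name.val U H (XN γ X) ↔ ∃ k ∈ X, γ.A k ∈ U ∧ (∃ s ∈ H, Lst γ k s) ∧
      x = Name.val U H (γ.A k) := by
  rw [Name.mem_val]
  constructor
  · rintro ⟨k, hk, ⟨s, hs, hkX, hL⟩, e⟩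
    exact ⟨k, hkX, hk, ⟨s, hs, hL⟩, e⟩
  · rintro ⟨k, hkX, hk, ⟨s, hs, hL⟩, e⟩
    exact ⟨k, hk, ⟨s, hs, hkX, hL⟩, e⟩

lemma pair_mem_RN {D : γ.ι → ℕ → LowerSet P} {k : γ.ι} (hk : γ.A k ∈ U) {s : P} (hs : s ∈ H)
    (hL : Lst γ k s) (n : ℕ) :
    ZFSet.pair (num n) (Name.val U H (γ.A k)) ∈ Name.val U H (RN γ D) ↔
      ∃ p ∈ H, p ∈ D k n := by
  rw [Name.mem_val]
  constructor
  · rintro ⟨⟨n', k'⟩, hU, ⟨q, hq, hL', hD⟩, e⟩
    have hU' : oN (ordN P n') (γ.A k') ∈ U := hU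
    obtain ⟨h1, h2⟩ := hB.parts _ _ hU'
    have e' : ZFSet.pair (num n) (Name.val U H (γ.A k)) =
        Name.val U H (oN (ordN P n') (γ.A k')) := e
    rw [val_oN hB.toBase h1 h2, val_ordN_nat hB.toBase] at e'
    obtain ⟨e1, e2⟩ := ZFSet.pair_injective e'
    have e3 := num_injective hB.toBase e1
    have e4 := Lst_uniq hB.full.at' hk h2 hs hq hL hL' e2
    subst e3 e4
    exact ⟨q, hq, hD⟩
  · rintro ⟨p, hp, hD⟩
    obtain ⟨r, hr, h1, h2⟩ := hB.filt.dir s hs p hp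
    refine ⟨(n, k), oN_mem hB.toBase (hB.nat n) hk, ⟨r, hr, hL.mono h1, (D k n).lower h2 hD⟩, ?_⟩
    show _ = Name.val U H (oN (ordN P n) (γ.A k))
    rw [val_oN hB.toBase (hB.nat n) hk, val_ordN_nat hB.toBase]

end

end Pool.Agent.EB
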