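import Pool.Agent.Lib.EB.VSupp

/-!
# Row V2: Chebyshev's inequality below a condition
-/

set_option autoImplicit false

open MeasureTheory Cardinal Set

namespace Pool.Agent.EB

variable {J L : Type}

/-- The event that the coordinate `j` starts with a string in `W`. -/
private def ev (N : ℕ) (W : Finset (Fin N → Bool)) (j : J) : Set (Om J) :=
  {ω | ω j ∈ {x : ℕ → Bool | res N x ∈ W}}

private theorem measE (N : ℕ) (W : Finset (Fin N → Bool)) :
    MeasurableSet {x : ℕ → Bool | res N x ∈ W} :=
  measurable_res N W.finite_toSet.measurableSet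

private theorem measEv (N : ℕ) (W : Finset (Fin N → Bool)) (j : J) :
    MeasurableSet (ev N W j) :=
  measurable_pi_apply j (measE N W)

private theorem measEvS (N : ℕ) (W : Finset (Fin N → Bool)) (j : J) :
    MeasurableSet[mS ({j} : Set J)] (ev N W j) := by
  have h4 : MeasurableSpace.comap (fun ω : Om J => ω j) inferInstance ≤ mS ({j} : Set J) :=
    le_biSup (fun j => MeasurableSpace.comap (fun ω : Om J => ω j) inferInstance)
      (mem_singleton j)
  exact h4 _ ⟨_, measE N W, rfl⟩

private theorem real_one {b : Set (Om J)} {C : Set J} (hb : MeasurableSet[mS C] b) (N : ℕ)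
    (W : Finset (Fin N → Bool)) {j : J} (hj : j ∉ C) :
    (mu J).real (b ∩ ev N W j) = (mu J).real b * ((W.card : ℝ) / 2 ^ N) := by
  unfold Measure.real ev
  rw [mu_inter_coord hb hj (measE N W), coin_res, ENNReal.toReal_mul, ENNReal.toReal_div,
    ENNReal.toReal_natCast, ENNReal.toReal_pow]
  rfl

private theorem real_two {b : Set (Om J)} {C : Set J} (hb : MeasurableSet[mS C] b) (N : ℕ)
    (W : Finset (Fin N → Bool)) {i j : J} (hi : i ∉ C) (hj : j ∉ C) (hij : i ≠ j) :
    (mu J).real (b ∩ ev N W i ∩ ev N W j) =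
      (mu J).real b * ((W.card : ℝ) / 2 ^ N) * ((W.card : ℝ) / 2 ^ N) := by
  have h1 : MeasurableSet[mS (C ∪ {i})] (b ∩ ev N W i) :=
    @MeasurableSet.inter _ (mS (C ∪ {i})) _ _ (mS_mono subset_union_left _ hb)
      (mS_mono subset_union_right _ (measEvS N W i))
  have h2 : j ∉ C ∪ {i} := by
    rintro (h | h)
    · exact hj h
    · exact hij (mem_singleton_iff.mp h).symm
  rw [real_one h1 N W h2, real_one hb N W hi]

private theorem int_cov {b : Set (Om J)} (N : ℕ) (W : Finset (Fin N → Bool)) (i j : J) (w : ℝ) :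
    Integrable (fun ω => ((ev N W i).indicator (fun _ => (1 : ℝ)) ω - w) *
      ((ev N W j).indicator (fun _ => (1 : ℝ)) ω - w)) ((mu J).restrict b) ∧
    ∫ ω in b, ((ev N W i).indicator (fun _ => (1 : ℝ)) ω - w) *
      ((ev N W j).indicator (fun _ => (1 : ℝ)) ω - w) ∂(mu J) =
      (mu J).real (b ∩ ev N W i ∩ ev N W j) - w * (mu J).real (b ∩ ev N W i)
        - w * (mu J).real (b ∩ ev N W j) + w * w * (mu J).real b := by
  have hI : ∀ s : Set (Om J), MeasurableSet s →
      Integrable (s.indicator (fun _ => (1 : ℝ))) ((mu J).restrict b) := by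
    intro s hs
    exact (integrable_const (1 : ℝ)).indicator hs
  have hV : ∀ s : Set (Om J), MeasurableSet s →
      ∫ ω in b, s.indicator (fun _ => (1 : ℝ)) ω ∂(mu J) = (mu J).real (b ∩ s) := by
    intro s hs
    rw [integral_indicator_const _ hs, smul_eq_mul, mul_one, measureReal_restrict_apply hs,
      inter_comm]
  have hmi := measEv N W i
  have hmj := measEv N W j
  have heq : (fun ω => ((ev N W i).indicator (fun _ => (1 : ℝ)) ω - w) *
      ((ev N W j).indicator (fun _ => (1 : ℝ)) ω - w)) =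
      fun ω => (((ev N W i ∩ ev N W j).indicator (fun _ => (1 : ℝ)) ω -
        w * (ev N W i).indicator (fun _ => (1 : ℝ)) ω) -
        w * (ev N W j).indicator (fun _ => (1 : ℝ)) ω) + w * w := by
    funext ω
    by_cases h1 : ω ∈ ev N W i <;> by_cases h2 : ω ∈ ev N W j <;>
      simp [Set.indicator, h1, h2] <;> ring
  have hA : Integrable (fun ω => (ev N W i ∩ ev N W j).indicator (fun _ => (1 : ℝ)) ω)
      ((mu J).restrict b) := hI _ (hmi.inter hmj)
  have hB : Integrable (fun ω => w * (ev N W i).indicator (fun _ => (1 : ℝ)) ω)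
      ((mu J).restrict b) := (hI _ hmi).const_mul w
  have hC : Integrable (fun ω => w * (ev N W j).indicator (fun _ => (1 : ℝ)) ω)
      ((mu J).restrict b) := (hI _ hmj).const_mul w
  rw [heq]
  have hAB : Integrable (fun ω => (ev N W i ∩ ev N W j).indicator (fun _ => (1 : ℝ)) ω -
        w * (ev N W i).indicator (fun _ => (1 : ℝ)) ω) ((mu J).restrict b) := hA.sub hB
  have hABC : Integrable (fun ω => ((ev N W i ∩ ev N W j).indicator (fun _ => (1 : ℝ)) ω -
        w * (ev N W i).indicator (fun _ => (1 : ℝ)) ω) -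
        w * (ev N W j).indicator (fun _ => (1 : ℝ)) ω) ((mu J).restrict b) := hAB.sub hC
  refine ⟨hABC.add (integrable_const _), ?_⟩
  rw [integral_add hABC (integrable_const _), integral_sub hAB hC,
    integral_sub hA hB, integral_const_mul, integral_const_mul, hV _ (hmi.inter hmj), hV _ hmi,
    hV _ hmj, integral_const, smul_eq_mul, measureReal_restrict_apply MeasurableSet.univ,
    univ_inter, inter_assoc]
  ring

open Classical in
/-- Row V2 (file VCheb.lean). Chebyshev's inequality below a condition `b` with support `C` not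
containing the positions: at most `16 / #A` of `b` has more than `5/8` of the points in `W`. -/
theorem cheb {b : Set (Om J)} {C : Set J} (hb : MeasurableSet[mS C] b) (A : Finset L)
    (pos : L → J) (hinj : InjOn pos A) (hC : ∀ l ∈ A, pos l ∉ C) (N : ℕ)
    (W : Finset (Fin N → Bool)) (hW : 2 * W.card ≤ 2 ^ N) :
    (A.card : ENNReal) *
      mu J (b ∩ {ω | 5 * A.card < 8 * (A.filter fun l => res N (ω (pos l)) ∈ W).card}) ≤
      16 * mu J b := by
  rcases Nat.eq_zero_or_pos A.card with hk | hk
  · rw [hk]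
    simp
  obtain ⟨w, hwdef⟩ : ∃ w : ℝ, w = (W.card : ℝ) / 2 ^ N := ⟨_, rfl⟩
  have hw0 : 0 ≤ w := by rw [hwdef]; positivity
  have hw : w ≤ 1 / 2 := by
    rw [hwdef, div_le_iff₀ (by positivity)]
    have : (2 * W.card : ℝ) ≤ 2 ^ N := by exact_mod_cast hW
    linarith
  have hbm : MeasurableSet b := mS_le C _ hb
  have hb0 : 0 ≤ (mu J).real b := measureReal_nonneg
  -- the second moment
  have hsq : (fun ω => (∑ l ∈ A, ((ev N W (pos l)).indicator (fun _ => (1 : ℝ)) ω - w)) ^ 2) =
      fun ω => ∑ l ∈ A, ∑ l' ∈ A, ((ev N W (pos l)).indicator (fun _ => (1 : ℝ)) ω - w) *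
        ((ev N W (pos l')).indicator (fun _ => (1 : ℝ)) ω - w) := by
    funext ω
    rw [sq, Finset.sum_mul_sum]
  have hint : Integrable (fun ω =>
      (∑ l ∈ A, ((ev N W (pos l)).indicator (fun _ => (1 : ℝ)) ω - w)) ^ 2)
      ((mu J).restrict b) := by
    rw [hsq]
    exact integrable_finsetSum _ fun l _ => integrable_finsetSum _ fun l' _ =>
      (int_cov N W (pos l) (pos l') w).1
  have hval : ∫ ω in b,
      (∑ l ∈ A, ((ev N W (pos l)).indicator (fun _ => (1 : ℝ)) ω - w)) ^ 2 ∂(mu J) ≤
      (A.card : ℝ) * ((mu J).real b / 4) := by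
    rw [hsq, integral_finsetSum _ (fun l _ => integrable_finsetSum _ fun l' _ =>
      (int_cov N W (pos l) (pos l') w).1)]
    have h1 : ∀ l ∈ A, ∫ ω in b, ∑ l' ∈ A,
        ((ev N W (pos l)).indicator (fun _ => (1 : ℝ)) ω - w) *
        ((ev N W (pos l')).indicator (fun _ => (1 : ℝ)) ω - w) ∂(mu J) ≤
        (mu J).real b / 4 := by
      intro l hl
      rw [integral_finsetSum _ (fun l' _ => (int_cov N W (pos l) (pos l') w).1)]
      rw [Finset.sum_eq_single_of_mem l hl]
      · rw [(int_cov N W (pos l) (pos l) w).2, inter_assoc, inter_self,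
          real_one hb N W (hC l hl), ← hwdef]
        nlinarith [sq_nonneg (w - 1 / 2)]
      · intro l' hl' hne
        have hne' : pos l ≠ pos l' := fun h => hne (hinj hl' hl h.symm)
        rw [(int_cov N W (pos l) (pos l') w).2, real_two hb N W (hC l hl) (hC l' hl') hne',
          real_one hb N W (hC l hl), real_one hb N W (hC l' hl'), ← hwdef]
        ring
    calc _ ≤ ∑ l ∈ A, (mu J).real b / 4 := Finset.sum_le_sum h1
      _ = _ := by rw [Finset.sum_const, nsmul_eq_mul]
  -- Chebyshev
  have hch := mul_meas_ge_le_integral_of_nonneg (μ := (mu J).restrict b)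
    (f := fun ω => (∑ l ∈ A, ((ev N W (pos l)).indicator (fun _ => (1 : ℝ)) ω - w)) ^ 2)
    (Filter.Eventually.of_forall fun ω => sq_nonneg _) hint (((A.card : ℝ) / 8) ^ 2)
  have hsub : b ∩ {ω | 5 * A.card < 8 * (A.filter fun l => res N (ω (pos l)) ∈ W).card} ⊆
      b ∩ {ω | ((A.card : ℝ) / 8) ^ 2 ≤
        (∑ l ∈ A, ((ev N W (pos l)).indicator (fun _ => (1 : ℝ)) ω - w)) ^ 2} := by
    rintro ω ⟨hωb, hω⟩
    refine ⟨hωb, ?_⟩
    rw [mem_ofPred_eq] at hω ⊢
    have h1 : ∑ l ∈ A, ((ev N W (pos l)).indicator (fun _ => (1 : ℝ)) ω - w) =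
        ((A.filter fun l => res N (ω (pos l)) ∈ W).card : ℝ) - A.card * w := by
      rw [Finset.sum_sub_distrib, Finset.sum_const, nsmul_eq_mul]
      congr 1
      rw [Finset.card_filter, Nat.cast_sum]
      refine Finset.sum_congr rfl fun l _ => ?_
      by_cases h : res N (ω (pos l)) ∈ W
      · rw [if_pos h, indicator_of_mem (show ω ∈ ev N W (pos l) from h), Nat.cast_one]
      · rw [if_neg h, indicator_of_notMem (show ω ∉ ev N W (pos l) from h), Nat.cast_zero]
    rw [h1]
    have h2 : (5 : ℝ) * A.card < 8 * ((A.filter fun l => res N (ω (pos l)) ∈ W).card : ℝ) := by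
      exact_mod_cast hω
    have h3 : (0 : ℝ) < A.card := by exact_mod_cast hk
    have h4 : (A.card : ℝ) * w ≤ A.card * (1 / 2) := mul_le_mul_of_nonneg_left hw h3.le
    refine pow_le_pow_left₀ (by positivity) ?_ 2
    linarith
  have hk' : (0 : ℝ) < A.card := by exact_mod_cast hk
  have hmeas : MeasurableSet {ω | ((A.card : ℝ) / 8) ^ 2 ≤
        (∑ l ∈ A, ((ev N W (pos l)).indicator (fun _ => (1 : ℝ)) ω - w)) ^ 2} := by
    refine measurableSet_le measurable_const ?_
    refine Measurable.pow_const ?_ 2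
    exact Finset.measurable_sum _ fun l _ =>
      ((measurable_const.indicator (measEv N W (pos l))).sub_const w)
  rw [measureReal_restrict_apply hmeas, inter_comm] at hch
  have hreal : (A.card : ℝ) * (mu J).real
      (b ∩ {ω | 5 * A.card < 8 * (A.filter fun l => res N (ω (pos l)) ∈ W).card}) ≤
      16 * (mu J).real b := by
    have h5 := measureReal_mono (μ := mu J) hsub
    have h6 : ((A.card : ℝ) / 8) ^ 2 * (mu J).real
      (b ∩ {ω | 5 * A.card < 8 * (A.filter fun l => res N (ω (pos l)) ∈ W).card}) ≤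
      (A.card : ℝ) * ((mu J).real b / 4) :=
      (mul_le_mul_of_nonneg_left h5 (by positivity)).trans (hch.trans hval)
    have h7 : (A.card : ℝ) * ((A.card : ℝ) * (mu J).real
      (b ∩ {ω | 5 * A.card < 8 * (A.filter fun l => res N (ω (pos l)) ∈ W).card})) ≤
      (A.card : ℝ) * (16 * (mu J).real b) := by nlinarith
    exact le_of_mul_le_mul_left h7 hk'
  have h8 : ∀ s : Set (Om J), mu J s = ENNReal.ofReal ((mu J).real s) := fun s =>
    (ENNReal.ofReal_toReal (measure_ne_top _ _)).symm
  rw [h8 b, h8 (b ∩ _), ← ENNReal.ofReal_natCast A.card,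
    ← ENNReal.ofReal_mul (Nat.cast_nonneg _), show (16 : ENNReal) = ENNReal.ofReal 16 by simp,
    ← ENNReal.ofReal_mul (by norm_num)]
  exact ENNReal.ofReal_le_ofReal hreal

end Pool.Agent.EB
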