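import Pool.Agent.Lib.EB.VMain
import Pool.Agent.Lib.EB.Big

/-!
# The V-side: the interface for the N-side
-/

set_option autoImplicit false

open MeasureTheory Set Cardinal

namespace Pool.Agent.EB

variable {J S : Type}

/-- Every class of conditions which is closed downwards has a Boolean value. -/
theorem exists_bval (D : Set (PV J)) (hD : ∀ q ∈ D, ∀ q' ≤ q, q' ∈ D) :
    ∃ B : Set (Om J), MeasurableSet B ∧ (∀ q ∈ D, mu J (q.1 \ B) = 0) ∧
      ∀ q : PV J, mu J (q.1 \ B) = 0 → ∃ q' ≤ q, q' ∈ D :=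
  exists_bval_aux D hD

/-- Two coordinates are different. -/
theorem exists_bit_ne {a b : J} (hab : a ≠ b) (p : PV J) :
    ∃ q ≤ p, ∃ n : ℕ, ∀ ω ∈ q.1, ω a n ≠ ω b n := by
  by_contra hcon
  push Not at hcon
  have hm : ∀ (j : J) (n : ℕ), Measurable fun ω : Om J => ω j n := fun j n =>
    (measurable_pi_apply n).comp (measurable_pi_apply j)
  have h1 : ∀ n, mu J (p.1 ∩ {ω | ω a n ≠ ω b n}) = 0 := by
    intro n
    by_contra hne
    obtain ⟨ω, hω, h2⟩ := hcon ⟨p.1 ∩ {ω | ω a n ≠ ω b n},
      p.2.1.inter (measurableSet_eq_fun (hm a n) (hm b n)).compl, hne⟩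
      (show p.1 ∩ {ω | ω a n ≠ ω b n} ⊆ p.1 from inter_subset_left) n
    exact hω.2 h2
  apply p.2.2
  refine measure_mono_null (fun ω hω => ?_)
    (measure_union_null (exists_bit_ne' hab) (measure_iUnion_null h1))
  by_cases h : ω a = ω b
  · exact Or.inl h
  · obtain ⟨n, hn⟩ := Function.ne_iff.1 h
    exact Or.inr (mem_iUnion.2 ⟨n, hω, hn⟩)

lemma up_le {a b : PV J} : (ULift.up.{1} a : ULift.{1} (PV J)) ≤ ULift.up b ↔ a ≤ b := Iff.rfl

lemma pv_nonempty (q : PV J) : q.1.Nonempty := by
  by_contra h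
  rw [Set.not_nonempty_iff_eq_empty] at h
  exact q.2.2 (by rw [h]; simp)

/-- The lower set of the conditions contained in `E`. -/
def lowIn (E : Set (Om J)) : LowerSet (ULift.{1} (PV J)) where
  carrier := {s | s.down.1 ⊆ E}
  lower' := by
    intro a b hba ha
    exact (show b.down.1 ⊆ a.down.1 from hba).trans ha

lemma mem_lowIn {E : Set (Om J)} {s : ULift.{1} (PV J)} : s ∈ lowIn E ↔ s.down.1 ⊆ E := Iff.rfl

/-- A measurable function with countably many values is constant on a stronger condition. -/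
lemma exists_const {β : Type} [Countable β] (f : Om J → β)
    (hf : ∀ v, MeasurableSet {ω | f ω = v}) (q : PV J) :
    ∃ s ≤ q, ∃ v, ∀ ω ∈ s.1, f ω = v := by
  by_contra hcon
  push Not at hcon
  have h1 : ∀ v, mu J (q.1 ∩ {ω | f ω = v}) = 0 := by
    intro v
    by_contra hne
    obtain ⟨ω, hω, h2⟩ := hcon ⟨q.1 ∩ {ω | f ω = v}, q.2.1.inter (hf v), hne⟩
      (show q.1 ∩ {ω | f ω = v} ⊆ q.1 from inter_subset_left) v
    exact h2 hω.2
  apply q.2.2
  refine measure_mono_null (fun ω hω => ?_) (measure_iUnion_null h1)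
  exact mem_iUnion.2 ⟨f ω, hω, rfl⟩

/-- Finitely many dense lower sets. -/
lemma exists_finite_dense {β : Type} (A : Finset β) (D : β → Set (PV J))
    (hD : ∀ x ∈ A, ∀ q ∈ D x, ∀ q' ≤ q, q' ∈ D x) (s : PV J)
    (h : ∀ x ∈ A, ∀ q ≤ s, ∃ q' ≤ q, q' ∈ D x) : ∃ q ≤ s, ∀ x ∈ A, q ∈ D x := by
  classical
  induction A using Finset.induction_on with
  | empty => exact ⟨s, le_rfl, by simp⟩
  | insert a A ha ih =>
    obtain ⟨q, hq, hq'⟩ := ih (fun x hx => hD x (Finset.mem_insert_of_mem hx))
      (fun x hx => h x (Finset.mem_insert_of_mem hx))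
    obtain ⟨q', hq1, hq2⟩ := h a (Finset.mem_insert_self _ _) q hq
    refine ⟨q', hq1.trans hq, fun x hx => ?_⟩
    rcases Finset.mem_insert.1 hx with rfl | hx
    · exact hq2
    · exact hD x (Finset.mem_insert_of_mem hx) q (hq' x hx) q' hq1

open Classical in
/-- The measurable function named by a sequence of measurable sets. -/
noncomputable def fnOf (B : ℕ → Set (Om J)) (ω : Om J) : ℕ := sInf {n | ω ∈ B n}

lemma fnOf_mem {B : ℕ → Set (Om J)} {ω : Om J} (h : ∃ n, ω ∈ B n) : ω ∈ B (fnOf B ω) :=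
  Nat.sInf_mem (s := {n | ω ∈ B n}) h

lemma measurable_fnOf {B : ℕ → Set (Om J)} (hB : ∀ n, MeasurableSet (B n)) :
    Measurable (fnOf B) := by
  have h1 : ∀ n, MeasurableSet {ω | fnOf B ω ≤ n} := by
    intro n
    have h2 : {ω | fnOf B ω ≤ n} = (⋃ k ∈ Set.Iic n, B k) ∪ (⋃ k, B k)ᶜ := by
      ext ω
      simp only [Set.mem_ofPred_eq, mem_union, mem_iUnion, mem_compl_iff, not_exists, mem_Iic,
        exists_prop]
      constructor
      · intro h
        by_cases h3 : ∃ k, ω ∈ B k
        · exact Or.inl ⟨fnOf B ω, h, fnOf_mem h3⟩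
        · exact Or.inr fun k hk => h3 ⟨k, hk⟩
      · rintro (⟨k, hk, hkB⟩ | h)
        · exact (Nat.sInf_le (s := {n | ω ∈ B n}) hkB).trans hk
        · have : {n | ω ∈ B n} = ∅ := by
            ext k; simpa using h k
          unfold fnOf
          rw [this]
          simp
    rw [h2]
    exact (MeasurableSet.biUnion (Set.to_countable _) fun k _ => hB k).union
      (MeasurableSet.iUnion hB).compl
  refine measurable_of_Iic fun n => h1 n

theorem vside (hJ : IsOmegaOneStronglyCompact #J) : VSide (ULift.{1} (PV J)) := by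
  classical
  intro S Φ p
  choose Fh hFm hF1 hF2 using fun A : Finset S => exists_bval (J := J) {q | ULift.up q ∈ Φ A}
    (fun q hq q' hq' => (Φ A).lower hq' hq)
  obtain ⟨q, hqp, hq⟩ := dich hJ Fh hFm p.down
  rcases hq with ⟨e, he, hes⟩ | ⟨X, i, hi, hX⟩
  · -- sigma-bounded
    right
    refine ⟨ULift.up q, hqp, fun x n => lowIn {ω | e x ω = n}, ?_, ?_⟩
    · intro x r hr
      obtain ⟨s, hs, v, hv⟩ := exists_const (e x) (fun v => (he x) (measurableSet_singleton v))
        r.down
      exact ⟨ULift.up s, hs, v, hv⟩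
    · intro s hs A hsA A' hA' n hn
      have h1 := hes A n
      have h2 : mu J (s.down.1 \ Fh A) = 0 := hF1 A s.down hsA
      have h3 : ∃ ω ∈ s.down.1, (A.filter fun l => e l ω = n).card ≤ n := by
        by_contra hcon
        push Not at hcon
        apply s.down.2.2
        refine measure_mono_null (t := (s.down.1 \ Fh A) ∪
          {ω | ¬ (ω ∈ q.1 → ω ∈ Fh A → (A.filter fun l => e l ω = n).card ≤ n)}) ?_
          (measure_union_null h2 (ae_iff.1 h1))
        intro ω hω
        by_cases h4 : ω ∈ Fh A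
        · right
          simp only [Set.mem_ofPred_eq]
          intro h5
          exact absurd (h5 (hs hω) h4) (not_le.2 (hcon ω hω))
        · exact Or.inl ⟨hω, h4⟩
      obtain ⟨ω, hω, hc⟩ := h3
      refine (Finset.card_le_card fun l hl => ?_).trans hc
      exact Finset.mem_filter.2 ⟨hA' hl, hn l hl hω⟩
  · -- the coordinates are witnesses
    left
    have hdec : ∀ (x : S) (n : ℕ) (s : PV J) (b : Bool), (∀ ω ∈ s.1, ω (i x) n = b) →
        Dec (lowIn {ω | ω (i x) n = true}) (ULift.up.{1} s) b := by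
      intro x n s b h
      cases b with
      | true => exact Or.inl ⟨rfl, fun ω hω => h ω hω⟩
      | false =>
        refine Or.inr ⟨rfl, fun s' hs' hmem => ?_⟩
        obtain ⟨ω, hω⟩ := pv_nonempty s'.down
        have h1 := h ω (hs' hω)
        have h2 : ω (i x) n = true := hmem hω
        rw [h1] at h2
        exact absurd h2 (by decide)
    refine ⟨ULift.up q, hqp, X, fun x n => lowIn {ω | ω (i x) n = true}, ?_, ?_⟩
    · intro x hx y hy hxy r hr
      obtain ⟨s, hs, n, hn⟩ := exists_bit_ne (fun h => hxy (hi hx hy h)) r.down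
      have hm : Measurable fun ω : Om J => ω (i x) n :=
        (measurable_pi_apply n).comp (measurable_pi_apply (i x))
      obtain ⟨s', hs', b, hb⟩ := exists_const (fun ω => ω (i x) n)
        (fun v => hm (measurableSet_singleton v)) s
      refine ⟨ULift.up s', hs'.trans hs, n, b, hdec x n s' b hb, hdec y n s' (!b) fun ω hω => ?_⟩
      have h1 := hn ω (hs' hω)
      have h2 := hb ω hω
      revert h1 h2
      cases ω (i x) n <;> cases ω (i y) n <;> cases b <;> simp
    · intro r hr M hM
      choose B hBm hB1 hB2 using fun (x : S) (n : ℕ) =>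
        exists_bval (J := J) {q | ULift.up q ∈ M x n} (fun q hq q' hq' => (M x n).lower hq' hq)
      have htot : ∀ x ∈ X, mu J (r.down.1 \ ⋃ n, B x n) = 0 := by
        intro x hx
        by_contra hne
        obtain ⟨s, hs, n, hn⟩ := hM x hx (ULift.up ⟨r.down.1 \ ⋃ n, B x n,
          r.down.2.1.diff (MeasurableSet.iUnion (hBm x)), hne⟩)
          (show r.down.1 \ _ ⊆ r.down.1 from sdiff_subset)
        apply s.down.2.2
        refine measure_mono_null (fun ω hω => ?_) (hB1 x n s.down hn)
        exact ⟨hω, fun h => (hs hω).2 (mem_iUnion.2 ⟨n, h⟩)⟩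
      obtain ⟨A, q'', hAX, hqm, hq0, hqr, hq''⟩ := hX r.down.1 r.down.2.1 r.down.2.2 hr
        (fun x => fnOf (B x)) (fun x => measurable_fnOf (hBm x))
      obtain ⟨s₁, hs₁, m', hm'⟩ := exists_const (J := J) (fun ω => fun x : A => fnOf (B x.1) ω)
        (fun v => by
          have : {ω : Om J | (fun x : A => fnOf (B x.1) ω) = v} =
              ⋂ x : A, {ω | fnOf (B x.1) ω = v x} := by
            ext ω
            simp [funext_iff]
          rw [this]
          exact MeasurableSet.iInter fun x =>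
            (measurable_fnOf (hBm x.1)) (measurableSet_singleton (v x)))
        (⟨q'', hqm, hq0⟩ : PV J)
      let m : S → ℕ := fun x => if h : x ∈ A then m' ⟨x, h⟩ else 0
      have hm : ∀ ω ∈ s₁.1, ∀ x ∈ A, fnOf (B x) ω = m x := by
        intro ω hω x hx
        have h1 := congrFun (hm' ω hω) ⟨x, hx⟩
        simp only [m, dif_pos hx]
        exact h1
      let N := A.sup m
      have hN : ∀ x ∈ A, m x ≤ N := fun x hx => Finset.le_sup hx
      obtain ⟨s₂, hs₂, σ', hσ'⟩ := exists_const (J := J)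
        (fun ω => fun (x : A) (n : Fin N) => ω (i x.1) n)
        (fun v => by
          have : {ω : Om J | (fun (x : A) (n : Fin N) => ω (i x.1) n) = v} =
              ⋂ (x : A) (n : Fin N), {ω | ω (i x.1) n = v x n} := by
            ext ω
            simp [funext_iff]
          rw [this]
          refine MeasurableSet.iInter fun x => MeasurableSet.iInter fun n => ?_
          have hm2 : Measurable fun ω : Om J => ω (i x.1) (n : ℕ) :=
            (measurable_pi_apply (n : ℕ)).comp (measurable_pi_apply (i x.1))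
          exact hm2 (measurableSet_singleton (v x n))) s₁
      let σ : S → ℕ → Bool := fun x n =>
        if h : x ∈ A ∧ n < N then σ' ⟨x, h.1⟩ ⟨n, h.2⟩ else false
      have hσ : ∀ ω ∈ s₂.1, ∀ x ∈ A, ∀ n < N, ω (i x) n = σ x n := by
        intro ω hω x hx n hn
        have h1 := congrFun (congrFun (hσ' ω hω) ⟨x, hx⟩) ⟨n, hn⟩
        simp only [σ, dif_pos (show x ∈ A ∧ n < N from ⟨hx, hn⟩)]
        exact h1
      have hs2q : s₂.1 ⊆ q'' := hs₂.trans hs₁
      -- deciding the values
      obtain ⟨s₃, hs₃, hs₃'⟩ := exists_finite_dense A (fun x => {q | ULift.up.{1} q ∈ M x (m x)})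
        (fun x _ q hq q' hq' => (M x (m x)).lower hq' hq) s₂ (by
          intro x hx t ht
          refine hB2 x (m x) t ?_
          refine measure_mono_null ?_ (htot x (hAX hx))
          rintro ω ⟨hω1, hω2⟩
          have hω3 : ω ∈ s₂.1 := ht hω1
          refine ⟨hqr (hs2q hω3), fun h4 => hω2 ?_⟩
          have h5 := fnOf_mem (mem_iUnion.1 h4)
          rw [hm ω (hs₂ hω3) x hx] at h5
          exact h5)
      obtain ⟨s₄, hs₄, hs₄'⟩ := hF2 A s₃ (by
        have : s₃.1 \ Fh A = ∅ := by
          ext ω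
          simp only [mem_sdiff, mem_empty_iff_false, iff_false, not_and, not_not]
          exact fun hω => (hq'' ω (hs2q (hs₃ hω))).1
        rw [this]
        simp)
      refine ⟨ULift.up s₄, ?_, A, hAX, hs₄', m, σ, fun x hx => ⟨?_, fun n hn => ?_⟩, ?_⟩
      · exact fun ω hω => hqr (hs2q (hs₃ (hs₄ hω)))
      · exact (M x (m x)).lower (show ULift.up.{1} s₄ ≤ ULift.up s₃ from hs₄) (hs₃' x hx)
      · exact hdec x n s₄ (σ x n) fun ω hω =>
          hσ ω (hs₃ (hs₄ hω)) x hx n (hn.trans_le (hN x hx))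
      · obtain ⟨ω, hω⟩ := pv_nonempty s₄
        have hω2 : ω ∈ s₂.1 := hs₃ (hs₄ hω)
        have h1 := (hq'' ω (hs2q hω2)).2
        rw [covers_iff_big] at h1
        convert h1 using 2
        ext z
        simp only [cyl, Set.mem_ofPred_eq]
        refine exists_congr fun x => and_congr_right fun hx => ?_
        rw [hm ω (hs₂ hω2) x hx]
        refine forall_congr' fun n => imp_congr_right fun hn => ?_
        rw [hσ ω hω2 x hx n (hn.trans_le (hN x hx))]

end Pool.Agent.EB
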