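import Pool.Agent.Lib.EB.Defs

/-!
# V3 : the limit of the measures `b ↦ μ (b ∩ {m_x ≤ N})` along a countably complete ultrafilter
-/

set_option autoImplicit false

open MeasureTheory Cardinal Set Filter
open scoped ENNReal

namespace Pool.Agent.EB

/-- Functions into `[0, ∞]` are constant on a set of the ultrafilter. -/
private theorem exists_const {XX : Type} (U : Ultrafilter XX)
    [CountableInterFilter (U : Filter XX)] (f : XX → ℝ≥0∞) :
    ∃ c, ∀ᶠ x in (U : Filter XX), f x = c := by
  obtain ⟨c, hc⟩ := exists_eventuallyEq_const_of_forall_separating (l := (U : Filter XX)) (f := f)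
    MeasurableSet (fun s _ => by
      rcases em (∀ᶠ x in (U : Filter XX), f x ∈ s) with h | h
      · exact Or.inl h
      · exact Or.inr (Ultrafilter.eventually_not.2 h))
  exact ⟨c, hc⟩

/-- Row V3 (file VLim.lean). The limit measure: `e` is the least `N` such that the density of
`b ↦ lim_U μ (b ∩ {m_X ≤ N})` is at least `7/8`. -/
theorem exists_lim {XX Ω : Type} [MeasurableSpace Ω] (μ : Measure Ω) [IsProbabilityMeasure μ]
    (U : Ultrafilter XX) (hU : ∀ s : ℕ → Set XX, (∀ n, s n ∈ U) → ⋂ n, s n ∈ U)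
    (m : XX → Ω → ℕ) (hm : ∀ x, Measurable (m x)) :
    ∃ e : Ω → ℕ, Measurable e ∧ ∀ (N : ℕ) (b : Set Ω), MeasurableSet b → (∀ ω ∈ b, e ω = N) →
      ∀ᶠ x in (U : Filter XX), 7 * μ b ≤ 8 * μ (b ∩ {ω | m x ω ≤ N}) := by
  classical
  have hci : CountableInterFilter (U : Filter XX) := by
    refine ⟨fun S hS h => ?_⟩
    rcases S.eq_empty_or_nonempty with rfl | hne
    · simp
    · obtain ⟨s, hs⟩ := hS.exists_eq_range hne
      subst hs
      rw [sInter_range]
      exact hU s (fun n => h _ (mem_range_self n))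
  have hms : ∀ x N, MeasurableSet {ω | m x ω ≤ N} := fun x N => (hm x) (measurableSet_Iic)
  -- the limit
  choose lim hlim using fun (N : ℕ) (s : Set Ω) =>
    exists_const U (fun x => μ (s ∩ {ω | m x ω ≤ N}))
  have key : ∀ (N : ℕ) ⦃f : ℕ → Set Ω⦄, (∀ i, MeasurableSet (f i)) → Pairwise (Function.onFun Disjoint f) →
      lim N (⋃ i, f i) = ∑' i, lim N (f i) := by
    intro N f hf hd
    have h1 := hlim N (⋃ i, f i)
    have h2 : ∀ᶠ x in (U : Filter XX), ∀ i, μ (f i ∩ {ω | m x ω ≤ N}) = lim N (f i) :=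
      eventually_countable_forall.2 fun i => hlim N (f i)
    obtain ⟨x, hx1, hx2⟩ := (h1.and h2).exists
    rw [← hx1, iUnion_inter, measure_iUnion]
    · exact tsum_congr hx2
    · intro i j hij
      exact (hd hij).mono inter_subset_left inter_subset_left
    · exact fun i => (hf i).inter (hms x N)
  have key0 : ∀ N, lim N ∅ = 0 := by
    intro N
    obtain ⟨x, hx⟩ := (hlim N ∅).exists
    rw [← hx]
    simp
  let ν : ℕ → Measure Ω := fun N => Measure.ofMeasurable (fun s _ => lim N s) (key0 N)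
    (fun f hf hd => key N hf hd)
  have hν : ∀ N s, MeasurableSet s → ν N s = lim N s := by
    intro N s hs
    exact Measure.ofMeasurable_apply s hs
  have hle : ∀ N, ν N ≤ μ := by
    intro N
    refine Measure.le_iff.2 fun s hs => ?_
    rw [hν N s hs]
    obtain ⟨x, hx⟩ := (hlim N s).exists
    rw [← hx]
    exact measure_mono inter_subset_left
  have hfin : ∀ N, IsFiniteMeasure (ν N) := fun N => isFiniteMeasure_of_le μ (hle N)
  have hac : ∀ N, ν N ≪ μ := fun N => (Measure.absolutelyContinuous_of_le (hle N))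
  let w : ℕ → Ω → ℝ≥0∞ := fun N => (ν N).rnDeriv μ
  have hw : ∀ N, Measurable (w N) := fun N => Measure.measurable_rnDeriv _ _
  have hwd : ∀ N s, MeasurableSet s → ∫⁻ ω in s, w N ω ∂μ = lim N s := by
    intro N s hs
    rw [← hν N s hs, ← withDensity_apply _ hs, Measure.withDensity_rnDeriv_eq _ _ (hac N)]
  have hex : ∀ ω, ∃ N, 7 / 8 ≤ w N ω ∨ ∀ k, w k ω < 7 / 8 := by
    intro ω
    by_cases h : ∀ k, w k ω < 7 / 8
    · exact ⟨0, Or.inr h⟩
    · push Not at h
      obtain ⟨N, hN⟩ := h
      exact ⟨N, Or.inl hN⟩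
  have hsm : MeasurableSet {ω | ∀ k, w k ω < 7 / 8} := by
    have h : {ω | ∀ k, w k ω < 7 / 8} = ⋂ k, {ω | w k ω < 7 / 8} := by
      ext ω
      simp
    rw [h]
    exact MeasurableSet.iInter fun k => measurableSet_lt (hw k) measurable_const
  refine ⟨fun ω => Nat.find (hex ω), ?_, ?_⟩
  · exact measurable_find hex fun N =>
      MeasurableSet.union (measurableSet_le measurable_const (hw N)) hsm
  · -- almost everywhere there is an `N`
    have hbad : μ {ω | ∀ k, w k ω < 7 / 8} = 0 := by
      set s : Set Ω := {ω | ∀ k, w k ω < 7 / 8} with hs_def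
      have hs : MeasurableSet s := hsm
      have h1 : ∀ N, lim N s ≤ 7 / 8 * μ s := by
        intro N
        rw [← hwd N s hs]
        calc ∫⁻ ω in s, w N ω ∂μ ≤ ∫⁻ ω in s, 7 / 8 ∂μ :=
              setLIntegral_mono measurable_const (fun ω hω => (hω N).le)
          _ = 7 / 8 * μ s := by simp
      have h2 : ∀ᶠ x in (U : Filter XX), ∀ N, μ (s ∩ {ω | m x ω ≤ N}) = lim N s :=
        eventually_countable_forall.2 fun N => hlim N s
      obtain ⟨x, hx⟩ := h2.exists
      have h3 : μ s = ⨆ N, μ (s ∩ {ω | m x ω ≤ N}) := by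
        rw [← Monotone.measure_iUnion]
        · congr 1
          ext ω
          simp only [mem_iUnion, mem_inter_iff, mem_ofPred_eq]
          exact ⟨fun h => ⟨m x ω, h, le_rfl⟩, fun ⟨_, h, _⟩ => h⟩
        · intro N N' h ω hω
          exact ⟨hω.1, le_trans hω.2 h⟩
      have h4 : μ s ≤ 7 / 8 * μ s := by
        conv_lhs => rw [h3]
        refine iSup_le fun N => ?_
        rw [hx N]
        exact h1 N
      by_contra h0
      have h5 : 7 / 8 * μ s < μ s := by
        have h6 : (7 / 8 : ℝ≥0∞) < 1 := by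
          rw [ENNReal.div_lt_iff (by norm_num) (by norm_num)]
          norm_num
        calc 7 / 8 * μ s < 1 * μ s := by
              exact ENNReal.mul_lt_mul_left h0 (measure_ne_top μ s) h6
          _ = μ s := one_mul _
      exact absurd h4 (not_le.2 h5)
    intro N b hb hbN
    filter_upwards [hlim N b] with x hx
    rw [hx, ← hwd N b hb]
    have h7 : ∀ᵐ ω ∂(μ.restrict b), 7 / 8 ≤ w N ω := by
      rw [ae_restrict_iff' hb]
      have h8 : ∀ᵐ ω ∂μ, ¬ ∀ k, w k ω < 7 / 8 := by
        rw [ae_iff]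
        simpa using hbad
      filter_upwards [h8] with ω hω hωb
      have h9 := Nat.find_spec (hex ω)
      have h10 : Nat.find (hex ω) = N := hbN ω hωb
      rw [h10] at h9
      exact h9.resolve_right hω
    have h11 : 7 / 8 * μ b ≤ ∫⁻ ω in b, w N ω ∂μ := by
      calc 7 / 8 * μ b = ∫⁻ ω in b, 7 / 8 ∂μ := by simp
        _ ≤ ∫⁻ ω in b, w N ω ∂μ := lintegral_mono_ae h7
    calc 7 * μ b = 8 * (7 / 8 * μ b) := by
          rw [← mul_assoc, ENNReal.mul_div_cancel (by norm_num) (by norm_num)]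
      _ ≤ 8 * ∫⁻ ω in b, w N ω ∂μ := by gcongr

end Pool.Agent.EB
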