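import Pool.Agent.Lib.EB.VSupp

/-!
# Row V5: measurability of the covering condition
-/

set_option autoImplicit false

open MeasureTheory Cardinal Set

namespace Pool.Agent.EB

variable {J L : Type}

private theorem card_mono {α : Type} [Finite α] {p : α → Prop} {T : Finset α}
    (h : ∀ s ∈ T, p s) : T.card ≤ Nat.card {s : α // p s} := by
  have h1 : Nat.card T ≤ Nat.card {s : α // p s} :=
    Nat.card_le_card_of_injective (fun s : T => (⟨s.1, h s.1 s.2⟩ : {s : α // p s}))
      (fun a b hab => by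
        apply Subtype.ext
        simpa using hab)
  rwa [Nat.card_eq_fintype_card, Fintype.card_coe] at h1

private theorem exists_finset {α : Type} [Finite α] (p : α → Prop) :
    ∃ T : Finset α, (∀ s ∈ T, p s) ∧ T.card = Nat.card {s : α // p s} := by
  classical
  have : Fintype α := Fintype.ofFinite α
  refine ⟨Finset.univ.filter p, fun s hs => (Finset.mem_filter.mp hs).2, ?_⟩
  rw [Nat.card_eq_fintype_card, Fintype.card_subtype]

/-- Row V5 (file VMeas.lean). -/
theorem measurableSet_covers (A : Finset L) (i : L → J) (d : L → Om J → ℕ)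
    (hd : ∀ l, Measurable (d l)) :
    MeasurableSet {ω | Covers A (fun l n => ω (i l) n = true) (fun l => d l ω)} := by
  have hs : ∀ (N : ℕ) (s : Fin N → Bool), MeasurableSet {ω : Om J |
      ∃ x ∈ A, ∀ k : Fin N, (k : ℕ) < d x ω → (s k = true ↔ ω (i x) k = true)} := by
    intro N s
    have e : {ω : Om J | ∃ x ∈ A, ∀ k : Fin N, (k : ℕ) < d x ω → (s k = true ↔ ω (i x) k = true)} =
        ⋃ x ∈ A, ⋂ k : Fin N, ({ω : Om J | (k : ℕ) < d x ω}ᶜ ∪
          {ω : Om J | (s k = true ↔ ω (i x) k = true)}) := by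
      ext ω
      simp only [mem_ofPred_eq, mem_iUnion, mem_iInter, mem_union, mem_compl_iff, exists_prop]
      constructor
      · rintro ⟨x, hx, h⟩
        refine ⟨x, hx, fun k => ?_⟩
        by_cases hk : (k : ℕ) < d x ω
        · exact Or.inr (h k hk)
        · exact Or.inl hk
      · rintro ⟨x, hx, h⟩
        refine ⟨x, hx, fun k hk => ?_⟩
        rcases h k with h1 | h1
        · exact absurd hk h1
        · exact h1
    rw [e]
    refine Finset.measurableSet_biUnion _ fun x _ => MeasurableSet.iInter fun k => ?_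
    refine (measurableSet_lt measurable_const (hd x)).compl.union ?_
    have hm : Measurable (fun ω : Om J => ω (i x) k) :=
      (measurable_pi_apply (k : ℕ)).comp (measurable_pi_apply (i x))
    exact hm (MeasurableSet.of_discrete (s := {b : Bool | s k = true ↔ b = true}))
  have e : {ω : Om J | Covers A (fun l n => ω (i l) n = true) (fun l => d l ω)} =
      ⋃ N : ℕ, ((⋂ x ∈ A, {ω : Om J | d x ω ≤ N}) ∩
        ⋃ T ∈ {T : Finset (Fin N → Bool) | 2 ^ N ≤ 2 * T.card}, ⋂ s ∈ T,
          {ω : Om J | ∃ x ∈ A, ∀ k : Fin N, (k : ℕ) < d x ω → (s k = true ↔ ω (i x) k = true)}) := by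
    ext ω
    simp only [mem_ofPred_eq, mem_iUnion, mem_iInter, mem_inter_iff, exists_prop, Covers]
    constructor
    · rintro ⟨N, h1, h2⟩
      refine ⟨N, h1, ?_⟩
      obtain ⟨T, hT, hTc⟩ := exists_finset (fun s : Fin N → Bool =>
        ∃ x ∈ A, ∀ k : Fin N, (k : ℕ) < d x ω → (s k = true ↔ ω (i x) k = true))
      refine ⟨T, ?_, hT⟩
      rw [hTc]
      exact h2
    · rintro ⟨N, h1, T, hT, h2⟩
      refine ⟨N, h1, hT.trans (Nat.mul_le_mul_left _ ?_)⟩
      exact card_mono h2
  rw [e]
  refine MeasurableSet.iUnion fun N => ?_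
  refine (Finset.measurableSet_biInter _ fun x _ => ?_).inter ?_
  · exact measurableSet_le (hd x) measurable_const
  · refine MeasurableSet.biUnion (Set.to_countable _) fun T _ => ?_
    exact Finset.measurableSet_biInter _ fun s _ => hs N s

open Classical in
/-- Row V5. If more than half of the strings of length `N` are of the form `(r x) | N` with
`x ∈ A`, `d x ≤ N`, then `Covers A r d`. -/
theorem covers_of (A : Finset L) (r : L → ℕ → Bool) (d : L → ℕ) (N : ℕ)
    (W : Finset (Fin N → Bool)) (hW : 2 ^ N ≤ 2 * W.card)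
    (h : ∀ s ∈ W, ∃ x ∈ A, d x ≤ N ∧ res N (r x) = s) :
    Covers A (fun x n => r x n = true) d := by
  refine ⟨N + A.sup d, fun x hx => (Finset.le_sup hx).trans (Nat.le_add_left _ _), ?_⟩
  set M := A.sup d with hM
  have hp : ∀ (w : Fin N → Bool), w ∈ W → ∀ t : Fin M → Bool,
      ∃ x ∈ A, ∀ i : Fin (N + M), (i : ℕ) < d x → (Fin.append w t i = true ↔ r x i = true) := by
    intro w hw t
    obtain ⟨x, hx, hdx, hres⟩ := h w hw
    refine ⟨x, hx, fun i hi => ?_⟩
    have hiN : (i : ℕ) < N := lt_of_lt_of_le hi hdx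
    have e1 : i = Fin.castAdd M ⟨i, hiN⟩ := Fin.ext rfl
    rw [e1, Fin.append_left, ← hres]
    rfl
  have hc : Nat.card (W × (Fin M → Bool)) ≤ Nat.card {s : Fin (N + M) → Bool //
      ∃ x ∈ A, ∀ i : Fin (N + M), (i : ℕ) < d x → (s i = true ↔ r x i = true)} := by
    refine Nat.card_le_card_of_injective
      (fun p : W × (Fin M → Bool) => ⟨Fin.append p.1.1 p.2, hp p.1.1 p.1.2 p.2⟩) ?_
    rintro ⟨⟨w, hw⟩, t⟩ ⟨⟨w', hw'⟩, t'⟩ hab
    have h1 : Fin.append w t = Fin.append w' t' := congrArg Subtype.val hab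
    have h2 : w = w' := by
      funext i
      have := congrFun h1 (Fin.castAdd M i)
      rwa [Fin.append_left, Fin.append_left] at this
    have h3 : t = t' := by
      funext i
      have := congrFun h1 (Fin.natAdd N i)
      rwa [Fin.append_right, Fin.append_right] at this
    subst h2 h3
    rfl
  have hcard : Nat.card (W × (Fin M → Bool)) = W.card * 2 ^ M := by
    rw [Nat.card_eq_fintype_card, Fintype.card_prod, Fintype.card_coe]
    simp
  rw [hcard] at hc
  calc 2 ^ (N + M) = 2 ^ N * 2 ^ M := pow_add _ _ _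
    _ ≤ (2 * W.card) * 2 ^ M := Nat.mul_le_mul_right _ hW
    _ = 2 * (W.card * 2 ^ M) := by ring
    _ ≤ _ := Nat.mul_le_mul_left _ hc

end Pool.Agent.EB
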