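import Pool.Agent.Lib.EB.Defs

/-!
# Row V4: essential suprema and mixing
-/

set_option autoImplicit false

open MeasureTheory Cardinal Set

namespace Pool.Agent.EB

variable {J L : Type}

/-- Row V4 (file VSeq.lean). The essential supremum of a family of measurable sets. -/
theorem exists_seq_sup {Ω : Type} [MeasurableSpace Ω] (μ : Measure Ω) [IsFiniteMeasure μ]
    (D : Set (Set Ω)) (hD : ∀ s ∈ D, MeasurableSet s) :
    ∃ S : ℕ → Set Ω, (∀ n, S n ∈ D ∨ S n = ∅) ∧ ∀ q ∈ D, μ (q \ ⋃ n, S n) = 0 := by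
  set X : Set ENNReal := {x | ∃ S : ℕ → Set Ω, (∀ n, S n ∈ D ∨ S n = ∅) ∧ x = μ (⋃ n, S n)} with hX
  have hne : X.Nonempty := ⟨μ (⋃ _ : ℕ, ∅), fun _ => ∅, fun _ => Or.inr rfl, rfl⟩
  obtain ⟨u, _, hu, huX⟩ := exists_seq_tendsto_sSup hne (OrderTop.bddAbove X)
  choose S hS hSu using huX
  set T : ℕ → Set Ω := fun n => S (Nat.unpair n).1 (Nat.unpair n).2 with hT
  have hTD : ∀ n, T n ∈ D ∨ T n = ∅ := fun n => hS _ _
  have hle : ∀ k, u k ≤ μ (⋃ n, T n) := by
    intro k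
    rw [hSu k]
    apply measure_mono
    refine iUnion_subset fun m => ?_
    have h1 : T (Nat.pair k m) = S k m := by simp [hT]
    rw [← h1]
    exact subset_iUnion T _
  have hsup : sSup X ≤ μ (⋃ n, T n) := le_of_tendsto' hu hle
  refine ⟨T, hTD, fun q hq => ?_⟩
  set U : Set Ω := ⋃ n, T n with hU
  have hmT : ∀ n, MeasurableSet (T n) := by
    intro n
    rcases hTD n with h | h
    · exact hD _ h
    · rw [h]; exact MeasurableSet.empty
  have hmU : MeasurableSet U := MeasurableSet.iUnion hmT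
  set T' : ℕ → Set Ω := fun n => if n = 0 then q else T (n - 1) with hT'
  have hT'D : ∀ n, T' n ∈ D ∨ T' n = ∅ := by
    intro n
    simp only [hT']
    split_ifs
    · exact Or.inl hq
    · exact hTD _
  have hUn : ⋃ n, T' n = U ∪ (q \ U) := by
    rw [union_diff_self]
    ext ω
    simp only [mem_iUnion, mem_union, hU]
    constructor
    · rintro ⟨n, hn⟩
      simp only [hT'] at hn
      split_ifs at hn with h0
      · exact Or.inr hn
      · exact Or.inl ⟨n - 1, hn⟩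
    · rintro (⟨n, hn⟩ | hn)
      · refine ⟨n + 1, ?_⟩
        simp only [hT']
        rw [if_neg (Nat.succ_ne_zero n), Nat.add_sub_cancel]
        exact hn
      · refine ⟨0, ?_⟩
        simp only [hT', if_true]
        exact hn
  have h1 : μ (U ∪ (q \ U)) ≤ μ U := by
    refine le_trans ?_ hsup
    rw [← hUn]
    exact le_sSup ⟨T', hT'D, rfl⟩
  rw [measure_union disjoint_sdiff_right ((hD q hq).diff hmU)] at h1
  have h2 : μ U + μ (q \ U) ≤ μ U + 0 := by rwa [add_zero]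
  exact le_antisymm ((ENNReal.add_le_add_iff_left (measure_ne_top μ U)).mp h2) bot_le

/-- Row V4. Mixing of names of functions. -/
theorem exists_mix {Ω ι : Type} [MeasurableSpace Ω] (μ : Measure Ω) [IsFiniteMeasure μ]
    {p : Set Ω} (hp : MeasurableSet p) (R : ι → Ω → (L → ℕ) → Prop)
    (H : ∀ q ⊆ p, MeasurableSet q → μ q ≠ 0 → ∃ q' ⊆ q, MeasurableSet q' ∧ μ q' ≠ 0 ∧
      ∃ d : L → Ω → ℕ, (∀ l, Measurable (d l)) ∧
        ∀ i, ∀ᵐ ω ∂μ, ω ∈ q' → R i ω fun l => d l ω) :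
    ∃ d : L → Ω → ℕ, (∀ l, Measurable (d l)) ∧ ∀ i, ∀ᵐ ω ∂μ, ω ∈ p → R i ω fun l => d l ω := by
  classical
  set D : Set (Set Ω) := {q | q ⊆ p ∧ MeasurableSet q ∧ ∃ d : L → Ω → ℕ, (∀ l, Measurable (d l)) ∧
        ∀ i, ∀ᵐ ω ∂μ, ω ∈ q → R i ω fun l => d l ω} with hD
  obtain ⟨S, hS, hSD⟩ := exists_seq_sup μ D (fun s hs => hs.2.1)
  have hmS : ∀ n, MeasurableSet (S n) := by
    intro n
    rcases hS n with h | h
    · exact h.2.1
    · rw [h]; exact MeasurableSet.empty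
  have hmU : MeasurableSet (⋃ n, S n) := MeasurableSet.iUnion hmS
  have hpU : μ (p \ ⋃ n, S n) = 0 := by
    by_contra hne
    obtain ⟨q', hq', hmq', hq'0, d, hd, hR⟩ := H (p \ ⋃ n, S n) diff_subset (hp.diff hmU) hne
    have h1 := hSD q' ⟨hq'.trans diff_subset, hmq', d, hd, hR⟩
    apply hq'0
    have h2 : q' \ ⋃ n, S n = q' := by
      rw [sdiff_eq_left]
      exact disjoint_sdiff_left.mono_left hq'
    rwa [h2] at h1
  have hex : ∀ n, ∃ d : L → Ω → ℕ, (∀ l, Measurable (d l)) ∧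
      ∀ i, ∀ᵐ ω ∂μ, ω ∈ S n → R i ω fun l => d l ω := by
    intro n
    rcases hS n with h | h
    · exact h.2.2
    · refine ⟨fun _ _ => 0, fun _ => measurable_const, fun i => ?_⟩
      rw [h]
      exact Filter.Eventually.of_forall fun ω hω => absurd hω (notMem_empty ω)
  choose d hd hR using hex
  have hfind : ∀ ω : Ω, ∃ n : ℕ, ω ∈ S n ∨ ω ∉ ⋃ n, S n := by
    intro ω
    by_cases h : ω ∈ ⋃ n, S n
    · obtain ⟨n, hn⟩ := mem_iUnion.mp h
      exact ⟨n, Or.inl hn⟩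
    · exact ⟨0, Or.inr h⟩
  have hN : Measurable (fun ω => Nat.find (hfind ω)) :=
    measurable_find hfind (fun k => (hmS k).union hmU.compl)
  refine ⟨fun l ω => d (Nat.find (hfind ω)) l ω, fun l => ?_, fun i => ?_⟩
  · have h1 : Measurable (fun z : ℕ × Ω => d z.1 l z.2) :=
      measurable_from_prod_countable_right (fun n => hd n l)
    exact h1.comp (hN.prodMk measurable_id)
  · have h1 : ∀ᵐ ω ∂μ, ∀ n, ω ∈ S n → R i ω fun l => d n l ω := ae_all_iff.mpr fun n => hR n i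
    have h2 : ∀ᵐ ω ∂μ, ω ∈ p → ω ∈ ⋃ n, S n := by
      rw [ae_iff]
      convert hpU using 2
      ext ω
      simp
    filter_upwards [h1, h2] with ω h3 h4 hω
    rcases Nat.find_spec (hfind ω) with h5 | h5
    · exact h3 _ h5
    · exact absurd (h4 hω) h5

/-- Row V4. Boolean values (`exists_bval` of VSkel.lean, with the conditions written out). -/
theorem exists_bval_aux (D : Set {q : Set (Om J) // MeasurableSet q ∧ mu J q ≠ 0})
    (hD : ∀ q ∈ D, ∀ q' : {q : Set (Om J) // MeasurableSet q ∧ mu J q ≠ 0}, q'.1 ⊆ q.1 → q' ∈ D) :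
    ∃ B : Set (Om J), MeasurableSet B ∧ (∀ q ∈ D, mu J (q.1 \ B) = 0) ∧
      ∀ q : {q : Set (Om J) // MeasurableSet q ∧ mu J q ≠ 0}, mu J (q.1 \ B) = 0 →
        ∃ q' : {q : Set (Om J) // MeasurableSet q ∧ mu J q ≠ 0}, q'.1 ⊆ q.1 ∧ q' ∈ D := by
  obtain ⟨S, hS, hSD⟩ := exists_seq_sup (mu J) (Subtype.val '' D) (by
    rintro s ⟨q, _, rfl⟩
    exact q.2.1)
  have hmS : ∀ n, MeasurableSet (S n) := by
    intro n
    rcases hS n with ⟨q, _, h⟩ | h
    · rw [← h]; exact q.2.1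
    · rw [h]; exact MeasurableSet.empty
  refine ⟨⋃ n, S n, MeasurableSet.iUnion hmS, fun q hq => hSD _ ⟨q, hq, rfl⟩, fun q hq => ?_⟩
  have h1 : mu J (q.1 ∩ ⋃ n, S n) ≠ 0 := by
    intro h0
    apply q.2.2
    have h2 := measure_inter_add_diff (μ := mu J) q.1 (MeasurableSet.iUnion hmS)
    rw [h0, hq, add_zero] at h2
    exact h2.symm
  have h2 : ∃ n, mu J (q.1 ∩ S n) ≠ 0 := by
    by_contra hcon
    push Not at hcon
    apply h1
    rw [inter_iUnion]
    exact measure_iUnion_null hcon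
  obtain ⟨n, hn⟩ := h2
  rcases hS n with ⟨q0, hq0, h⟩ | h
  · refine ⟨⟨q.1 ∩ S n, q.2.1.inter (hmS n), hn⟩, inter_subset_left, hD q0 hq0 _ ?_⟩
    rw [h]
    exact inter_subset_right
  · exfalso
    apply hn
    rw [h, inter_empty, measure_empty]

end Pool.Agent.EB
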