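import Pool.Agent.Lib.EB.VSupp
import Pool.Agent.Lib.EB.VCheb
import Pool.Agent.Lib.EB.VLim
import Pool.Agent.Lib.EB.VSeq
import Pool.Agent.Lib.EB.VMeas

/-!
# The V-side: the dichotomy
-/

set_option autoImplicit false

open MeasureTheory Cardinal Set

namespace Pool.Agent.EB

variable {J L : Type}

/-- The bound. -/
def kk (N : ℕ) : ℕ := 64 * 2 ^ 2 ^ N

lemma kk_strictMono : StrictMono kk := by
  intro a b h
  unfold kk
  have h1 : 2 ^ a < 2 ^ b := Nat.pow_lt_pow_right (by norm_num) h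
  have h2 : 2 ^ 2 ^ a < 2 ^ 2 ^ b := Nat.pow_lt_pow_right (by norm_num) h1
  omega

/-- An injection of a small set avoiding a small set. -/
lemma exists_inj (hJ : ℵ₀ < #J) (S : Set L) (T : Set J) (hS : #S < #J) (hT : #T < #J) :
    ∃ i : L → J, InjOn i S ∧ ∀ l ∈ S, i l ∉ T := by
  classical
  have hinf : Infinite J := Cardinal.infinite_iff.2 hJ.le
  have h1 : #(Tᶜ : Set J) = #J := Cardinal.mk_compl_of_infinite T hT
  have h2 : #S ≤ #(Tᶜ : Set J) := by rw [h1]; exact hS.le
  obtain ⟨f⟩ := Cardinal.le_def _ _ |>.1 h2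
  have hne : Nonempty J := inferInstance
  obtain ⟨j₀⟩ := hne
  refine ⟨fun l => if h : l ∈ S then (f ⟨l, h⟩ : J) else j₀, ?_, ?_⟩
  · intro a ha b hb hab
    simp only [dif_pos ha, dif_pos hb] at hab
    have := f.injective (Subtype.ext hab)
    simpa using this
  · intro l hl
    simp only [dif_pos hl]
    exact (f ⟨l, hl⟩).2

open Classical in
/-- Few points have a large value. -/
lemma few_large {Ω : Type} [MeasurableSpace Ω] (μ : Measure Ω) [IsProbabilityMeasure μ]
    {b : Set Ω} (hb : MeasurableSet b) (A : Finset L) (d : L → Ω → ℕ)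
    (hd : ∀ l, Measurable (d l)) (N : ℕ)
    (h : ∀ l ∈ A, 7 * μ b ≤ 8 * μ (b ∩ {ω | d l ω ≤ N})) :
    3 * A.card * μ (b ∩ {ω | 8 * (A.filter fun l => d l ω ≤ N).card ≤ 5 * A.card}) ≤
      A.card * μ b := by
  set E : Set Ω := b ∩ {ω | 8 * (A.filter fun l => d l ω ≤ N).card ≤ 5 * A.card} with hE
  have hms : ∀ l, MeasurableSet (b ∩ {ω | N < d l ω}) := fun l =>
    hb.inter ((hd l) (measurableSet_Ioi (a := N)))
  have h1 : ∀ l ∈ A, 8 * μ (b ∩ {ω | N < d l ω}) ≤ μ b := by
    intro l hl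
    have h2 : μ (b ∩ {ω | d l ω ≤ N}) + μ (b ∩ {ω | N < d l ω}) = μ b := by
      rw [← measure_union]
      · congr 1
        ext ω
        simp only [mem_union, mem_inter_iff, Set.mem_ofPred_eq]
        constructor
        · rintro (h | h) <;> exact h.1
        · intro h
          rcases le_or_gt (d l ω) N with h' | h'
          · exact Or.inl ⟨h, h'⟩
          · exact Or.inr ⟨h, h'⟩
      · rw [Set.disjoint_left]
        rintro ω ⟨_, h3⟩ ⟨_, h4⟩
        simp only [Set.mem_ofPred_eq] at h3 h4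
        omega
      · exact hms l
    have h3 := h l hl
    have h5 : 8 * μ (b ∩ {ω | N < d l ω}) + 7 * μ b ≤ μ b + 7 * μ b := by
      calc 8 * μ (b ∩ {ω | N < d l ω}) + 7 * μ b
          ≤ 8 * μ (b ∩ {ω | N < d l ω}) + 8 * μ (b ∩ {ω | d l ω ≤ N}) := by gcongr
        _ = 8 * μ b := by rw [← mul_add, add_comm, h2]
        _ = μ b + 7 * μ b := by ring
    exact (ENNReal.add_le_add_iff_right (ENNReal.mul_ne_top (by norm_num)
      (measure_ne_top μ b))).1 h5
  -- the sum
  have h6 : 3 * A.card * μ E ≤ ∑ l ∈ A, 8 * μ (b ∩ {ω | N < d l ω}) := by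
    have h7 : ∑ l ∈ A, 8 * μ (b ∩ {ω | N < d l ω}) =
        ∫⁻ ω, ∑ l ∈ A, 8 * (b ∩ {ω | N < d l ω}).indicator 1 ω ∂μ := by
      rw [lintegral_finsetSum]
      · refine Finset.sum_congr rfl fun l _ => ?_
        rw [lintegral_const_mul, lintegral_indicator_one (hms l)]
        exact measurable_one.indicator (hms l)
      · intro l _
        exact (measurable_one.indicator (hms l)).const_mul _
    have h8 : MeasurableSet E := by
      refine hb.inter ?_
      have h9 : Measurable fun ω => 8 * (A.filter fun l => d l ω ≤ N).card := by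
        have : (fun ω => 8 * (A.filter fun l => d l ω ≤ N).card) =
            fun ω => 8 * ∑ l ∈ A, if d l ω ≤ N then 1 else 0 := by
          ext ω
          rw [Finset.card_filter]
        rw [this]
        refine Measurable.const_mul (Finset.measurable_sum _ fun l _ => ?_) _
        exact Measurable.ite ((hd l) (measurableSet_Iic (a := N))) measurable_const
          measurable_const
      exact h9 (measurableSet_Iic (a := 5 * A.card))
    rw [h7]
    calc 3 * (A.card : ENNReal) * μ E = ∫⁻ ω, 3 * (A.card : ENNReal) * E.indicator 1 ω ∂μ := by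
          rw [lintegral_const_mul _ (measurable_one.indicator h8), lintegral_indicator_one h8]
      _ ≤ _ := by
          refine lintegral_mono fun ω => ?_
          by_cases hω : ω ∈ E
          · rw [Set.indicator_of_mem hω]
            have h10 : ∀ l ∈ A, (8 : ENNReal) * (b ∩ {ω | N < d l ω}).indicator 1 ω =
                if N < d l ω then 8 else 0 := by
              intro l _
              by_cases h11 : N < d l ω
              · rw [Set.indicator_of_mem (show ω ∈ b ∩ {ω | N < d l ω} from ⟨hω.1, h11⟩),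
                  if_pos h11]
                simp
              · rw [Set.indicator_of_notMem (fun h => h11 h.2), if_neg h11]
                simp
            rw [Finset.sum_congr rfl h10, ← Finset.sum_filter, Finset.sum_const, nsmul_eq_mul]
            have h12 : (A.filter fun l => d l ω ≤ N).card +
                (A.filter fun l => N < d l ω).card = A.card := by
              have := Finset.card_filter_add_card_filter_not (s := A) (fun l => d l ω ≤ N)
              simpa using this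
            have h13 : 8 * (A.filter fun l => d l ω ≤ N).card ≤ 5 * A.card := hω.2
            have h14 : 3 * A.card ≤ (A.filter fun l => N < d l ω).card * 8 := by omega
            have h15 : ((3 * A.card : ℕ) : ENNReal) ≤
                (((A.filter fun l => N < d l ω).card * 8 : ℕ) : ENNReal) := by
              exact_mod_cast h14
            simpa using h15
          · rw [Set.indicator_of_notMem hω]
            simp
  refine h6.trans ?_
  calc ∑ l ∈ A, 8 * μ (b ∩ {ω | N < d l ω}) ≤ ∑ _l ∈ A, μ b := Finset.sum_le_sum h1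
    _ = A.card * μ b := by rw [Finset.sum_const, nsmul_eq_mul]

/-- Countable completeness for countable index sets. -/
lemma eventually_countable {XX : Type} (U : Ultrafilter XX)
    (hU : ∀ s : ℕ → Set XX, (∀ n, s n ∈ U) → ⋂ n, s n ∈ U) {ι : Type} {C : Set ι}
    (hC : C.Countable) {P : ι → XX → Prop} (h : ∀ c ∈ C, ∀ᶠ x in (U : Filter XX), P c x) :
    ∀ᶠ x in (U : Filter XX), ∀ c ∈ C, P c x := by
  rcases C.eq_empty_or_nonempty with rfl | hne
  · simp
  · obtain ⟨f, hf⟩ := hC.exists_eq_range hne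
    have h1 := hU (fun n => {x | P (f n) x}) (fun n => h (f n) (hf ▸ mem_range_self n))
    filter_upwards [h1] with x hx c hc
    rw [hf] at hc
    obtain ⟨n, rfl⟩ := hc
    exact mem_iInter.1 hx n

open Classical in
/-- The main estimate: a condition `b` on which all the values `e l`, `l ∈ A'`, are `N` is null if
`A'` is large. -/
lemma null_of_large {Ω : Type} [MeasurableSpace Ω] (μ : Measure Ω) [IsProbabilityMeasure μ]
    {b : Set Ω} (hb : MeasurableSet b) (A' : Finset L) (N : ℕ) (hA' : kk N ≤ A'.card)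
    (d : L → Ω → ℕ) (hd : ∀ l, Measurable (d l))
    (h7 : ∀ l ∈ A', 7 * μ b ≤ 8 * μ (b ∩ {ω | d l ω ≤ N}))
    (s : L → Ω → Fin N → Bool)
    (hch : ∀ W : Finset (Fin N → Bool), 2 * W.card ≤ 2 ^ N →
      (A'.card : ENNReal) * μ (b ∩ {ω | 5 * A'.card < 8 * (A'.filter fun l => s l ω ∈ W).card}) ≤
        16 * μ b)
    (hfail : ∀ᵐ ω ∂μ, ω ∈ b →
      ¬ 2 ^ N ≤ 2 * ((A'.filter fun l => d l ω ≤ N).image fun l => s l ω).card) :
    μ b = 0 := by
  by_contra hne
  set K := A'.card with hK
  have hK64 : 64 * 2 ^ 2 ^ N ≤ K := hA'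
  have hKpos : 0 < K := lt_of_lt_of_le (by positivity) hK64
  set E₀ : Set Ω := b ∩ {ω | 8 * (A'.filter fun l => d l ω ≤ N).card ≤ 5 * K} with hE₀
  let Ws : Finset (Finset (Fin N → Bool)) := Finset.univ.filter fun W => 2 * W.card ≤ 2 ^ N
  let E : Finset (Fin N → Bool) → Set Ω := fun W =>
    b ∩ {ω | 5 * K < 8 * (A'.filter fun l => s l ω ∈ W).card}
  have hcov : ∀ᵐ ω ∂μ, ω ∈ b → ω ∈ E₀ ∪ ⋃ W ∈ Ws, E W := by
    filter_upwards [hfail] with ω hω hωb
    have h1 := not_le.1 (hω hωb)
    by_cases h2 : 8 * (A'.filter fun l => d l ω ≤ N).card ≤ 5 * K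
    · exact Or.inl ⟨hωb, h2⟩
    · refine Or.inr (mem_iUnion₂.2
        ⟨(A'.filter fun l => d l ω ≤ N).image fun l => s l ω, ?_, hωb, ?_⟩)
      · exact Finset.mem_filter.2 ⟨Finset.mem_univ _, h1.le⟩
      · have h3 : (A'.filter fun l => d l ω ≤ N) ⊆ A'.filter fun l =>
            s l ω ∈ (A'.filter fun l => d l ω ≤ N).image fun l => s l ω := by
          intro l hl
          refine Finset.mem_filter.2 ⟨(Finset.mem_filter.1 hl).1, Finset.mem_image_of_mem _ hl⟩
        have h4 := Finset.card_le_card h3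
        have h5 : 5 * K < 8 * (A'.filter fun l => d l ω ≤ N).card := not_le.1 h2
        exact lt_of_lt_of_le h5 (Nat.mul_le_mul_left 8 h4)
  have hle : μ b ≤ μ E₀ + ∑ W ∈ Ws, μ (E W) := by
    calc μ b ≤ μ (E₀ ∪ ⋃ W ∈ Ws, E W) := measure_mono_ae hcov
      _ ≤ μ E₀ + μ (⋃ W ∈ Ws, E W) := measure_union_le _ _
      _ ≤ μ E₀ + ∑ W ∈ Ws, μ (E W) := by
          gcongr
          exact measure_biUnion_finset_le _ _
  have h0 : 3 * (K : ENNReal) * μ E₀ ≤ K * μ b := few_large μ hb A' d hd N h7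
  -- pass to real numbers
  have hfin : ∀ t : Set Ω, μ t ≠ ⊤ := fun t => measure_ne_top μ t
  have hbpos : 0 < (μ b).toReal := ENNReal.toReal_pos hne (hfin b)
  have hleR : (μ b).toReal ≤ (μ E₀).toReal + ∑ W ∈ Ws, (μ (E W)).toReal := by
    rw [← ENNReal.toReal_sum fun W _ => hfin _, ← ENNReal.toReal_add (hfin _)
      (ENNReal.sum_ne_top.2 fun W _ => hfin _)]
    exact ENNReal.toReal_mono (ENNReal.add_ne_top.2 ⟨hfin _,
      ENNReal.sum_ne_top.2 fun W _ => hfin _⟩) hle
  have hKR : (0 : ℝ) < K := by exact_mod_cast hKpos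
  have h0R : 3 * (μ E₀).toReal ≤ (μ b).toReal := by
    have h1 := ENNReal.toReal_mono (ENNReal.mul_ne_top (ENNReal.natCast_ne_top K) (hfin b)) h0
    rw [ENNReal.toReal_mul, ENNReal.toReal_mul, ENNReal.toReal_mul, ENNReal.toReal_natCast] at h1
    simp only [ENNReal.toReal_ofNat] at h1
    have h2 : (K : ℝ) * (3 * (μ E₀).toReal) ≤ K * (μ b).toReal := by linarith
    exact le_of_mul_le_mul_left h2 hKR
  have hWR : ∀ W ∈ Ws, (μ (E W)).toReal ≤ 16 * (μ b).toReal / K := by
    intro W hW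
    have h1 := ENNReal.toReal_mono (ENNReal.mul_ne_top (by norm_num) (hfin b))
      (hch W (Finset.mem_filter.1 hW).2)
    rw [ENNReal.toReal_mul, ENNReal.toReal_mul, ENNReal.toReal_natCast] at h1
    simp only [ENNReal.toReal_ofNat] at h1
    rw [le_div_iff₀ hKR, mul_comm]
    exact h1
  have hcard : (Ws.card : ℝ) ≤ 2 ^ 2 ^ N := by
    have h1 : Ws.card ≤ 2 ^ 2 ^ N := by
      calc Ws.card ≤ (Finset.univ : Finset (Finset (Fin N → Bool))).card :=
            Finset.card_filter_le _ _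
        _ = 2 ^ 2 ^ N := by simp
    exact_mod_cast h1
  have hsum : ∑ W ∈ Ws, (μ (E W)).toReal ≤ (μ b).toReal / 4 := by
    calc ∑ W ∈ Ws, (μ (E W)).toReal ≤ ∑ _W ∈ Ws, 16 * (μ b).toReal / K :=
          Finset.sum_le_sum hWR
      _ = Ws.card * (16 * (μ b).toReal / K) := by rw [Finset.sum_const, nsmul_eq_mul]
      _ ≤ 2 ^ 2 ^ N * (16 * (μ b).toReal / K) := by gcongr
      _ = (64 * 2 ^ 2 ^ N) * (μ b).toReal / (4 * K) := by field_simp; ring
      _ ≤ K * (μ b).toReal / (4 * K) := by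
          have h1 : (64 : ℝ) * 2 ^ 2 ^ N ≤ K := by exact_mod_cast hK64
          gcongr
      _ = (μ b).toReal / 4 := by field_simp
  linarith

/-- If below `p` no family of coordinates is a witness, the family is sigma-bounded below `p`. -/
theorem sig_of_fail (hJ : IsOmegaOneStronglyCompact #J) (Fh : Finset L → Set (Om J))
    (hFh : ∀ A, MeasurableSet (Fh A)) {p : Set (Om J)} (hp : MeasurableSet p)
    (H : ∀ (X : Set L) (i : L → J), InjOn i X → ∃ d : L → Om J → ℕ, (∀ l, Measurable (d l)) ∧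
      ∀ A : Finset L, ↑A ⊆ X → ∀ᵐ ω ∂(mu J), ω ∈ p →
        ¬ (ω ∈ Fh A ∧ Covers A (fun l n => ω (i l) n = true) (fun l => d l ω))) :
    SigV p Fh := by
  classical
  obtain ⟨hJ0, hU⟩ := hJ
  obtain ⟨U, hUc, hUf⟩ := hU (L ⊕ J)
  let XX : Type := {X : Set (L ⊕ J) // #X < #J}
  let XL : XX → Set L := fun X => Sum.inl ⁻¹' X.1
  let XJ : XX → Set J := fun X => Sum.inr ⁻¹' X.1
  have hXL : ∀ X : XX, #(XL X) < #J := fun X =>
    (Cardinal.mk_preimage_of_injective _ _ Sum.inl_injective).trans_lt X.2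
  have hXJ : ∀ X : XX, #(XJ X) < #J := fun X =>
    (Cardinal.mk_preimage_of_injective _ _ Sum.inr_injective).trans_lt X.2
  choose i hi hi' using fun X : XX => exists_inj hJ0 (XL X) (XJ X) (hXL X) (hXJ X)
  choose d hd hd' using fun X : XX => H (XL X) (i X) (hi X)
  choose e he he' using fun l : L => exists_lim (mu J) U hUc (fun X => d X l) (fun X => hd X l)
  -- the main estimate
  have main : ∀ (A A' : Finset L) (N : ℕ), A' ⊆ A → kk N ≤ A'.card →
      mu J (p ∩ Fh A ∩ {ω | ∀ l ∈ A', e l ω = N}) = 0 := by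
    intro A A' N hAA hcard
    set b : Set (Om J) := p ∩ Fh A ∩ {ω | ∀ l ∈ A', e l ω = N} with hb
    have hbm : MeasurableSet b := by
      refine (hp.inter (hFh A)).inter ?_
      have : {ω : Om J | ∀ l ∈ A', e l ω = N} = ⋂ l ∈ A', {ω | e l ω = N} := by
        ext ω; simp
      rw [this]
      exact MeasurableSet.biInter A'.countable_toSet fun l _ =>
        (he l) (measurableSet_singleton N)
    obtain ⟨C, hC, hCb⟩ := exists_support hbm
    have e1 : ∀ᶠ X in (U : Filter XX), ∀ l ∈ (A : Set L), l ∈ XL X :=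
      eventually_countable U hUc A.countable_toSet fun l _ => hUf (Sum.inl l)
    have e2 : ∀ᶠ X in (U : Filter XX), ∀ j ∈ C, j ∈ XJ X :=
      eventually_countable U hUc hC fun j _ => hUf (Sum.inr j)
    have e3 : ∀ᶠ X in (U : Filter XX), ∀ l ∈ (A' : Set L),
        7 * mu J b ≤ 8 * mu J (b ∩ {ω | d X l ω ≤ N}) :=
      eventually_countable U hUc A'.countable_toSet fun l hl =>
        he' l N b hbm fun ω hω => hω.2 l hl
    obtain ⟨X, h1, h2, h3⟩ := (e1.and (e2.and e3)).exists
    refine null_of_large (mu J) hbm A' N hcard (d X) (hd X) h3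
      (fun l ω => res N (ω (i X l))) (fun W hW => ?_) ?_
    · refine cheb hCb A' (i X) ((hi X).mono fun l hl => h1 l (hAA hl)) (fun l hl hC' => ?_) N W hW
      exact hi' X l (h1 l (hAA hl)) (h2 _ hC')
    · filter_upwards [hd' X A h1] with ω hω hωb hW
      refine hω hωb.1.1 ⟨hωb.1.2, ?_⟩
      refine covers_of A (fun l => ω (i X l)) (fun l => d X l ω) N _ hW fun s hs => ?_
      obtain ⟨l, hl, rfl⟩ := Finset.mem_image.1 hs
      obtain ⟨hl1, hl2⟩ := Finset.mem_filter.1 hl
      exact ⟨l, hAA hl1, hl2, rfl⟩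
  have main' : ∀ (A : Finset L) (N : ℕ), ∀ᵐ ω ∂(mu J), ω ∈ p → ω ∈ Fh A →
      (A.filter fun l => e l ω = N).card < kk N := by
    intro A N
    have h1 : ∀ A' ∈ A.powerset, ∀ᵐ ω ∂(mu J), kk N ≤ A'.card →
        ω ∉ p ∩ Fh A ∩ {ω | ∀ l ∈ A', e l ω = N} := by
      intro A' hA'
      by_cases hc : kk N ≤ A'.card
      · have := main A A' N (Finset.mem_powerset.1 hA') hc
        filter_upwards [measure_eq_zero_iff_ae_notMem.1 this] with ω hω _
        exact hω
      · exact Filter.Eventually.of_forall fun ω h => absurd h hc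
    have h2 := (Finset.eventually_all A.powerset).2 h1
    filter_upwards [h2] with ω hω hωp hωF
    by_contra hcon
    exact hω (A.filter fun l => e l ω = N) (Finset.mem_powerset.2 (Finset.filter_subset _ _))
      (not_lt.1 hcon) ⟨⟨hωp, hωF⟩, fun l hl => (Finset.mem_filter.1 hl).2⟩
  refine ⟨fun l ω => kk (e l ω), fun l => (measurable_from_top (f := kk)).comp (he l), ?_⟩
  intro A n
  by_cases hn : ∃ N, kk N = n
  · obtain ⟨N, rfl⟩ := hn
    filter_upwards [main' A N] with ω hω h1 h2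
    have h3 : (A.filter fun l => kk (e l ω) = kk N) = A.filter fun l => e l ω = N :=
      Finset.filter_congr fun l _ => kk_strictMono.injective.eq_iff
    rw [h3]
    exact (hω h1 h2).le
  · refine Filter.Eventually.of_forall fun ω _ _ => ?_
    rw [Finset.card_eq_zero.2 (Finset.filter_eq_empty_iff.2 fun l _ h => hn ⟨_, h⟩)]
    exact Nat.zero_le n

/-- The conditions: measurable sets of positive measure, ordered by inclusion. -/
def PV (J : Type) : Type := {q : Set (Om J) // MeasurableSet q ∧ mu J q ≠ 0}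

instance : PartialOrder (PV J) := inferInstanceAs (PartialOrder {_q : Set (Om J) // _})

/-- The dichotomy for names. -/
theorem dich (hJ : IsOmegaOneStronglyCompact #J) (Fh : Finset L → Set (Om J))
    (hFh : ∀ A, MeasurableSet (Fh A)) (p : PV J) :
    ∃ q ≤ p, SigV q.1 Fh ∨ PhiV q.1 Fh := by
  by_cases hPhi : ∃ q ≤ p, PhiV q.1 Fh
  · obtain ⟨q, hq, h⟩ := hPhi
    exact ⟨q, hq, Or.inr h⟩
  · push Not at hPhi
    refine ⟨p, le_rfl, Or.inl (sig_of_fail hJ Fh hFh p.2.1 fun X i hi => ?_)⟩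
    have hfail : ∀ q ⊆ p.1, MeasurableSet q → mu J q ≠ 0 → ∃ q' ⊆ q, MeasurableSet q' ∧
        mu J q' ≠ 0 ∧ ∃ d : L → Om J → ℕ, (∀ l, Measurable (d l)) ∧
          ∀ A : {A : Finset L // ↑A ⊆ X}, ∀ᵐ ω ∂(mu J), ω ∈ q' →
            ¬ (ω ∈ Fh A.1 ∧ Covers A.1 (fun l n => ω (i l) n = true) (fun l => d l ω)) := by
      intro q hqp hqm hq0
      have h1 := hPhi ⟨q, hqm, hq0⟩ hqp
      unfold PhiV at h1
      push Not at h1
      obtain ⟨q', hq'm, hq'0, hq'q, d, hd, h2⟩ := h1 X i hi
      refine ⟨q', hq'q, hq'm, hq'0, d, hd, fun A => ?_⟩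
      by_contra hcon
      rw [ae_iff] at hcon
      have hms : MeasurableSet (q' ∩ (Fh A.1 ∩
          {ω | Covers A.1 (fun l n => ω (i l) n = true) (fun l => d l ω)})) :=
        hq'm.inter ((hFh A.1).inter (measurableSet_covers A.1 i d hd))
      have hset : {ω | ¬ (ω ∈ q' →
          ¬ (ω ∈ Fh A.1 ∧ Covers A.1 (fun l n => ω (i l) n = true) (fun l => d l ω)))} =
          q' ∩ (Fh A.1 ∩ {ω | Covers A.1 (fun l n => ω (i l) n = true) (fun l => d l ω)}) := by
        ext ω
        simp only [Set.mem_ofPred_eq, mem_inter_iff]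
        tauto
      rw [hset] at hcon
      obtain ⟨ω, hω, hω'⟩ := h2 A.1 _ A.2 hms hcon inter_subset_left
      exact hω' hω.2.1 hω.2.2
    obtain ⟨d, hd, hd'⟩ := exists_mix (mu J) p.2.1
      (fun (A : {A : Finset L // ↑A ⊆ X}) ω (v : L → ℕ) =>
        ¬ (ω ∈ Fh A.1 ∧ Covers A.1 (fun l n => ω (i l) n = true) v)) hfail
    exact ⟨d, hd, fun A hA => hd' ⟨A, hA⟩⟩

end Pool.Agent.EB
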