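import Pool.Agent.Lib.EB.Defs

/-!
# Row V1: countable supports and independence of the coordinates
-/

set_option autoImplicit false

open MeasureTheory Cardinal Set

namespace Pool.Agent.EB

variable {J L : Type}

/-- Row V1 (file VSupp.lean). The sigma-algebra generated by the coordinates in `S`. -/
@[reducible] def mS (S : Set J) : MeasurableSpace (Om J) :=
  ⨆ j ∈ S, MeasurableSpace.comap (fun ω : Om J => ω j) inferInstance

theorem mS_le (S : Set J) : mS S ≤ (inferInstance : MeasurableSpace (Om J)) := by
  refine iSup₂_le fun j _ => ?_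
  exact (measurable_pi_apply j).comap_le

theorem mS_mono {S T : Set J} (h : S ⊆ T) : mS S ≤ mS T := biSup_mono h

/-- The sigma-algebra of the sets with countable support. -/
@[reducible] private def mCount (J : Type) : MeasurableSpace (Om J) where
  MeasurableSet' b := ∃ C : Set J, C.Countable ∧ MeasurableSet[mS C] b
  measurableSet_empty := ⟨∅, countable_empty, @MeasurableSet.empty _ (mS ∅)⟩
  measurableSet_compl b := by
    rintro ⟨C, hC, hb⟩
    exact ⟨C, hC, @MeasurableSet.compl _ _ (mS C) hb⟩
  measurableSet_iUnion f hf := by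
    choose C hC hb using hf
    refine ⟨⋃ n, C n, countable_iUnion hC, ?_⟩
    exact @MeasurableSet.iUnion _ _ (mS (⋃ n, C n)) _ f
      (fun n => mS_mono (subset_iUnion C n) _ (hb n))

/-- Row V1. Measurable sets have countable supports. -/
theorem exists_support {b : Set (Om J)} (hb : MeasurableSet b) :
    ∃ C : Set J, C.Countable ∧ MeasurableSet[mS C] b := by
  have h : (MeasurableSpace.pi : MeasurableSpace (Om J)) ≤ mCount J := by
    refine iSup_le fun j => ?_
    intro s hs
    refine ⟨{j}, countable_singleton j, ?_⟩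
    have h1 : MeasurableSpace.comap (fun ω : Om J => ω j) inferInstance ≤ mS {j} :=
      le_biSup (fun j => MeasurableSpace.comap (fun ω : Om J => ω j) inferInstance)
        (mem_singleton j)
    exact h1 s hs
  exact h b hb

/-- Row V1. Independence. -/
theorem mu_inter_coord {b : Set (Om J)} {C : Set J} (hb : MeasurableSet[mS C] b) {i : J}
    (hi : i ∉ C) {E : Set (ℕ → Bool)} (hE : MeasurableSet E) :
    mu J (b ∩ {ω | ω i ∈ E}) = mu J b * coin E := by
  have h1 : ProbabilityTheory.iIndepFun (fun (j : J) (ω : Om J) => ω j) (mu J) :=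
    ProbabilityTheory.iIndepFun_infinitePi (P := fun _ : J => coin)
      (X := fun _ : J => (id : (ℕ → Bool) → (ℕ → Bool))) (fun _ => measurable_id)
  have h2 := ProbabilityTheory.indep_iSup_of_disjoint
    (m := fun j : J => MeasurableSpace.comap (fun ω : Om J => ω j) inferInstance)
    (fun j => (measurable_pi_apply j).comap_le) h1 (S := C) (T := {i})
    (disjoint_singleton_right.mpr hi)
  have h3 : MeasurableSet[⨆ j ∈ ({i} : Set J),
      MeasurableSpace.comap (fun ω : Om J => ω j) inferInstance] {ω : Om J | ω i ∈ E} := by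
    have h4 : MeasurableSpace.comap (fun ω : Om J => ω i) inferInstance ≤
        ⨆ j ∈ ({i} : Set J), MeasurableSpace.comap (fun ω : Om J => ω j) inferInstance :=
      le_biSup (fun j => MeasurableSpace.comap (fun ω : Om J => ω j) inferInstance)
        (mem_singleton i)
    exact h4 _ ⟨E, hE, rfl⟩
  have h5 := (ProbabilityTheory.Indep_iff _ _ _).mp h2 b {ω : Om J | ω i ∈ E} hb h3
  rw [h5]
  congr 1
  have h6 : (mu J).map (fun ω : Om J => ω i) = coin :=
    (measurePreserving_eval_infinitePi (fun _ : J => coin) i).map_eq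
  rw [← h6, Measure.map_apply (measurable_pi_apply i) hE]
  rfl

/-- The restriction to `N` bits. -/
def res (N : ℕ) (x : ℕ → Bool) : Fin N → Bool := fun i => x i

theorem measurable_res (N : ℕ) : Measurable (res N) :=
  measurable_pi_lambda _ fun _ => measurable_pi_apply _

theorem fair_singleton (b : Bool) : fair {b} = 2⁻¹ := by
  unfold fair
  rw [PMF.toMeasure_apply_singleton _ _ (measurableSet_singleton b), PMF.uniformOfFintype_apply]
  simp

theorem coin_res_eq (N : ℕ) (s : Fin N → Bool) : coin {x | res N x = s} = (2 ^ N)⁻¹ := by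
  have h1 : {x : ℕ → Bool | res N x = s} =
      Set.pi (Finset.range N) (fun i => if h : i < N then {s ⟨i, h⟩} else univ) := by
    ext x
    simp only [mem_ofPred_eq, Set.mem_pi, Finset.coe_range, mem_Iio]
    constructor
    · intro hx i hi
      rw [dif_pos hi, mem_singleton_iff, ← hx]
      rfl
    · intro hx
      funext i
      have := hx i i.2
      rw [dif_pos i.2, mem_singleton_iff] at this
      exact this
  rw [h1]
  unfold coin
  rw [Measure.infinitePi_pi]
  · have h2 : ∀ i ∈ Finset.range N,
        fair (if h : i < N then {s ⟨i, h⟩} else univ) = 2⁻¹ := by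
      intro i hi
      rw [dif_pos (Finset.mem_range.mp hi), fair_singleton]
    rw [Finset.prod_congr rfl h2, Finset.prod_const, Finset.card_range, ENNReal.inv_pow]
  · intro i hi
    rw [dif_pos (Finset.mem_range.mp hi)]
    exact measurableSet_singleton _

/-- Row V1. -/
theorem coin_res (N : ℕ) (W : Finset (Fin N → Bool)) :
    coin {x | res N x ∈ W} = (W.card : ENNReal) / 2 ^ N := by
  have h1 : {x : ℕ → Bool | res N x ∈ W} = ⋃ s ∈ W, {x | res N x = s} := by
    ext x
    simp
  rw [h1, measure_biUnion_finset]
  · rw [Finset.sum_congr rfl (fun s _ => coin_res_eq N s), Finset.sum_const, nsmul_eq_mul,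
      div_eq_mul_inv]
  · intro s _ t _ hst
    rw [Function.onFun, Set.disjoint_left]
    intro x hx hx'
    exact hst (hx.symm.trans hx')
  · intro s _
    exact measurable_res N (measurableSet_singleton s)

/-- Row V1. -/
theorem exists_bit_ne' {a b : J} (hab : a ≠ b) : mu J {ω | ω a = ω b} = 0 := by
  have key : ∀ N : ℕ, mu J {ω | ω a = ω b} ≤ (2 ^ N)⁻¹ := by
    intro N
    have h1 : {ω : Om J | ω a = ω b} ⊆
        ⋃ s ∈ (Finset.univ : Finset (Fin N → Bool)),
          ({ω : Om J | res N (ω a) = s} ∩ {ω : Om J | ω b ∈ {x | res N x = s}}) := by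
      intro ω hω
      rw [mem_ofPred_eq] at hω
      simp only [Finset.mem_univ, iUnion_true, mem_iUnion, mem_inter_iff, mem_ofPred_eq]
      exact ⟨res N (ω a), rfl, by rw [hω]⟩
    refine (measure_mono h1).trans ((measure_biUnion_finset_le _ _).trans ?_)
    have h2 : ∀ s ∈ (Finset.univ : Finset (Fin N → Bool)),
        mu J ({ω : Om J | res N (ω a) = s} ∩ {ω : Om J | ω b ∈ {x | res N x = s}}) =
          (2 ^ N)⁻¹ * (2 ^ N)⁻¹ := by
      intro s _
      have hE : MeasurableSet {x : ℕ → Bool | res N x = s} :=
        measurable_res N (measurableSet_singleton s)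
      have hb : MeasurableSet[mS ({a} : Set J)] {ω : Om J | res N (ω a) = s} := by
        have h4 : MeasurableSpace.comap (fun ω : Om J => ω a) inferInstance ≤ mS ({a} : Set J) :=
          le_biSup (fun j => MeasurableSpace.comap (fun ω : Om J => ω j) inferInstance)
            (mem_singleton a)
        exact h4 _ ⟨_, hE, rfl⟩
      have hba : b ∉ ({a} : Set J) := fun h => hab (mem_singleton_iff.mp h).symm
      rw [mu_inter_coord hb hba hE, coin_res_eq]
      congr 1
      have h5 : mu J {ω : Om J | res N (ω a) = s} =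
          mu J (univ ∩ {ω : Om J | ω a ∈ {x | res N x = s}}) := by
        rw [univ_inter]
        rfl
      rw [h5, mu_inter_coord (C := ∅) (@MeasurableSet.univ _ (mS ∅)) (notMem_empty a) hE,
        coin_res_eq, measure_univ, one_mul]
    rw [Finset.sum_congr rfl h2, Finset.sum_const, Finset.card_univ, nsmul_eq_mul]
    have h3 : (Fintype.card (Fin N → Bool) : ENNReal) = 2 ^ N := by
      simp
    rw [h3, ← mul_assoc, ENNReal.mul_inv_cancel (by simp) (by simp), one_mul]
  have hlim : Filter.Tendsto (fun N : ℕ => ((2 : ENNReal) ^ N)⁻¹) Filter.atTop (nhds 0) := by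
    have h1 : (fun N : ℕ => ((2 : ENNReal) ^ N)⁻¹) = fun N : ℕ => (2⁻¹ : ENNReal) ^ N := by
      funext N
      rw [ENNReal.inv_pow]
    rw [h1]
    exact ENNReal.tendsto_pow_atTop_nhds_zero_of_lt_one (by simp)
  exact le_antisymm (ge_of_tendsto' hlim key) bot_le

end Pool.Agent.EB
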